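import Pool.Agent.MP_96872c_an.Grid

open Finset Real MeasureTheory ProbabilityTheory Filter Topology
open scoped NNReal ENNReal

namespace Pool.Agent.MP_96872c_an

variable {N : ℕ} {Ω : Type} {mΩ : MeasurableSpace Ω} {G : Filtration ℝ≥0 mΩ}
  {J : ℝ≥0 → Ω → Fin N}

theorem prog_clip (hJ : IsProgressive G J) (t : ℝ≥0) :
    @Measurable (ℝ × Ω) (Fin N) (MeasurableSpace.prod inferInstance (G t)) _
      fun q => J (min q.1.toNNReal t) q.2 := by
  let _ : MeasurableSpace Ω := G t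
  have h1 : Measurable fun q : ℝ × Ω =>
      ((⟨min q.1.toNNReal t, Set.mem_Iic.2 (min_le_right _ _)⟩ : Set.Iic t), q.2) :=
    (Measurable.subtype_mk ((measurable_real_toNNReal.comp measurable_fst).min
      measurable_const)).prodMk measurable_snd
  exact (hJ t).comp h1

theorem prog_joint (hJ : IsProgressive G J) :
    Measurable fun q : ℝ × Ω => J q.1.toNNReal q.2 := by
  intro U hU
  have : (fun q : ℝ × Ω => J q.1.toNNReal q.2) ⁻¹' U =
      ⋃ n : ℕ, {q : ℝ × Ω | q.1 ≤ (n : ℝ)} ∩ (fun q : ℝ × Ω => J (min q.1.toNNReal n) q.2) ⁻¹' U := by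
    ext q
    simp only [Set.mem_preimage, Set.mem_iUnion, Set.mem_inter_iff, Set.mem_ofPred_eq]
    have key : ∀ n : ℕ, q.1 ≤ n → min q.1.toNNReal n = q.1.toNNReal := fun n hn =>
      min_eq_left (Real.toNNReal_le_iff_le_coe.2 (by simpa using hn))
    constructor
    · intro h
      obtain ⟨n, hn⟩ := exists_nat_ge q.1
      exact ⟨n, hn, by rwa [key n hn]⟩
    · rintro ⟨n, hn, h⟩
      rwa [key n hn] at h
  rw [this]
  refine MeasurableSet.iUnion fun n => (measurableSet_le measurable_fst measurable_const).inter ?_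
  have h1 : Measurable fun q : ℝ × Ω => J (min q.1.toNNReal n) q.2 := by
    refine (prog_clip hJ n).mono ?_ le_rfl
    exact sup_le_sup le_rfl (MeasurableSpace.comap_mono (G.le n))
  exact h1 hU

/-- indicator that box `j` is observed -/
noncomputable def HH (J : ℝ≥0 → Ω → Fin N) (j : Fin N) (ω : Ω) (s : ℝ) : ℝ :=
  if J s.toNNReal ω = j then 1 else 0

/-- occupation time of box `j` -/
noncomputable def DD (J : ℝ≥0 → Ω → Fin N) (j : Fin N) (t : ℝ≥0) (ω : Ω) : ℝ :=
  ∫ s in (0 : ℝ)..t, HH J j ω s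

theorem meas_path (hJ : IsProgressive G J) (ω : Ω) : Measurable fun s : ℝ => J s.toNNReal ω :=
  (prog_joint hJ).comp (measurable_id.prodMk measurable_const)

theorem meas_HH (hJ : IsProgressive G J) (j : Fin N) (ω : Ω) : Measurable (HH J j ω) :=
  (Measurable.of_discrete (f := fun i : Fin N => if i = j then (1 : ℝ) else 0)).comp
    (meas_path hJ ω)

theorem HH_abs (j : Fin N) (ω : Ω) (s : ℝ) : |HH J j ω s| ≤ 1 := by
  unfold HH; split_ifs <;> simp

theorem meas_DD (hJ : IsProgressive G J) (j : Fin N) (t : ℝ≥0) : Measurable[G t] (DD J j t) := by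
  have h0 := prog_clip hJ t
  let _ : MeasurableSpace Ω := G t
  have h1 : Measurable fun q : ℝ × Ω => if J (min q.1.toNNReal t) q.2 = j then (1 : ℝ) else 0 :=
    (Measurable.of_discrete (f := fun i : Fin N => if i = j then (1 : ℝ) else 0)).comp h0
  have h2 := (h1.stronglyMeasurable.integral_prod_left'
    (μ := volume.restrict (Set.Ioc (0 : ℝ) t))).measurable
  convert h2 using 1
  funext ω
  unfold DD
  rw [intervalIntegral.integral_of_le t.coe_nonneg]
  refine setIntegral_congr_fun measurableSet_Ioc fun s hs => ?_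
  simp only [HH, min_eq_left (Real.toNNReal_le_iff_le_coe.2 hs.2)]

noncomputable def pick (j0 : Fin N) (b : Fin N → Bool) : Fin N :=
  if h : ∃ j, b j = true then h.choose else j0

theorem pick_eq (j0 : Fin N) {b : Fin N → Bool} {i : Fin N} (h : ∀ j, b j = true ↔ j = i) :
    pick j0 b = i := by
  have h1 : ∃ j, b j = true := ⟨i, (h i).2 rfl⟩
  rw [pick, dif_pos h1]
  exact (h _).1 h1.choose_spec

open Classical in
/-- the simple policy at level `n` -/
noncomputable def Jn (J : ℝ≥0 → Ω → Fin N) (j0 : Fin N) (n k : ℕ) (ω : Ω) : Fin N :=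
  pick j0 fun j => decide (1 / 2 < 2 ^ n * (DD J j (grid n k) ω - DD J j (grid n (k - 1)) ω))

theorem meas_Jn (hJ : IsProgressive G J) (j0 : Fin N) (n k : ℕ) :
    Measurable[G (grid n k)] (Jn J j0 n k) := by
  classical
  have h1 : ∀ j, Measurable[G (grid n k)] fun ω =>
      (2 : ℝ) ^ n * (DD J j (grid n k) ω - DD J j (grid n (k - 1)) ω) := fun j =>
    ((meas_DD hJ j _).sub ((meas_DD hJ j _).mono (G.mono (grid_mono n (Nat.sub_le k 1)))
      le_rfl)).const_mul _
  let _ : MeasurableSpace Ω := G (grid n k)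
  refine (Measurable.of_discrete (f := pick j0)).comp (measurable_pi_lambda _ fun j => ?_)
  refine measurable_to_bool ?_
  have := measurableSet_lt (measurable_const (a := (1 / 2 : ℝ))) (h1 j)
  convert this using 1
  ext ω
  simp

theorem Jn_conv (hJ : IsProgressive G J) (j0 : Fin N) (ω : Ω) :
    ∀ᵐ s : ℝ, 0 < s → ∀ᶠ n in atTop, Jn J j0 n ⌊s * 2 ^ n⌋₊ ω = J s.toNNReal ω := by
  classical
  have hloc : ∀ j, LocallyIntegrable (HH J j ω) volume := fun j =>
    (locallyIntegrable_const (1 : ℝ)).mono (meas_HH hJ j ω).aestronglyMeasurable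
      (Eventually.of_forall fun s => by simpa using HH_abs j ω s)
  have h := ae_all_iff.2 fun j => IsUnifLocDoublingMeasure.ae_tendsto_average volume (hloc j) 3
  filter_upwards [h] with s hs hs0
  have hbig : ∀ᶠ n : ℕ in atTop, 1 ≤ s * 2 ^ n :=
    (Tendsto.const_mul_atTop hs0 (tendsto_pow_atTop_atTop_of_one_lt one_lt_two)).eventually_ge_atTop 1
  have key : ∀ j, Tendsto (fun n : ℕ => (2 : ℝ) ^ n * (DD J j (grid n ⌊s * 2 ^ n⌋₊) ω -
      DD J j (grid n (⌊s * 2 ^ n⌋₊ - 1)) ω)) atTop (𝓝 (HH J j ω s)) := by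
    intro j
    have hδ : Tendsto (fun n : ℕ => (1 / 2 : ℝ) * (1 / 2) ^ n) atTop (𝓝[>] 0) := by
      refine tendsto_nhdsWithin_iff.2 ⟨?_, Eventually.of_forall fun n => ?_⟩
      · have := (tendsto_pow_atTop_nhds_zero_of_lt_one (by norm_num : (0 : ℝ) ≤ 1 / 2)
          (by norm_num)).const_mul (1 / 2)
        rwa [mul_zero] at this
      · exact Set.mem_Ioi.2 (by positivity)
    have h1 := hs j (fun n : ℕ => ((⌊s * 2 ^ n⌋₊ : ℝ) - 1 / 2) * (1 / 2) ^ n) _ hδ
      (Eventually.of_forall fun n => by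
        have h2 := Nat.floor_le (by positivity : 0 ≤ s * 2 ^ n)
        have h3 := Nat.lt_floor_add_one (s * 2 ^ n)
        have h4 : s = s * 2 ^ n * (1 / 2) ^ n := by rw [mul_assoc, ← mul_pow]; simp
        have h5 : (0 : ℝ) < (1 / 2) ^ n := by positivity
        rw [Metric.mem_closedBall, Real.dist_eq, abs_le]
        constructor <;> nlinarith)
    refine h1.congr' ?_
    filter_upwards [hbig] with n hn
    have hk : 1 ≤ ⌊s * 2 ^ n⌋₊ := Nat.le_floor (by exact_mod_cast hn)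
    set k := ⌊s * 2 ^ n⌋₊
    have e1 : ((k : ℝ) - 1 / 2) * (1 / 2) ^ n - 1 / 2 * (1 / 2) ^ n = grid n (k - 1) := by
      rw [grid_coe, Nat.cast_sub hk, one_div_pow]; push_cast; ring
    have e2 : ((k : ℝ) - 1 / 2) * (1 / 2) ^ n + 1 / 2 * (1 / 2) ^ n = grid n k := by
      rw [grid_coe, one_div_pow]; ring
    have hle : (grid n (k - 1) : ℝ) ≤ grid n k := NNReal.coe_le_coe.2 (grid_mono n (Nat.sub_le k 1))
    have e3 : (grid n k : ℝ) - grid n (k - 1) = (2 ^ n)⁻¹ := by
      rw [← e1, ← e2, one_div_pow]; ring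
    rw [Real.closedBall_eq_Icc, e1, e2, setAverage_eq, integral_Icc_eq_integral_Ioc,
      ← intervalIntegral.integral_of_le hle, Real.volume_real_Icc_of_le hle, e3, inv_inv,
      smul_eq_mul]
    unfold DD
    rw [intervalIntegral.integral_interval_sub_left (ii_bdd (meas_HH hJ j ω) (HH_abs j ω) _ _)
      (ii_bdd (meas_HH hJ j ω) (HH_abs j ω) _ _)]
  have h2 : ∀ j, ∀ᶠ n : ℕ in atTop, (1 / 2 < (2 : ℝ) ^ n * (DD J j (grid n ⌊s * 2 ^ n⌋₊) ω -
      DD J j (grid n (⌊s * 2 ^ n⌋₊ - 1)) ω) ↔ j = J s.toNNReal ω) := by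
    intro j
    by_cases hj : J s.toNNReal ω = j
    · have h3 : HH J j ω s = 1 := if_pos hj
      filter_upwards [(key j).eventually (lt_mem_nhds (by rw [h3]; norm_num : 1 / 2 < HH J j ω s))]
        with n hn
      exact ⟨fun _ => hj.symm, fun _ => hn⟩
    · have h3 : HH J j ω s = 0 := if_neg hj
      filter_upwards [(key j).eventually (gt_mem_nhds (by rw [h3]; norm_num : HH J j ω s < 1 / 2))]
        with n hn
      exact ⟨fun h => absurd h (not_lt.2 hn.le), fun h => absurd h.symm hj⟩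
  filter_upwards [eventually_all.2 h2] with n hn
  exact pick_eq j0 fun j => by simpa using hn j

/-- time during which the simple policy differs from the policy -/
noncomputable def ee (J : ℝ≥0 → Ω → Fin N) (n : ℕ) (c : ℕ → Ω → Fin N) (T : ℝ≥0) (ω : Ω) : ℝ :=
  ∫ s in (0 : ℝ)..T, if c ⌊s * 2 ^ n⌋₊ ω = J s.toNNReal ω then (0 : ℝ) else 1

theorem meas_ee_joint (hJ : IsProgressive G J) (n : ℕ) {c : ℕ → Ω → Fin N}
    (hc : ∀ k, Measurable (c k)) : Measurable fun q : ℝ × Ω =>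
      if c ⌊q.1 * 2 ^ n⌋₊ q.2 = J q.1.toNNReal q.2 then (0 : ℝ) else 1 := by
  have h1 : Measurable fun q : ℕ × Ω => c q.1 q.2 := measurable_from_prod_countable_right hc
  have h2 : Measurable fun q : ℝ × Ω => c ⌊q.1 * 2 ^ n⌋₊ q.2 :=
    h1.comp ((Nat.measurable_floor.comp (measurable_fst.mul_const _)).prodMk measurable_snd)
  exact (Measurable.of_discrete
    (f := fun i : Fin N × Fin N => if i.1 = i.2 then (0 : ℝ) else 1)).comp (h2.prodMk (prog_joint hJ))

theorem meas_ee (hJ : IsProgressive G J) (n : ℕ) {c : ℕ → Ω → Fin N}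
    (hc : ∀ k, Measurable (c k)) (T : ℝ≥0) : Measurable (ee J n c T) := by
  have h2 := ((meas_ee_joint hJ n hc).stronglyMeasurable.integral_prod_left'
    (μ := volume.restrict (Set.Ioc (0 : ℝ) T))).measurable
  convert h2 using 1
  funext ω
  exact intervalIntegral.integral_of_le T.coe_nonneg

theorem meas_ee_path (hJ : IsProgressive G J) (n : ℕ) (c : ℕ → Ω → Fin N) (ω : Ω) :
    Measurable fun s : ℝ => if c ⌊s * 2 ^ n⌋₊ ω = J s.toNNReal ω then (0 : ℝ) else 1 := by
  have h2 : Measurable fun s : ℝ => c ⌊s * 2 ^ n⌋₊ ω :=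
    (measurable_from_nat (f := fun k => c k ω)).comp (Nat.measurable_floor.comp (by fun_prop))
  exact (Measurable.of_discrete
    (f := fun i : Fin N × Fin N => if i.1 = i.2 then (0 : ℝ) else 1)).comp (h2.prodMk (meas_path hJ ω))

theorem ee_bdd (n : ℕ) (c : ℕ → Ω → Fin N) (T : ℝ≥0) (ω : Ω) : |ee J n c T ω| ≤ T := by
  have := intervalIntegral.norm_integral_le_of_norm_le_const (a := 0) (b := T) (C := 1)
    (f := fun s : ℝ => if c ⌊s * 2 ^ n⌋₊ ω = J s.toNNReal ω then (0 : ℝ) else 1)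
    fun s _ => by split_ifs <;> simp
  simpa [ee] using this

theorem abs_int_le_ee (hJ : IsProgressive G J) (n : ℕ) (c : ℕ → Ω → Fin N) {a b T : ℝ≥0}
    (hab : a ≤ b) (hb : b ≤ T) (ω : Ω) {f : ℝ → ℝ}
    (hf : ∀ s, |f s| ≤ if c ⌊s * 2 ^ n⌋₊ ω = J s.toNNReal ω then (0 : ℝ) else 1) :
    |∫ s in (a : ℝ)..b, f s| ≤ ee J n c T ω := by
  have hi := ii_bdd (meas_ee_path hJ n c ω) (C := 1) fun s => by split_ifs <;> simp
  refine (intervalIntegral.norm_integral_le_of_norm_le (f := f) (NNReal.coe_le_coe.2 hab)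
    (Eventually.of_forall fun s _ => hf s) (hi _ _)).trans ?_
  exact intervalIntegral.integral_mono_interval a.coe_nonneg (NNReal.coe_le_coe.2 hab)
    (NNReal.coe_le_coe.2 hb) (Eventually.of_forall fun s => by
      simp only [Pi.zero_apply]; split_ifs <;> simp) (hi _ _)

theorem tendsto_int_zero {f : ℕ → ℝ → ℝ} (hf : ∀ r, Measurable (f r)) (hb : ∀ r s, |f r s| ≤ 1)
    (T : ℝ≥0) (h : ∀ᵐ s : ℝ, 0 < s → s ≤ T → Tendsto (fun r => f r s) atTop (𝓝 0)) :
    Tendsto (fun r => ∫ s in (0 : ℝ)..T, f r s) atTop (𝓝 0) := by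
  simp only [intervalIntegral.integral_of_le T.coe_nonneg]
  have := tendsto_integral_of_dominated_convergence (μ := volume.restrict (Set.Ioc (0 : ℝ) T))
    (F := f) (f := fun _ => 0) (fun _ => 1) (fun r => (hf r).aestronglyMeasurable)
    (integrable_const 1) (fun r => Eventually.of_forall (hb r))
    ((ae_restrict_iff' measurableSet_Ioc).2 (h.mono fun s hs hs' => hs hs'.1 hs'.2))
  simpa using this

theorem ee_tendsto (hJ : IsProgressive G J) {n : ℕ → ℕ} {c : ℕ → ℕ → Ω → Fin N} (T : ℝ≥0) {ω : Ω}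
    (h : ∀ᵐ s : ℝ, 0 < s → ∀ᶠ r in atTop, c r ⌊s * 2 ^ n r⌋₊ ω = J s.toNNReal ω) :
    Tendsto (fun r => ee J (n r) (c r) T ω) atTop (𝓝 0) :=
  tendsto_int_zero (fun r => meas_ee_path hJ _ _ ω) (fun r s => by split_ifs <;> simp) T
    (h.mono fun s hs h0 _ => tendsto_const_nhds.congr' ((hs h0).mono fun r hr => by simp [hr]))

/-- a rapidly converging sequence of simple policies -/
structure Apx (P : Measure Ω) (G : Filtration ℝ≥0 mΩ) (J : ℝ≥0 → Ω → Fin N) (T : ℝ≥0)
    (n : ℕ → ℕ) (c : ℕ → ℕ → Ω → Fin N) : Prop where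
  mono : StrictMono n
  meas : ∀ r k, Measurable[G (grid (n r) k)] (c r k)
  conv : ∀ ω, ∀ᵐ s : ℝ, 0 < s → ∀ᶠ r in atTop, c r ⌊s * 2 ^ n r⌋₊ ω = J s.toNNReal ω
  fast : ∀ r, ∫⁻ ω, ENNReal.ofReal (ee J (n r) (c r) T ω) ∂P ≤ ENNReal.ofReal ((1 / 4) ^ r)

theorem exists_apx (P : Measure Ω) [IsProbabilityMeasure P] (hJ : IsProgressive G J) (j0 : Fin N)
    (T : ℝ≥0) : ∃ n c, Apx P G J T n c := by
  have hm : ∀ n, Measurable (ee J n (Jn J j0 n) T) := fun n =>
    meas_ee hJ n (fun k => (meas_Jn hJ j0 n k).mono (G.le _) le_rfl) T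
  have h1 := tendsto_lintegral_of_dominated_convergence (μ := P)
    (F := fun n ω => ENNReal.ofReal (ee J n (Jn J j0 n) T ω)) (f := fun _ => 0)
    (fun _ => ENNReal.ofReal T) (fun n => (hm n).ennreal_ofReal)
    (fun n => Eventually.of_forall fun ω =>
      ENNReal.ofReal_le_ofReal ((le_abs_self _).trans (ee_bdd _ _ _ _))) (by simp)
    (Eventually.of_forall fun ω => by
      simpa using ENNReal.tendsto_ofReal (ee_tendsto hJ (n := id) T (Jn_conv hJ j0 ω)))
  rw [lintegral_zero] at h1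
  obtain ⟨n, hn, hb⟩ := extraction_forall_of_eventually
    (P := fun r n => ∫⁻ ω, ENNReal.ofReal (ee J n (Jn J j0 n) T ω) ∂P ≤
      ENNReal.ofReal ((1 / 4) ^ r)) fun r =>
      h1.eventually (ge_mem_nhds (ENNReal.ofReal_pos.2 (by positivity)))
  exact ⟨n, fun r => Jn J j0 (n r), hn, fun r k => meas_Jn hJ j0 _ _,
    fun ω => (Jn_conv hJ j0 ω).mono fun s hs h0 => hn.tendsto_atTop.eventually (hs h0), hb⟩

end Pool.Agent.MP_96872c_an
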