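import Pool.Agent.MP_96872c_an.Disc

open Finset Real MeasureTheory ProbabilityTheory Filter Topology
open scoped NNReal ENNReal

namespace Pool.Agent.MP_96872c_an

variable {Ω : Type} {mΩ : MeasurableSpace Ω}

/-- Brownian increments with respect to a filtration up to time `T` -/
structure BMon (ρ : Measure Ω) (G : Filtration ℝ≥0 mΩ) (B : ℝ≥0 → Ω → ℝ) (T : ℝ≥0) : Prop where
  meas : ∀ t, Measurable[G t] (B t)
  law : ∀ s t, s ≤ t → t ≤ T → IL (G s) ρ (fun ω => B t ω - B s ω) (gaussianReal 0 (t - s))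

/-- elementary integral along a partition -/
noncomputable def SI (p : ℕ → ℝ≥0) (K : ℕ → Ω → ℝ) (Z : ℝ≥0 → Ω → ℝ) (m : ℕ) (ω : Ω) : ℝ :=
  ∑ k ∈ range m, K k ω * (Z (p (k + 1)) ω - Z (p k) ω)

/-- the time process -/
def tm : ℝ≥0 → Ω → ℝ := fun t _ => t

def Ad (G : Filtration ℝ≥0 mΩ) (p : ℕ → ℝ≥0) (K : ℕ → Ω → ℝ) : Prop :=
  ∀ k, p k < p (k + 1) → Measurable[G (p k)] (K k)

variable {ρ : Measure Ω} {G : Filtration ℝ≥0 mΩ} {B Z : ℝ≥0 → Ω → ℝ} {T : ℝ≥0} {p : ℕ → ℝ≥0}
  {K : ℕ → Ω → ℝ}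

theorem SI_succ (p : ℕ → ℝ≥0) (K : ℕ → Ω → ℝ) (Z : ℝ≥0 → Ω → ℝ) (m : ℕ) (ω : Ω) :
    SI p K Z (m + 1) ω = SI p K Z m ω + K m ω * (Z (p (m + 1)) ω - Z (p m) ω) :=
  sum_range_succ _ _

theorem Ad.sq (h : Ad G p K) : Ad G p fun k ω => K k ω ^ 2 := fun k hk => (h k hk).pow_const 2

theorem meas_tm (t : ℝ≥0) : Measurable[G t] (tm t : Ω → ℝ) := measurable_const

theorem SI_meas (hp : Monotone p) (hK : Ad G p K) (hZ : ∀ t, Measurable[G t] (Z t)) (m : ℕ) :
    Measurable[G (p m)] (SI p K Z m) := by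
  refine @Finset.measurable_sum _ _ _ _ _ _ (G (p m)) _ _ fun k hk => ?_
  have hk' := mem_range.1 hk
  rcases (hp (Nat.le_succ k)).lt_or_eq with h | h
  · exact ((hK k h).mono (G.mono (hp hk'.le)) le_rfl).mul
      (((hZ _).mono (G.mono (hp hk')) le_rfl).sub ((hZ _).mono (G.mono (hp hk'.le)) le_rfl))
  · simp only [Nat.succ_eq_add_one] at h
    simp only [← h, sub_self, mul_zero]
    exact measurable_const

/-- exponent of the elementary exponential martingale -/
noncomputable def ME (p : ℕ → ℝ≥0) (K : ℕ → Ω → ℝ) (B : ℝ≥0 → Ω → ℝ) (m : ℕ) (ω : Ω) : ℝ :=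
  SI p K B m ω - SI p (fun k ω => K k ω ^ 2) tm m ω / 2

theorem ME_meas (hp : Monotone p) (hK : Ad G p K) (hZ : ∀ t, Measurable[G t] (Z t)) (m : ℕ) :
    Measurable[G (p m)] (ME p K Z m) :=
  (SI_meas hp hK hZ m).sub ((SI_meas hp hK.sq meas_tm m).div_const 2)

theorem gauss_exp (d : ℝ≥0) (k : ℝ) :
    ∫⁻ x, ENNReal.ofReal (exp (k * x - k ^ 2 * d / 2)) ∂gaussianReal 0 d = 1 := by
  simp only [Real.exp_sub]
  rw [← ofReal_integral_eq_lintegral_ofReal ((integrable_exp_mul_gaussianReal k).div_const _)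
    (Eventually.of_forall fun x => by positivity), integral_div]
  have h := congrFun (mgf_id_gaussianReal (μ := 0) (v := d)) k
  simp only [mgf, id] at h
  rw [h, zero_mul, zero_add, mul_comm (d : ℝ), div_self (exp_pos _).ne', ENNReal.ofReal_one]

theorem gauss_sq (d : ℝ≥0) (a k : ℝ) :
    ∫⁻ x, ENNReal.ofReal ((a + k * x) ^ 2) ∂gaussianReal 0 d = ENNReal.ofReal (a ^ 2 + k ^ 2 * d) := by
  have h2 : MemLp (fun x : ℝ => x) 2 (gaussianReal 0 d) := memLp_id_gaussianReal 2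
  have i1 : Integrable (fun x : ℝ => x) (gaussianReal 0 d) := h2.integrable (by norm_num)
  have i2 : Integrable (fun x : ℝ => x ^ 2) (gaussianReal 0 d) := h2.integrable_sq
  have hv : ∫ x, x ^ 2 ∂gaussianReal 0 d = d := by
    have := variance_fun_id_gaussianReal (μ := 0) (v := d)
    rw [variance_eq_integral measurable_id'.aemeasurable] at this
    simpa using this
  have e : ∀ x : ℝ, (a + k * x) ^ 2 = a ^ 2 + 2 * a * k * x + k ^ 2 * x ^ 2 := fun x => by ring
  have i3 : Integrable (fun x : ℝ => a ^ 2 + 2 * a * k * x) (gaussianReal 0 d) :=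
    (integrable_const _).add (i1.const_mul _)
  have i4 : Integrable (fun x : ℝ => (a + k * x) ^ 2) (gaussianReal 0 d) := by
    simp only [e]; exact i3.add (i2.const_mul _)
  rw [← ofReal_integral_eq_lintegral_ofReal i4 (Eventually.of_forall fun x => sq_nonneg _)]
  simp only [e]
  rw [integral_add i3 (i2.const_mul _), integral_add (integrable_const _) (i1.const_mul _),
    integral_const_mul, integral_const_mul, hv, integral_id_gaussianReal]
  simp

variable [IsFiniteMeasure ρ]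

theorem expmart (hB : BMon ρ G B T) (hp : Monotone p) (hT : ∀ k, p k ≤ T) (hK : Ad G p K)
    {g : Ω → ℝ≥0∞} (hg : Measurable[G (p 0)] g) (m : ℕ) :
    ∫⁻ ω, g ω * ENNReal.ofReal (exp (ME p K B m ω)) ∂ρ = ∫⁻ ω, g ω ∂ρ := by
  induction m with
  | zero => simp [ME, SI]
  | succ m ih =>
    rw [← ih]
    have hle := hp (Nat.le_succ m)
    rcases hle.lt_or_eq with h | h
    · have hξ : Measurable[G (p m)] fun ω =>
          (g ω * ENNReal.ofReal (exp (ME p K B m ω)), K m ω) :=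
        ((hg.mono (G.mono (hp (Nat.zero_le m))) le_rfl).mul
          (ME_meas hp hK hB.meas m).exp.ennreal_ofReal).prodMk (hK m h)
      have hX : Measurable fun ω => B (p (m + 1)) ω - B (p m) ω :=
        ((hB.meas _).mono (G.le _) le_rfl).sub ((hB.meas _).mono (G.le _) le_rfl)
      have h1 := (hB.law _ _ hle (hT _)).lintegral (G.le _) hX hξ
        (f := fun q : (ℝ≥0∞ × ℝ) × ℝ => q.1.1 * ENNReal.ofReal
          (exp (q.1.2 * q.2 - q.1.2 ^ 2 * (p (m + 1) - p m : ℝ≥0) / 2))) (by fun_prop)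
      simp only at h1
      have h2 : ∀ ω, g ω * ENNReal.ofReal (exp (ME p K B (m + 1) ω)) =
          g ω * ENNReal.ofReal (exp (ME p K B m ω)) * ENNReal.ofReal
            (exp (K m ω * (B (p (m + 1)) ω - B (p m) ω) -
              K m ω ^ 2 * (p (m + 1) - p m : ℝ≥0) / 2)) := by
        intro ω
        rw [mul_assoc, ← ENNReal.ofReal_mul (exp_pos _).le, ← Real.exp_add, NNReal.coe_sub hle]
        simp only [ME, SI_succ, tm]
        congr 3
        ring
      simp only [h2]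
      rw [h1]
      refine lintegral_congr fun ω => ?_
      rw [lintegral_const_mul _ (by fun_prop), gauss_exp, mul_one]
    · simp only [Nat.succ_eq_add_one] at h
      simp [ME, SI_succ, ← h]

theorem SI_time_nonneg (hp : Monotone p) (hK : ∀ k ω, 0 ≤ K k ω) (m : ℕ) (ω : Ω) :
    0 ≤ SI p K tm m ω :=
  sum_nonneg fun k _ => mul_nonneg (hK k ω) (sub_nonneg.2 (NNReal.coe_le_coe.2 (hp (Nat.le_succ k))))

theorem isometry (hB : BMon ρ G B T) (hp : Monotone p) (hT : ∀ k, p k ≤ T) (hK : Ad G p K)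
    (m : ℕ) : ∫⁻ ω, ENNReal.ofReal (SI p K B m ω ^ 2) ∂ρ =
      ∫⁻ ω, ENNReal.ofReal (SI p (fun k ω => K k ω ^ 2) tm m ω) ∂ρ := by
  induction m with
  | zero => simp [SI]
  | succ m ih =>
    have hle := hp (Nat.le_succ m)
    rcases hle.lt_or_eq with h | h
    · have hS := SI_meas hp hK hB.meas m
      have hξ : Measurable[G (p m)] fun ω => (SI p K B m ω, K m ω) := hS.prodMk (hK m h)
      have hX : Measurable fun ω => B (p (m + 1)) ω - B (p m) ω :=
        ((hB.meas _).mono (G.le _) le_rfl).sub ((hB.meas _).mono (G.le _) le_rfl)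
      have h1 := (hB.law _ _ hle (hT _)).lintegral (G.le _) hX hξ
        (f := fun q : (ℝ × ℝ) × ℝ => ENNReal.ofReal ((q.1.1 + q.1.2 * q.2) ^ 2)) (by fun_prop)
      simp only [gauss_sq] at h1
      simp only [SI_succ]
      rw [h1]
      have hd : (0 : ℝ) ≤ (p (m + 1) : ℝ) - p m := sub_nonneg.2 (NNReal.coe_le_coe.2 hle)
      have hS' : Measurable (SI p K B m) := hS.mono (G.le _) le_rfl
      have hV : Measurable (SI p (fun k ω => K k ω ^ 2) tm m) :=
        (SI_meas hp hK.sq meas_tm m).mono (G.le _) le_rfl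
      simp only [NNReal.coe_sub hle, tm]
      have e1 : ∀ ω, ENNReal.ofReal (SI p K B m ω ^ 2 + K m ω ^ 2 * ((p (m + 1) : ℝ) - p m)) =
          ENNReal.ofReal (SI p K B m ω ^ 2) + ENNReal.ofReal (K m ω ^ 2 * ((p (m + 1) : ℝ) - p m)) :=
        fun ω => ENNReal.ofReal_add (sq_nonneg _) (by positivity)
      have e2 : ∀ ω, ENNReal.ofReal (SI p (fun k ω => K k ω ^ 2) tm m ω +
          K m ω ^ 2 * ((p (m + 1) : ℝ) - p m)) =
          ENNReal.ofReal (SI p (fun k ω => K k ω ^ 2) tm m ω) +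
            ENNReal.ofReal (K m ω ^ 2 * ((p (m + 1) : ℝ) - p m)) :=
        fun ω => ENNReal.ofReal_add (SI_time_nonneg hp (fun _ _ => sq_nonneg _) m ω) (by positivity)
      simp only [Nat.succ_eq_add_one, e1, e2]
      rw [lintegral_add_left (hS'.pow_const 2).ennreal_ofReal, lintegral_add_left hV.ennreal_ofReal,
        ih]
    · simp only [Nat.succ_eq_add_one] at h
      simpa [SI_succ, ← h] using ih

theorem map_eq_of_mgf {X : Ω → ℝ} (hX : Measurable X) (d : ℝ≥0)
    (h : ∀ θ : ℝ, ∫ ω, exp (θ * X ω) ∂ρ = ρ.real Set.univ * exp (θ ^ 2 * d / 2)) :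
    ρ.map X = ρ Set.univ • gaussianReal 0 d := by
  have : IsFiniteMeasure (ρ Set.univ • gaussianReal 0 d) := ⟨by simp⟩
  have h1 : mgf id (ρ Set.univ • gaussianReal 0 d) = mgf X ρ := by
    funext θ
    rw [mgf_smul_measure, mgf_id_gaussianReal, mgf, h θ]
    simp only [zero_mul, zero_add, mul_comm (d : ℝ)]
    rfl
  have h2 := eqOn_complexMGF_of_mgf' h1 (by
    simp [IsProbabilityMeasure.ne_zero (gaussianReal 0 d)])
  have h3 : integrableExpSet id (ρ Set.univ • gaussianReal 0 d) = Set.univ :=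
    Set.eq_univ_of_forall fun t => (integrable_exp_mul_gaussianReal t).smul_measure
      (measure_ne_top _ _)
  rw [h3, interior_univ] at h2
  have h4 := Measure.ext_of_complexMGF_eq aemeasurable_id hX.aemeasurable
    (funext fun z => h2 (Set.mem_univ _))
  rw [Measure.map_id] at h4
  exact h4.symm

end Pool.Agent.MP_96872c_an

namespace Pool.Agent.MP_96872c_an

variable {Ω : Type}

theorem agree_step (𝒜 : MeasurableSpace Ω) {mΩ : MeasurableSpace Ω} {ρ₁ ρ₂ : Measure Ω}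
    [IsFiniteMeasure ρ₁] [IsFiniteMeasure ρ₂] {X : Ω → ℝ} {ν : Measure ℝ}
    [IsProbabilityMeasure ν] (hle : 𝒜 ≤ mΩ) (hX : Measurable X) (h1 : IL 𝒜 ρ₁ X ν)
    (h2 : IL 𝒜 ρ₂ X ν) (h : ∀ A, MeasurableSet[𝒜] A → ρ₁ A = ρ₂ A) :
    ∀ A, MeasurableSet[𝒜 ⊔ MeasurableSpace.comap X inferInstance] A → ρ₁ A = ρ₂ A := by
  have hid : @Measurable Ω Ω 𝒜 𝒜 id := @measurable_id Ω 𝒜
  have hid' : @Measurable Ω Ω mΩ 𝒜 id := hid.mono hle le_rfl
  have e1 := @IL.map_prod Ω Ω 𝒜 mΩ ρ₁ X ν 𝒜 _ _ id h1 hle hX hid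
  have e2 := @IL.map_prod Ω Ω 𝒜 mΩ ρ₂ X ν 𝒜 _ _ id h2 hle hX hid
  have e3 : @Measure.map Ω Ω mΩ 𝒜 id ρ₁ = @Measure.map Ω Ω mΩ 𝒜 id ρ₂ := by
    refine @Measure.ext Ω 𝒜 _ _ fun s hs => ?_
    rw [Measure.map_apply hid' hs, Measure.map_apply hid' hs]
    exact h s hs
  rw [e3, ← e2] at e1
  intro A hA
  have e4 := @MeasurableSpace.comap_prodMk Ω Ω ℝ 𝒜 inferInstance id X
  rw [MeasurableSpace.comap_id] at e4
  rw [← e4] at hA
  obtain ⟨B, hB, rfl⟩ := hA
  have hm : @Measurable Ω (Ω × ℝ) mΩ (𝒜.prod inferInstance) fun ω => (id ω, X ω) := hid'.prodMk hX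
  rw [← Measure.map_apply hm hB, ← Measure.map_apply hm hB]
  exact congrArg (fun μ : @Measure (Ω × ℝ) (𝒜.prod inferInstance) => μ B) e1

variable {mΩ : MeasurableSpace Ω}

theorem agree_natural {Y : ℝ≥0 → Ω → ℝ} {hY : ∀ t, StronglyMeasurable (Y t)} {T : ℝ≥0}
    {ρ₁ ρ₂ : Measure Ω} [IsProbabilityMeasure ρ₁] [IsProbabilityMeasure ρ₂]
    (h1 : BMon ρ₁ (Filtration.natural Y hY) Y T) (h2 : BMon ρ₂ (Filtration.natural Y hY) Y T)
    (z1 : ∀ᵐ ω ∂ρ₁, Y 0 ω = 0) (z2 : ∀ᵐ ω ∂ρ₂, Y 0 ω = 0) :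
    ∀ A, MeasurableSet[Filtration.natural Y hY T] A → ρ₁ A = ρ₂ A := by
  classical
  set G := Filtration.natural Y hY with hG
  have key : ∀ I : Finset ℝ≥0, (∀ t ∈ I, t ≤ T) → ∃ s ≤ T, (s = 0 ∨ s ∈ I) ∧
      ∃ 𝒜 : MeasurableSpace Ω, 𝒜 ≤ G s ∧ Measurable[𝒜] (Y s) ∧ (∀ t ∈ I, Measurable[𝒜] (Y t)) ∧
        ∀ A, MeasurableSet[𝒜] A → ρ₁ A = ρ₂ A := by
    intro I
    induction I using Finset.induction_on_max with
    | empty =>
      intro _
      refine ⟨0, zero_le, Or.inl rfl, MeasurableSpace.comap (Y 0) inferInstance,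
        (h1.meas 0).comap_le, Measurable.of_comap_le le_rfl, by simp, ?_⟩
      rintro A ⟨B, hB, rfl⟩
      have : ∀ (ρ : Measure Ω) [IsProbabilityMeasure ρ], (∀ᵐ ω ∂ρ, Y 0 ω = 0) →
          ρ (Y 0 ⁻¹' B) = if (0 : ℝ) ∈ B then 1 else 0 := by
        intro ρ _ z
        split_ifs with h0
        · rw [← measure_univ (μ := ρ)]
          refine measure_congr (z.mono fun ω hω => ?_)
          change (Y 0 ω ∈ B) = True
          simp [hω, h0]
        · rw [← measure_empty (μ := ρ)]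
          refine measure_congr (z.mono fun ω hω => ?_)
          change (Y 0 ω ∈ B) = False
          simp [hω, h0]
      rw [this ρ₁ z1, this ρ₂ z2]
    | insert a I ha ih =>
      intro hI
      obtain ⟨s, hsT, hs, 𝒜, hle, hs', hI', hag⟩ := ih fun t ht => hI t (mem_insert_of_mem ht)
      have hsa : s ≤ a := by
        rcases hs with rfl | hs
        · exact zero_le
        · exact (ha s hs).le
      have haT := hI a (mem_insert_self _ _)
      have hX : Measurable[G a] fun ω => Y a ω - Y s ω :=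
        (h1.meas a).sub ((h1.meas s).mono (G.mono hsa) le_rfl)
      have hX' : Measurable[𝒜 ⊔ MeasurableSpace.comap (fun ω => Y a ω - Y s ω) inferInstance]
          fun ω => Y a ω - Y s ω := Measurable.of_comap_le le_sup_right
      have hYa : Measurable[𝒜 ⊔ MeasurableSpace.comap (fun ω => Y a ω - Y s ω) inferInstance]
          (Y a) := by
        have := hX'.add (hs'.mono le_sup_left le_rfl)
        convert this using 1
        funext ω
        simp
      refine ⟨a, haT, Or.inr (mem_insert_self _ _), _, sup_le (hle.trans (G.mono hsa)) hX.comap_le,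
        hYa, fun t ht => ?_, agree_step 𝒜 (hle.trans (G.le s)) (hX.mono (G.le a) le_rfl)
          ((h1.law s a hsa haT).mono hle) ((h2.law s a hsa haT).mono hle) hag⟩
      rcases mem_insert.1 ht with rfl | ht
      · exact hYa
      · exact (hI' t ht).mono le_sup_left le_rfl
  let m : Finset (Set.Iic T) → MeasurableSpace Ω := fun I =>
    ⨆ t ∈ I, MeasurableSpace.comap (Y t) inferInstance
  have hmono : Monotone m := fun I I' h => biSup_mono h
  have hgen : G T = MeasurableSpace.generateFrom (⋃ I, {A | MeasurableSet[m I] A}) := by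
    refine Eq.trans ?_ (MeasurableSpace.generateFrom_iUnion_measurableSet m).symm
    refine le_antisymm (iSup₂_le fun t ht => le_iSup_of_le {⟨t, ht⟩} ?_) (iSup_le fun I => ?_)
    · exact le_iSup₂_of_le (⟨t, ht⟩ : Set.Iic T) (mem_singleton_self _) le_rfl
    · exact iSup₂_le fun t _ => ((h1.meas t).comap_le).trans (G.mono t.2)
  intro A hA
  refine ext_on_measurableSpace_of_generate_finite mΩ _ ?_ (G.le T) hgen
    (isPiSystem_iUnion_of_monotone _ (fun I => @MeasurableSpace.isPiSystem_measurableSet Ω (m I))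
      fun I I' h => hmono h) (by simp) hA
  intro B hB
  obtain ⟨I, hB⟩ := Set.mem_iUnion.1 hB
  obtain ⟨s, -, -, 𝒜, -, -, hI', hag⟩ := key (I.image (↑)) fun t ht => by
    obtain ⟨u, -, rfl⟩ := mem_image.1 ht
    exact u.2
  have : m I ≤ 𝒜 := iSup₂_le fun t ht => (hI' t (mem_image_of_mem _ ht)).comap_le
  exact hag B (this _ hB)

end Pool.Agent.MP_96872c_an
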