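import Mathlib

open MeasureTheory ProbabilityTheory Filter Topology
open scoped NNReal ENNReal

namespace Pool.Agent.MP_96872c_an

/-- `I` is the stochastic integral of `H` against `Y` over `[0, t]`: the limit in probability of
the elementary integrals of bounded simple adapted processes that tend to `H` in mean square -/
def IsIto {Ω : Type} {mΩ : MeasurableSpace Ω} (P : Measure Ω) (G : Filtration ℝ≥0 mΩ)
    (Y H : ℝ≥0 → Ω → ℝ) (t : ℝ≥0) (I : Ω → ℝ) : Prop :=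
  ∀ (n : ℕ → ℕ) (K : ℕ → ℕ → Ω → ℝ),
    (∀ r k : ℕ, Measurable[G ((k : ℝ≥0) / 2 ^ n r)] (K r k)) → (∀ r k ω, |K r k ω| ≤ 1) →
    Tendsto (fun r => ∫⁻ ω, ENNReal.ofReal
      (∫ s in (0 : ℝ)..t, (K r ⌊s * 2 ^ n r⌋₊ ω - H s.toNNReal ω) ^ 2) ∂P) atTop (𝓝 0) →
    TendstoInMeasure P (fun r ω => ∑ k ∈ Finset.range (⌈t⌉₊ * 2 ^ n r), K r k ω *
      (Y (min (((k + 1 : ℕ) : ℝ≥0) / 2 ^ n r) t) ω - Y (min ((k : ℝ≥0) / 2 ^ n r) t) ω)) atTop I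

/-- the likelihood of box `j` -/
noncomputable def lik {N : ℕ} {Ω : Type} (μ : ℝ) (J : ℝ≥0 → Ω → Fin N) (I : Fin N → ℝ≥0 → Ω → ℝ)
    (j : Fin N) (t : ℝ≥0) (ω : Ω) : ℝ :=
  Real.exp (μ * I j t ω - μ ^ 2 / 2 * ∫ s in (0 : ℝ)..t, if J s.toNNReal ω = j then (1 : ℝ) else 0)

/-- a weak solution of the search problem with uniform prior under some policy `J` -/
structure Search (N : ℕ) (μ : ℝ) {Ω : Type} [mΩ : MeasurableSpace Ω] (P : Measure Ω) where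
  F : Filtration ℝ≥0 mΩ
  G : Filtration ℝ≥0 mΩ
  W : ℝ≥0 → Ω → ℝ
  box : Ω → Fin N
  J : ℝ≥0 → Ω → Fin N
  Y : ℝ≥0 → Ω → ℝ
  post : Fin N → ℝ≥0 → Ω → ℝ
  G_le : G ≤ F
  brownian : IsBrownianReal W P
  W_indep : ∀ s t, s ≤ t →
    Indep (MeasurableSpace.comap (fun ω => W t ω - W s ω) inferInstance) (F s) P
  box_meas : Measurable[F 0] box
  uniform : ∀ i, P {ω | box ω = i} = (N : ℝ≥0∞)⁻¹
  Y_meas : ∀ t, StronglyMeasurable (Y t)
  Y_adapted : Adapted G Y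
  J_prog : IsProgressive G J
  signal : ∀ᵐ ω ∂P, ∀ t : ℝ≥0,
    Y t ω = W t ω + μ * ∫ s in (0 : ℝ)..t, if J s.toNNReal ω = box ω then (1 : ℝ) else 0
  post_eq : ∀ i t, post i t =ᵐ[P] P[Set.indicator {ω | box ω = i} (fun _ => (1 : ℝ)) | G t]
  post_cont : ∀ᵐ ω ∂P, ∀ i, Continuous fun t => post i t ω
  info : G = Filtration.natural Y Y_meas ∨ ∃ I : Fin N → ℝ≥0 → Ω → ℝ,
    (∀ j t, IsIto P G Y (fun s ω => if J s ω = j then 1 else 0) t (I j t)) ∧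
    ∀ i t, post i t =ᵐ[P] fun ω => lik μ J I i t ω / ∑ j, lik μ J I j t ω

variable {N : ℕ} {μ : ℝ} {Ω : Type} [MeasurableSpace Ω] {P : Measure Ω}

/-- expected time until some posterior probability reaches `1 - ε` -/
noncomputable def Search.cost (S : Search N μ P) (ε : ℝ) : ℝ≥0∞ :=
  ∫⁻ ω, ⨅ (t : ℝ≥0) (_ : ∃ i, 1 - ε ≤ S.post i t ω), (t : ℝ≥0∞) ∂P

/-- the policy observes a box of largest posterior probability -/
def Search.IsFTL (S : Search N μ P) : Prop :=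
  ∀ᵐ ω ∂P, ∀ᵐ s : ℝ, 0 < s → ∀ i, S.post i s.toNNReal ω ≤ S.post (S.J s.toNNReal ω) s.toNNReal ω

/-- the Posner-Rumsey value -/
noncomputable def value (N : ℕ) (μ ε : ℝ) : ℝ :=
  if 1 - ε ≤ 1 / N then 0 else
    2 / μ ^ 2 * ((N - 2) / (N - 1) * (N * (1 - ε) - 1) +
      (2 * (1 - ε) - 1) * Real.log ((N - 1) * (1 - ε) / ε))

end Pool.Agent.MP_96872c_an
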