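import Pool.Agent.MP_96872c_an.Gauss

open Finset Real MeasureTheory ProbabilityTheory Filter Topology
open scoped NNReal ENNReal

namespace Pool.Agent.MP_96872c_an

section IL

variable {Ω α : Type}

/-- `X` has law `ν` and is independent of the sub-σ-algebra `m` -/
def IL (m : MeasurableSpace Ω) {mΩ : MeasurableSpace Ω} (ρ : Measure Ω) (X : Ω → ℝ)
    (ν : Measure ℝ) : Prop :=
  ∀ A, MeasurableSet[m] A → (ρ.restrict A).map X = ρ A • ν

variable {m mΩ : MeasurableSpace Ω} {ρ : Measure Ω} {X : Ω → ℝ} {ν : Measure ℝ}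

theorem IL.restrict (h : IL m ρ X ν) (hle : m ≤ mΩ) {A : Set Ω} (hA : MeasurableSet[m] A) :
    IL m (ρ.restrict A) X ν := fun B hB => by
  rw [Measure.restrict_restrict (hle _ hB), Measure.restrict_apply (hle _ hB)]
  exact h _ (hB.inter hA)

theorem IL.mono {m' : MeasurableSpace Ω} (h : IL (mΩ := mΩ) m ρ X ν) (hm : m' ≤ m) :
    IL (mΩ := mΩ) m' ρ X ν :=
  fun A hA => h A (hm _ hA)

theorem IL.map (h : IL m ρ X ν) (hX : Measurable X) {g : ℝ → ℝ} (hg : Measurable g) :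
    IL m ρ (fun ω => g (X ω)) (ν.map g) := fun A hA => by
  rw [← Measure.map_smul, ← h A hA, Measure.map_map hg hX]
  rfl

variable [MeasurableSpace α] [IsFiniteMeasure ρ] [IsProbabilityMeasure ν] {ξ : Ω → α}

theorem IL.map_prod (h : IL m ρ X ν) (hle : m ≤ mΩ) (hX : Measurable X) (hξ : Measurable[m] ξ) :
    ρ.map (fun ω => (ξ ω, X ω)) = (ρ.map ξ).prod ν := by
  have hξ' : Measurable ξ := hξ.mono hle le_rfl
  refine (Measure.prod_eq fun s t hs ht => ?_).symm
  rw [Measure.map_apply (hξ'.prodMk hX) (hs.prod ht), Measure.map_apply hξ' hs]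
  have h1 := congrArg (fun μ : Measure ℝ => μ t) (h _ (hξ hs))
  simp only [Measure.smul_apply, smul_eq_mul] at h1
  rw [← h1, Measure.map_apply hX ht, Measure.restrict_apply (hX ht), Set.inter_comm]
  rfl

theorem IL.lintegral (h : IL m ρ X ν) (hle : m ≤ mΩ) (hX : Measurable X) (hξ : Measurable[m] ξ)
    {f : α × ℝ → ℝ≥0∞} (hf : Measurable f) :
    ∫⁻ ω, f (ξ ω, X ω) ∂ρ = ∫⁻ ω, ∫⁻ x, f (ξ ω, x) ∂ν ∂ρ := by
  have hξ' : Measurable ξ := hξ.mono hle le_rfl
  rw [← lintegral_map hf (hξ'.prodMk hX), h.map_prod hle hX hξ, lintegral_prod _ hf.aemeasurable,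
    lintegral_map hf.lintegral_prod_right' hξ']

theorem IL.integral (h : IL m ρ X ν) (hle : m ≤ mΩ) (hX : Measurable X) (hξ : Measurable[m] ξ)
    {f : α × ℝ → ℝ} (hf : Measurable f) (hi : Integrable (fun ω => f (ξ ω, X ω)) ρ) :
    Integrable (fun ω => ∫ x, f (ξ ω, x) ∂ν) ρ ∧
      ∫ ω, f (ξ ω, X ω) ∂ρ = ∫ ω, ∫ x, f (ξ ω, x) ∂ν ∂ρ := by
  have hξ' : Measurable ξ := hξ.mono hle le_rfl
  have h1 : Integrable f ((ρ.map ξ).prod ν) := by
    rw [← h.map_prod hle hX hξ]
    exact (integrable_map_measure hf.aestronglyMeasurable (hξ'.prodMk hX).aemeasurable).2 hi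
  have h2 := h1.integral_prod_left
  refine ⟨(integrable_map_measure h2.1 hξ'.aemeasurable).1 h2, ?_⟩
  rw [← integral_map (hξ'.prodMk hX).aemeasurable hf.aestronglyMeasurable, h.map_prod hle hX hξ,
    integral_prod _ h1, integral_map hξ'.aemeasurable h2.1]

end IL

section UI

variable {Ω : Type} {mΩ : MeasurableSpace Ω} {ρ : Measure Ω} [IsFiniteMeasure ρ]

omit [IsFiniteMeasure ρ] in
theorem integrable_of_lint {h : Ω → ℝ} (hm : AEStronglyMeasurable h ρ) {C : ℝ≥0∞} (hC : C ≠ ∞)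
    (hb : ∫⁻ ω, ENNReal.ofReal |h ω| ∂ρ ≤ C) : Integrable h ρ := by
  refine ⟨hm, ?_⟩
  rw [hasFiniteIntegral_iff_norm]
  exact hb.trans_lt hC.lt_top

theorem trunc_aux {h : Ω → ℝ} (hm : AEStronglyMeasurable h ρ) {C : ℝ} (hC : 0 ≤ C)
    (hb : ∫⁻ ω, ENNReal.ofReal (h ω ^ 2) ∂ρ ≤ ENNReal.ofReal C) :
    Integrable h ρ ∧ ∀ K : ℝ, 0 < K → |∫ ω, h ω ∂ρ - ∫ ω, max (-K) (min (h ω) K) ∂ρ| ≤ C / K := by
  have i2 : Integrable (fun ω => h ω ^ 2) ρ :=
    integrable_of_lint (hm.pow 2) ENNReal.ofReal_ne_top (by simpa only [abs_pow, sq_abs] using hb)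
  have hI : ∫ ω, h ω ^ 2 ∂ρ ≤ C := by
    rw [← ofReal_integral_eq_lintegral_ofReal i2 (Eventually.of_forall fun _ => sq_nonneg _)] at hb
    exact (ENNReal.ofReal_le_ofReal_iff hC).1 hb
  have i1 : Integrable h ρ := ((integrable_const (1 : ℝ)).add i2).mono' hm
    (Eventually.of_forall fun ω => by
      rw [Real.norm_eq_abs, Pi.add_apply, ← sq_abs]; nlinarith [sq_nonneg (|h ω| - 1)])
  refine ⟨i1, fun K hK => ?_⟩
  have mT : AEStronglyMeasurable (fun ω => max (-K) (min (h ω) K)) ρ :=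
    (by fun_prop : Continuous fun t : ℝ => max (-K) (min t K)).comp_aestronglyMeasurable hm
  have iT : Integrable (fun ω => max (-K) (min (h ω) K)) ρ :=
    Integrable.of_bound mT K (Eventually.of_forall fun ω => by
      rw [Real.norm_eq_abs, abs_le]
      exact ⟨le_max_left _ _, max_le (by linarith) (min_le_right _ _)⟩)
  rw [← integral_sub i1 iT]
  refine (abs_integral_le_integral_abs).trans ((integral_mono (i1.sub iT).abs (i2.div_const K)
    fun ω => ?_).trans ?_)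
  · simp only [Pi.sub_apply]
    rw [le_div_iff₀ hK]
    rcases le_total (h ω) K with h1 | h1
    · rw [min_eq_left h1]
      rcases le_total (-K) (h ω) with h2 | h2
      · rw [max_eq_right h2]; simp [sq_nonneg]
      · rw [max_eq_left h2, abs_of_nonpos (by linarith)]; nlinarith
    · rw [min_eq_right h1, max_eq_right (by linarith), abs_of_nonneg (by linarith)]; nlinarith
  · rw [integral_div]
    exact div_le_div_of_nonneg_right hI hK.le

theorem tendsto_integral_L2 {f : ℕ → Ω → ℝ} {g : Ω → ℝ} (hf : ∀ n, AEStronglyMeasurable (f n) ρ)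
    {C : ℝ} (hb : ∀ n, ∫⁻ ω, ENNReal.ofReal (f n ω ^ 2) ∂ρ ≤ ENNReal.ofReal C)
    (hlim : ∀ᵐ ω ∂ρ, Tendsto (fun n => f n ω) atTop (𝓝 (g ω))) :
    Integrable g ρ ∧ Tendsto (fun n => ∫ ω, f n ω ∂ρ) atTop (𝓝 (∫ ω, g ω ∂ρ)) := by
  wlog hC : 0 ≤ C generalizing C
  · refine this (C := 0) (fun n => (hb n).trans ?_) le_rfl
    exact ENNReal.ofReal_le_ofReal (le_of_not_ge hC)
  have hg : AEStronglyMeasurable g ρ := aestronglyMeasurable_of_tendsto_ae atTop hf hlim
  have hgb : ∫⁻ ω, ENNReal.ofReal (g ω ^ 2) ∂ρ ≤ ENNReal.ofReal C := by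
    calc ∫⁻ ω, ENNReal.ofReal (g ω ^ 2) ∂ρ
        = ∫⁻ ω, liminf (fun n => ENNReal.ofReal (f n ω ^ 2)) atTop ∂ρ := by
          refine lintegral_congr_ae ?_
          filter_upwards [hlim] with ω hω
          exact ((ENNReal.continuous_ofReal.tendsto _).comp (hω.pow 2)).liminf_eq.symm
      _ ≤ liminf (fun n => ∫⁻ ω, ENNReal.ofReal (f n ω ^ 2) ∂ρ) atTop :=
          lintegral_liminf_le' fun n => ((hf n).aemeasurable.pow_const 2).ennreal_ofReal
      _ ≤ ENNReal.ofReal C := liminf_le_of_frequently_le' (Frequently.of_forall hb)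
  obtain ⟨ig, hg2⟩ := trunc_aux hg hC hgb
  refine ⟨ig, Metric.tendsto_atTop.2 fun ε hε => ?_⟩
  set K := 3 * (C + 1) / ε with hK
  have hK0 : 0 < K := by positivity
  have hCK : C / K < ε / 3 := by
    rw [div_lt_iff₀ hK0, hK]; field_simp; linarith
  have hc : Continuous fun t : ℝ => max (-K) (min t K) := by fun_prop
  have h1 := tendsto_integral_of_dominated_convergence (μ := ρ)
    (F := fun n ω => max (-K) (min (f n ω) K)) (f := fun ω => max (-K) (min (g ω) K)) (fun _ => K)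
    (fun n => hc.comp_aestronglyMeasurable (hf n)) (integrable_const K)
    (fun n => Eventually.of_forall fun ω => by
      rw [Real.norm_eq_abs, abs_le]
      exact ⟨le_max_left _ _, max_le (by linarith) (min_le_right _ _)⟩)
    (hlim.mono fun ω hω => (hc.tendsto _).comp hω)
  obtain ⟨n0, hn0⟩ := Metric.tendsto_atTop.1 h1 (ε / 3) (by positivity)
  refine ⟨n0, fun n hn => ?_⟩
  have h2 := (trunc_aux (hf n) hC (hb n)).2 K hK0
  have h3 := hg2 K hK0
  have h4 := hn0 n hn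
  rw [Real.dist_eq] at h4 ⊢
  rw [abs_lt] at h4 ⊢
  rw [abs_le] at h2 h3
  constructor <;> linarith [h2.1, h2.2, h3.1, h3.2, h4.1, h4.2]

omit [IsFiniteMeasure ρ] in
theorem ae_cauchy {f : ℕ → Ω → ℝ} (hf : ∀ n, Measurable (f n)) {c : ℝ}
    (hb : ∀ n, ∫⁻ ω, ENNReal.ofReal ((f (n + 1) ω - f n ω) ^ 2) ∂ρ ≤
      ENNReal.ofReal (c * (1 / 4) ^ n)) :
    ∀ᵐ ω ∂ρ, ∃ l, Tendsto (fun n => f n ω) atTop (𝓝 l) := by
  wlog hc : 0 ≤ c generalizing c
  · refine this (c := 0) (fun n => (hb n).trans ?_) le_rfl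
    exact ENNReal.ofReal_le_ofReal (mul_le_mul_of_nonneg_right (le_of_not_ge hc) (by positivity))
  have hm : ∀ n, Measurable fun ω => ENNReal.ofReal (2 ^ n * (f (n + 1) ω - f n ω) ^ 2) :=
    fun n => by fun_prop
  have h1 : ∫⁻ ω, ∑' n, ENNReal.ofReal (2 ^ n * (f (n + 1) ω - f n ω) ^ 2) ∂ρ ≠ ∞ := by
    rw [lintegral_tsum fun n => (hm n).aemeasurable]
    have hs : Summable fun n : ℕ => c * (1 / 2 : ℝ) ^ n := summable_geometric_two.mul_left c
    refine ne_top_of_le_ne_top hs.tsum_ofReal_ne_top (ENNReal.tsum_le_tsum fun n => ?_)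
    simp_rw [ENNReal.ofReal_mul (by positivity : (0 : ℝ) ≤ 2 ^ n)]
    rw [lintegral_const_mul _ (by fun_prop)]
    refine (mul_le_mul_right (hb n) _).trans (le_of_eq ?_)
    rw [← ENNReal.ofReal_mul (by positivity)]
    congr 1
    rw [mul_left_comm, ← mul_pow]; norm_num
  filter_upwards [ae_lt_top (Measurable.tsum hm) h1] with ω hω
  have h2 : Summable fun n => 2 ^ n * (f (n + 1) ω - f n ω) ^ 2 := by
    have := ENNReal.summable_toReal hω.ne
    refine this.congr fun n => ENNReal.toReal_ofReal (by positivity)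
  have h3 : Summable fun n => dist (f n ω) (f (n + 1) ω) := by
    have hs : Summable fun n : ℕ => ((3 / 4 : ℝ) ^ n) :=
      summable_geometric_of_lt_one (by norm_num) (by norm_num)
    refine (hs.add h2).of_nonneg_of_le (fun _ => dist_nonneg) fun n => ?_
    rw [dist_comm, Real.dist_eq, ← sq_abs]
    set d := |f (n + 1) ω - f n ω|
    have hd : 0 ≤ d := abs_nonneg _
    have h4 : (1 : ℝ) ≤ 2 ^ n * (3 / 4) ^ n := by
      rw [← mul_pow]; exact one_le_pow₀ (by norm_num)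
    have h5 : (0 : ℝ) < (3 / 4) ^ n := by positivity
    have h6 : (0 : ℝ) < 2 ^ n := by positivity
    rcases le_total d ((3 / 4) ^ n) with h | h
    · have : 0 ≤ 2 ^ n * d ^ 2 := by positivity
      linarith
    · have : 1 ≤ 2 ^ n * d := h4.trans (mul_le_mul_of_nonneg_left h h6.le)
      nlinarith
  exact cauchySeq_tendsto_of_complete (cauchySeq_of_summable_dist h3)

end UI

section Disc

variable {N : ℕ} {Ω : Type} {mΩ : MeasurableSpace Ω}

/-- discrete time model: independent logarithmic steps, adapted choice of coordinate -/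
structure Disc (ρ : Measure Ω) (G : Filtration ℕ mΩ) (X : ℕ → Ω → ℝ) (J : ℕ → Ω → Fin N)
    (v : ℝ≥0) (M : ℕ) : Prop where
  mX : ∀ k, Measurable[G (k + 1)] (X k)
  mJ : ∀ k, Measurable[G k] (J k)
  law : ∀ k < M, IL (G k) ρ (X k) (nu v)

noncomputable def zeta (X : ℕ → Ω → ℝ) (J : ℕ → Ω → Fin N) (k : ℕ) (ω : Ω) : Fin N → ℝ :=
  ∑ l ∈ range k, Pi.single (J l ω) (X l ω)

theorem zeta_succ (X : ℕ → Ω → ℝ) (J : ℕ → Ω → Fin N) (k : ℕ) (ω : Ω) :
    zeta X J (k + 1) ω = zeta X J k ω + Pi.single (J k ω) (X k ω) := sum_range_succ _ _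

theorem meas_single : Measurable fun p : Fin N × ℝ => (Pi.single p.1 p.2 : Fin N → ℝ) := by
  refine measurable_from_prod_countable_right fun j => measurable_pi_lambda _ fun i => ?_
  by_cases h : i = j
  · subst h; simpa using measurable_id'
  · simp [h]

theorem meas_stepF {F : (Fin N → ℝ) → ℝ} (hF : Measurable F) :
    Measurable fun p : ((Fin N → ℝ) × Fin N) × ℝ => F (p.1.1 + Pi.single p.1.2 p.2) :=
  hF.comp (measurable_fst.fst.add (meas_single.comp (measurable_fst.snd.prodMk measurable_snd)))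

variable {ρ : Measure Ω} {G : Filtration ℕ mΩ} {X : ℕ → Ω → ℝ} {J : ℕ → Ω → Fin N} {v : ℝ≥0}
  {M : ℕ}

theorem Disc.mz (h : Disc ρ G X J v M) (k : ℕ) : Measurable[G k] (zeta X J k) := by
  refine @Finset.measurable_sum _ _ _ _ _ _ (G k) _ _ fun l hl => ?_
  have hl' := mem_range.1 hl
  exact meas_single.comp (((h.mJ l).mono (G.mono hl'.le) le_rfl).prodMk
    ((h.mX l).mono (G.mono hl') le_rfl))

theorem Disc.mz' (h : Disc ρ G X J v M) (k : ℕ) : Measurable (zeta X J k) :=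
  (h.mz k).mono (G.le k) le_rfl

theorem Disc.moment [IsProbabilityMeasure ρ] (h : Disc ρ G X J v M) (p : ℝ) (i : Fin N) :
    ∀ k ≤ M, ∫⁻ ω, ENNReal.ofReal (exp (p * zeta X J k ω i)) ∂ρ ≤
      ENNReal.ofReal (exp ((p ^ 2 + |p|) * (v * k))) := by
  intro k
  induction k with
  | zero => intro _; simp [zeta]
  | succ k ih =>
    intro hk
    have hF : Measurable fun ζ : Fin N → ℝ => exp (p * ζ i) := by fun_prop
    have h1 := (h.law k hk).lintegral (G.le k) ((h.mX k).mono (G.le _) le_rfl)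
      ((h.mz k).prodMk (h.mJ k)) (meas_stepF hF).ennreal_ofReal
    simp only [zeta_succ]
    rw [h1]
    have hv0 : (0 : ℝ) ≤ v := v.2
    have h2 : ∀ (ζ : Fin N → ℝ) (j : Fin N),
        ∫⁻ x, ENNReal.ofReal (exp (p * (ζ + Pi.single j x : Fin N → ℝ) i)) ∂nu v ≤
          ENNReal.ofReal (exp ((p ^ 2 + |p|) * v)) * ENNReal.ofReal (exp (p * ζ i)) := by
      intro ζ j
      rw [← ENNReal.ofReal_mul (exp_pos _).le]
      by_cases hij : i = j
      · subst hij
        simp only [Pi.add_apply, Pi.single_eq_same, mul_add, Real.exp_add]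
        rw [← ofReal_integral_eq_lintegral_ofReal ((int_exp v p).const_mul _)
          (Eventually.of_forall fun x => by positivity), integral_const_mul, I_exp, mul_comm]
        refine ENNReal.ofReal_le_ofReal (mul_le_mul_of_nonneg_right (Real.exp_le_exp.2 ?_)
          (exp_pos _).le)
        have := neg_abs_le p
        have := abs_nonneg p
        nlinarith [mul_nonneg (sq_nonneg p) hv0]
      · simp only [Pi.add_apply, ne_eq, hij, not_false_eq_true, Pi.single_eq_of_ne, add_zero,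
          lintegral_const, measure_univ, mul_one]
        refine ENNReal.ofReal_le_ofReal (le_mul_of_one_le_left (exp_pos _).le ?_)
        exact Real.one_le_exp (by positivity)
    refine (lintegral_mono fun ω => h2 (zeta X J k ω) (J k ω)).trans ?_
    have hm3 : Measurable fun ω => ENNReal.ofReal (exp (p * zeta X J k ω i)) :=
      (hF.comp (h.mz' k)).ennreal_ofReal
    rw [lintegral_const_mul _ hm3]
    refine (mul_le_mul_right (ih (by omega)) _).trans (le_of_eq ?_)
    rw [← ENNReal.ofReal_mul (exp_pos _).le, ← Real.exp_add]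
    push_cast
    ring_nf

theorem exp_norm_le (ζ : Fin N → ℝ) {p : ℝ} (hp : 0 ≤ p) :
    exp (p * ‖ζ‖) ≤ 1 + ∑ i, (exp (p * ζ i) + exp (-p * ζ i)) := by
  have hpos : ∀ i, 0 ≤ exp (p * ζ i) + exp (-p * ζ i) := fun i => by positivity
  rcases isEmpty_or_nonempty (Fin N) with hN | hN
  · simp [Subsingleton.elim ζ 0]
  obtain ⟨i, -, hi⟩ := exists_max_image univ (fun i => |ζ i|) univ_nonempty
  have h1 : ‖ζ‖ ≤ |ζ i| := (pi_norm_le_iff_of_nonneg (abs_nonneg _)).2 fun l => hi l (mem_univ _)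
  have h2 := single_le_sum (f := fun i => exp (p * ζ i) + exp (-p * ζ i)) (fun i _ => hpos i)
    (mem_univ i)
  have h3 : exp (p * ‖ζ‖) ≤ exp (p * |ζ i|) := Real.exp_le_exp.2 (mul_le_mul_of_nonneg_left h1 hp)
  have h4 : exp (p * |ζ i|) ≤ exp (p * ζ i) + exp (-p * ζ i) := by
    rcases le_total 0 (ζ i) with h | h
    · rw [abs_of_nonneg h]; linarith [exp_pos (-p * ζ i)]
    · rw [abs_of_nonpos h, mul_neg, ← neg_mul]; linarith [exp_pos (p * ζ i)]
  linarith

theorem Gr.bound {F : (Fin N → ℝ) → ℝ} (hF : Gr F) (T : ℝ) : ∃ C : ℝ,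
    ∀ (ρ : Measure Ω) [IsProbabilityMeasure ρ] (G : Filtration ℕ mΩ) (X : ℕ → Ω → ℝ)
      (J : ℕ → Ω → Fin N) (v : ℝ≥0) (M : ℕ), Disc ρ G X J v M → ∀ k ≤ M, (v : ℝ) * k ≤ T →
      ∫⁻ ω, ENNReal.ofReal |F (zeta X J k ω)| ∂ρ ≤ ENNReal.ofReal C := by
  obtain ⟨_, C, p, hC, hp, hb⟩ := hF
  refine ⟨C * (1 + ∑ _i : Fin N, (exp ((p ^ 2 + p) * T) + exp ((p ^ 2 + p) * T))), ?_⟩
  intro ρ _ G X J v M h k hk hT
  have hz := h.mz' k
  calc ∫⁻ ω, ENNReal.ofReal |F (zeta X J k ω)| ∂ρ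
      ≤ ∫⁻ ω, ENNReal.ofReal C * (1 + ∑ i, (ENNReal.ofReal (exp (p * zeta X J k ω i)) +
          ENNReal.ofReal (exp (-p * zeta X J k ω i)))) ∂ρ := by
        refine lintegral_mono fun ω => ?_
        refine (ENNReal.ofReal_le_ofReal ((hb _).trans
          (mul_le_mul_of_nonneg_left (exp_norm_le _ hp) hC))).trans (le_of_eq ?_)
        rw [ENNReal.ofReal_mul hC, ENNReal.ofReal_add zero_le_one (by positivity),
          ENNReal.ofReal_one, ENNReal.ofReal_sum_of_nonneg (fun i _ => by positivity)]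
        simp only [ENNReal.ofReal_add (exp_pos _).le (exp_pos _).le]
    _ = ENNReal.ofReal C * (1 + ∑ i, (∫⁻ ω, ENNReal.ofReal (exp (p * zeta X J k ω i)) ∂ρ +
          ∫⁻ ω, ENNReal.ofReal (exp (-p * zeta X J k ω i)) ∂ρ)) := by
        rw [lintegral_const_mul _ (by fun_prop), lintegral_add_left measurable_const,
          lintegral_finsetSum _ (fun i _ => by fun_prop)]
        simp only [lintegral_const, measure_univ, mul_one]
        congr 2
        exact sum_congr rfl fun i _ => lintegral_add_left (by fun_prop) _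
    _ ≤ _ := by
        rw [ENNReal.ofReal_mul hC, ENNReal.ofReal_add zero_le_one (by positivity),
          ENNReal.ofReal_one, ENNReal.ofReal_sum_of_nonneg (fun i _ => by positivity)]
        refine mul_le_mul_right (add_le_add_right (sum_le_sum fun i _ => ?_) _) _
        rw [ENNReal.ofReal_add (exp_pos _).le (exp_pos _).le]
        have h3 : exp ((p ^ 2 + p) * (v * k)) ≤ exp ((p ^ 2 + p) * T) :=
          Real.exp_le_exp.2 (mul_le_mul_of_nonneg_left hT (by positivity))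
        refine add_le_add ((h.moment p i k hk).trans (ENNReal.ofReal_le_ofReal ?_))
          ((h.moment (-p) i k hk).trans (ENNReal.ofReal_le_ofReal ?_))
        · rwa [abs_of_nonneg hp]
        · rwa [abs_neg, abs_of_nonneg hp, neg_sq]

variable [IsProbabilityMeasure ρ]

theorem Disc.int (h : Disc ρ G X J v M) {F : (Fin N → ℝ) → ℝ} (hF : Gr F) {k : ℕ} (hk : k ≤ M) :
    Integrable (fun ω => F (zeta X J k ω)) ρ := by
  obtain ⟨C, hC⟩ := hF.bound (mΩ := mΩ) (v * k)
  exact integrable_of_lint (hF.1.comp (h.mz' k)).aestronglyMeasurable ENNReal.ofReal_ne_top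
    (hC ρ G X J v M h k hk le_rfl)

theorem meas_err {e : (Fin N → ℝ) → Fin N → ℝ} (he : ∀ j, Gr fun ζ => e ζ j) :
    Measurable fun p : (Fin N → ℝ) × Fin N => e p.1 p.2 :=
  measurable_from_prod_countable_left fun j => (he j).1

theorem Disc.int_err (h : Disc ρ G X J v M) {e : (Fin N → ℝ) → Fin N → ℝ}
    (he : ∀ j, Gr fun ζ => e ζ j) {k : ℕ} (hk : k ≤ M) :
    Integrable (fun ω => e (zeta X J k ω) (J k ω)) ρ := by
  refine (h.int (Gr.sum univ fun j => (he j).abs) hk).mono'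
    ((meas_err he).comp ((h.mz' k).prodMk ((h.mJ k).mono (G.le k) le_rfl))).aestronglyMeasurable
    (Eventually.of_forall fun ω => ?_)
  exact single_le_sum (f := fun j => |e (zeta X J k ω) j|) (fun _ _ => abs_nonneg _) (mem_univ _)

theorem Disc.chain (h : Disc ρ G X J v M) {F : (Fin N → ℝ) → ℝ} (hF : Gr F)
    {e : (Fin N → ℝ) → Fin N → ℝ} (he : ∀ j, Gr fun ζ => e ζ j) (hs : Step v F e)
    {k0 : ℕ} {A : Set Ω} (hA : MeasurableSet[G k0] A) : ∀ k1, k0 ≤ k1 → k1 ≤ M →
    ∫ ω in A, F (zeta X J k1 ω) ∂ρ ≤ ∫ ω in A, F (zeta X J k0 ω) ∂ρ +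
      ∑ k ∈ Ico k0 k1, ∫ ω in A, e (zeta X J k ω) (J k ω) ∂ρ := by
  intro k1 h01
  induction k1, h01 using Nat.le_induction with
  | base => intro _; simp
  | succ k hk ih =>
    intro hM
    rw [sum_Ico_succ_top hk]
    have ih' := ih (by omega)
    suffices hh : ∫ ω in A, F (zeta X J (k + 1) ω) ∂ρ ≤ ∫ ω in A, F (zeta X J k ω) ∂ρ +
        ∫ ω in A, e (zeta X J k ω) (J k ω) ∂ρ by linarith
    have i1 := (h.int hF hM).integrableOn (s := A)
    simp only [zeta_succ] at i1 ⊢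
    obtain ⟨h1, h2⟩ := ((h.law k hM).restrict (G.le k) (G.mono hk _ hA)).integral (G.le k)
      ((h.mX k).mono (G.le _) le_rfl) ((h.mz k).prodMk (h.mJ k)) (meas_stepF hF.1) i1
    rw [h2, ← integral_add ((h.int hF (by omega)).integrableOn)
      ((h.int_err he (by omega)).integrableOn)]
    exact integral_mono h1 (((h.int hF (by omega)).integrableOn).add
      ((h.int_err he (by omega)).integrableOn)) fun ω => hs _ _

end Disc

end Pool.Agent.MP_96872c_an
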