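import Pool.Agent.MP_96872c_an.Disc

open Finset Real MeasureTheory ProbabilityTheory Filter Topology
open scoped NNReal ENNReal

namespace Pool.Agent.MP_96872c_an

variable {N : ℕ} {Ω : Type} {mΩ : MeasurableSpace Ω} {ρ : Measure Ω} [IsProbabilityMeasure ρ]
  {G : Filtration ℕ mΩ} {X : ℕ → Ω → ℝ} {J : ℕ → Ω → Fin N} {v : ℝ≥0} {M : ℕ}

theorem Disc.mart (h : Disc ρ G X J v M) {F : (Fin N → ℝ) → ℝ} (hF : Gr F)
    (hs : ∀ ζ j, ∫ x, F (ζ + Pi.single j x) ∂nu v = F ζ) {k0 k1 : ℕ} {A : Set Ω}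
    (hA : MeasurableSet[G k0] A) (h01 : k0 ≤ k1) (h1 : k1 ≤ M) :
    ∫ ω in A, F (zeta X J k1 ω) ∂ρ = ∫ ω in A, F (zeta X J k0 ω) ∂ρ := by
  have e1 := h.chain hF (e := fun _ _ => 0) (fun _ => Gr.const 0)
    (fun ζ j => by rw [hs, add_zero]) hA k1 h01 h1
  have e2 := h.chain hF.neg (e := fun _ _ => 0) (fun _ => Gr.const 0)
    (fun ζ j => by rw [integral_neg, hs, add_zero]) hA k1 h01 h1
  simp only [integral_zero, sum_const_zero, add_zero, integral_neg] at e1 e2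
  linarith

theorem I_expc (v : ℝ≥0) (i : Fin N) (ζ : Fin N → ℝ) (j : Fin N) :
    ∫ x, exp ((ζ + Pi.single j x : Fin N → ℝ) i) ∂nu v = exp (ζ i) := by
  by_cases h : i = j
  · subst h
    simp only [Pi.add_apply, Pi.single_eq_same, Real.exp_add]
    rw [integral_const_mul, I_exp1, mul_one]
  · simp [h]

theorem Disc.SS_eq (h : Disc ρ G X J v M) {k : ℕ} (hk : k ≤ M) :
    ∫ ω, SS (zeta X J k ω) ∂ρ = N := by
  have := h.mart gr_SS (I_SS v) (@MeasurableSet.univ _ (G 0)) (Nat.zero_le k) hk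
  simpa [zeta, SS] using this

theorem Disc.sum_SS (h : Disc ρ G X J v M) {k0 k1 : ℕ} {A : Set Ω}
    (hA : MeasurableSet[G k0] A) (h01 : k0 ≤ k1) (h1 : k1 ≤ M) :
    ∑ k ∈ Ico k0 k1, ∫ ω in A, (v : ℝ) / 2 * SS (zeta X J k ω) ∂ρ =
      v * ((k1 : ℝ) - k0) / 2 * ∫ ω in A, SS (zeta X J k0 ω) ∂ρ := by
  rw [sum_congr rfl fun k hk => by
    rw [integral_const_mul, h.mart gr_SS (I_SS v) hA (mem_Ico.1 hk).1 ((mem_Ico.1 hk).2.le.trans h1)],
    sum_const, Nat.card_Ico, nsmul_eq_mul, Nat.cast_sub h01]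
  ring

theorem Disc.D1 (hN : 2 ≤ N) (h : Disc ρ G X J v M) {k0 k1 : ℕ} {A : Set Ω}
    (hA : MeasurableSet[G k0] A) (h01 : k0 ≤ k1) (h1 : k1 ≤ M) :
    ∫ ω in A, Gam (zeta X J k1 ω) ∂ρ ≤ ∫ ω in A, Gam (zeta X J k0 ω) ∂ρ +
      v * ((k1 : ℝ) - k0) / 2 * ∫ ω in A, SS (zeta X J k0 ω) ∂ρ := by
  rw [← h.sum_SS hA h01 h1]
  exact h.chain gr_Gam (fun _ => gr_SS.cmul _) (step_Gam hN v) hA k1 h01 h1

/-- accumulated excess -/
noncomputable def RR (ρ : Measure Ω) (X : ℕ → Ω → ℝ) (J : ℕ → Ω → Fin N) (v : ℝ≥0) (M : ℕ) : ℝ :=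
  v * ∑ k ∈ range M, ∫ ω, Yy (zeta X J k ω) (J k ω) ∂ρ

theorem Disc.sum_le (h : Disc ρ G X J v M) {e : (Fin N → ℝ) → Fin N → ℝ}
    (he : ∀ j, Gr fun ζ => e ζ j) (h0 : ∀ ζ j, 0 ≤ e ζ j) (A : Set Ω) (k0 : ℕ) {k1 : ℕ}
    (h1 : k1 ≤ M) : ∑ k ∈ Ico k0 k1, ∫ ω in A, e (zeta X J k ω) (J k ω) ∂ρ ≤
      ∑ k ∈ range M, ∫ ω, e (zeta X J k ω) (J k ω) ∂ρ := by
  refine (sum_le_sum fun k hk => setIntegral_le_integral
    (h.int_err he ((mem_Ico.1 hk).2.le.trans h1)) (Eventually.of_forall fun ω => h0 _ _)).trans ?_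
  refine sum_le_sum_of_subset_of_nonneg (fun k hk => mem_range.2 ((mem_Ico.1 hk).2.trans_le h1))
    fun k _ _ => integral_nonneg fun ω => h0 _ _

theorem gr_err1 (v η : ℝ) (j : Fin N) : Gr fun ζ => err1 v η ζ j :=
  ((gr_Yy j).cmul _).add (gr_SS.cmul _)

theorem gr_err2 (v η : ℝ) (j : Fin N) : Gr fun ζ => err2 v η ζ j :=
  ((((Gr.expc j).pow 2).mul (gr_Yy j)).cmul _).add ((gr_SS.pow 3).cmul _)

theorem Disc.D2 (hN : 2 ≤ N) (h : Disc ρ G X J v M) (hv0 : 0 < v) (hv : (v : ℝ) ≤ 1 / 6)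
    {k0 k1 : ℕ} {A : Set Ω} (hA : MeasurableSet[G k0] A) (h01 : k0 ≤ k1) (h1 : k1 ≤ M) :
    ∫ ω in A, Gam (zeta X J k0 ω) ∂ρ + v * ((k1 : ℝ) - k0) / 2 * ∫ ω in A, SS (zeta X J k0 ω) ∂ρ
      ≤ ∫ ω in A, Gam (zeta X J k1 ω) ∂ρ +
        N ^ 2 * (2 * RR ρ X J v M + v * M * (11 * √v) * N) := by
  have hη : 0 < √(v : ℝ) := Real.sqrt_pos.2 hv0
  have e1 := h.chain gr_Gam.neg (fun j => (gr_SS.cmul _).neg.add ((gr_err1 _ _ j).cmul _))
    (step_negGam hN v hv hη) hA k1 h01 h1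
  rw [sum_congr rfl fun k hk => integral_add
    (h.int (gr_SS.cmul _).neg ((mem_Ico.1 hk).2.le.trans h1)).integrableOn
    (h.int_err (fun j => (gr_err1 _ _ j).cmul _) ((mem_Ico.1 hk).2.le.trans h1)).integrableOn] at e1
  simp only [integral_neg, sum_add_distrib, sum_neg_distrib] at e1
  rw [h.sum_SS hA h01 h1] at e1
  have e2 := h.sum_le (fun j => (gr_err1 v (√v) j).cmul ((N : ℝ) ^ 2))
    (fun ζ j => mul_nonneg (sq_nonneg _) (err1_nonneg v.2 hη ζ j)) A k0 h1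
  have e3 : ∑ k ∈ range M, ∫ ω, (N : ℝ) ^ 2 * err1 v (√v) (zeta X J k ω) (J k ω) ∂ρ =
      N ^ 2 * (2 * RR ρ X J v M + v * M * (11 * √v) * N) := by
    rw [sum_congr rfl fun k hk => by
      rw [integral_const_mul, integral_congr_ae (Eventually.of_forall fun ω => by rw [err1]),
        integral_add (h.int_err (fun j => (gr_Yy j).cmul _) (mem_range.1 hk).le)
          (h.int (gr_SS.cmul _) (mem_range.1 hk).le), integral_const_mul, integral_const_mul,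
        h.SS_eq (mem_range.1 hk).le]]
    simp only [← mul_sum, sum_add_distrib, sum_const, card_range, nsmul_eq_mul, RR, mul_div_assoc,
      Real.div_sqrt]
    ring
  linarith

theorem err2_aux (ζ : Fin N → ℝ) (j : Fin N) {K : ℝ} (hK : 0 < K) :
    exp (ζ j) ^ 2 * Yy ζ j ≤ K ^ 2 * Yy ζ j + SS ζ ^ 4 / K := by
  have h1 := Yy_nonneg ζ j
  have h2 := Yy_le ζ j
  have h3 := exp_le_SS ζ j
  have h4 := exp_pos (ζ j)
  rcases le_total (exp (ζ j)) K with h | h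
  · have : exp (ζ j) ^ 2 ≤ K ^ 2 := pow_le_pow_left₀ h4.le h 2
    have : 0 ≤ SS ζ ^ 4 / K := by positivity
    nlinarith
  · have h5 : exp (ζ j) ^ 2 * Yy ζ j ≤ SS ζ ^ 2 * SS ζ :=
      mul_le_mul (pow_le_pow_left₀ h4.le h3 2) h2 h1 (sq_nonneg _)
    have h6 : SS ζ ^ 2 * SS ζ ≤ SS ζ ^ 4 / K := by
      rw [le_div_iff₀ hK]
      have : 0 ≤ SS ζ ^ 2 * SS ζ := mul_nonneg (sq_nonneg _) (h4.le.trans h3)
      nlinarith [mul_le_mul_of_nonneg_left (h.trans h3) this]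
    have : 0 ≤ K ^ 2 * Yy ζ j := by positivity
    linarith

theorem Disc.D3 (h : Disc ρ G X J v M) (hv0 : 0 < v) (hv : (v : ℝ) ≤ 1 / 6) {a b c : Fin N}
    (hab : a ≠ b) (hac : a ≠ c) (hbc : b ≠ c) {C3 C4 K : ℝ} (hK : 0 < K)
    (h3 : ∀ k ≤ M, ∫ ω, SS (zeta X J k ω) ^ 3 ∂ρ ≤ C3)
    (h4 : ∀ k ≤ M, ∫ ω, SS (zeta X J k ω) ^ 4 ∂ρ ≤ C4) {k1 : ℕ} (h1 : k1 ≤ M) :
    ∫ ω, lam (exp (zeta X J k1 ω a)) (exp (zeta X J k1 ω b)) (exp (zeta X J k1 ω c)) ∂ρ ≤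
      24 * (K ^ 2 * RR ρ X J v M + v * M * C4 / K) + 12 * (v * M) * (44 * √v) * C3 := by
  have hη : 0 < √(v : ℝ) := Real.sqrt_pos.2 hv0
  have e1 := h.chain (gr_lam a b c) (gr_err2 _ _) (step_lam v hv hη hab hac hbc)
    (@MeasurableSet.univ _ (G 0)) k1 (Nat.zero_le _) h1
  have e2 := h.sum_le (gr_err2 v (√v)) (err2_nonneg v.2 hη) Set.univ 0 h1
  have e0 : ∀ ω, lam (exp (zeta X J 0 ω a)) (exp (zeta X J 0 ω b)) (exp (zeta X J 0 ω c)) = 0 :=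
    fun ω => by simp [zeta, lam]; norm_num
  simp only [e0, integral_zero, zero_add] at e1
  rw [Measure.restrict_univ] at e1 e2
  refine e1.trans (e2.trans ?_)
  have e3 : ∀ k ∈ range M, ∫ ω, err2 v (√v) (zeta X J k ω) (J k ω) ∂ρ ≤
      24 * v * (K ^ 2 * ∫ ω, Yy (zeta X J k ω) (J k ω) ∂ρ + C4 / K) + 12 * v * (44 * √v) * C3 := by
    intro k hk
    have hk' := (mem_range.1 hk).le
    have i1 := h.int_err (fun j => ((Gr.expc j).pow 2).mul (gr_Yy j)) hk'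
    have i2 := h.int_err (fun j => (gr_Yy j).cmul (K ^ 2)) hk'
    have i3 := (h.int (gr_SS.pow 4) hk').div_const K
    have a1 := integral_mono i1 (i2.add i3) fun ω => err2_aux _ _ hK
    simp only [Pi.add_apply] at a1
    rw [integral_add i2 i3, integral_const_mul, integral_div] at a1
    have a2 := div_le_div_of_nonneg_right (h4 k hk') hK.le
    unfold err2
    rw [integral_add (i1.const_mul _) ((h.int (gr_SS.pow 3) hk').const_mul _), integral_const_mul,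
      integral_const_mul, mul_div_assoc, Real.div_sqrt]
    have hv0' : (0 : ℝ) ≤ v := v.2
    refine add_le_add (mul_le_mul_of_nonneg_left (by linarith) (by positivity)) ?_
    have : 2 * √(v : ℝ) + 42 * √v = 44 * √v := by ring
    rw [this]
    exact mul_le_mul_of_nonneg_left (h3 k hk') (by positivity)
  refine (sum_le_sum e3).trans (le_of_eq ?_)
  simp only [← mul_sum, sum_add_distrib, sum_const, card_range, nsmul_eq_mul, RR]
  ring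

end Pool.Agent.MP_96872c_an
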