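import Pool.Agent.MP_96872c_an.Girsanov
import Pool.Agent.MP_96872c_an.Defs

open Finset Real MeasureTheory ProbabilityTheory Filter Topology
open scoped NNReal ENNReal

namespace Pool.Agent.MP_96872c_an

variable {N : ℕ} {μ : ℝ} {Ω : Type} [mΩ : MeasurableSpace Ω] {P : Measure Ω}

theorem Search.hY (S : Search N μ P) (t : ℝ≥0) : Measurable[S.G t] (S.Y t) := S.Y_adapted t

theorem Search.box_set (S : Search N μ P) (j : Fin N) (t : ℝ≥0) :
    MeasurableSet[S.F t] {ω | S.box ω = j} :=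
  S.F.mono zero_le _ (S.box_meas (measurableSet_singleton j))

theorem Search.box_set' (S : Search N μ P) (j : Fin N) : MeasurableSet {ω | S.box ω = j} :=
  S.F.le 0 _ (S.box_set j 0)

/-- the law given that the object is in box `j` -/
noncomputable def Search.rho (S : Search N μ P) (j : Fin N) : Measure Ω :=
  (N : ℝ≥0∞) • P.restrict {ω | S.box ω = j}

theorem Search.rho_apply (S : Search N μ P) (j : Fin N) (A : Set Ω) :
    S.rho j A = N * P (A ∩ {ω | S.box ω = j}) := by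
  rw [Search.rho, Measure.smul_apply, Measure.restrict_apply' (S.box_set' j), smul_eq_mul]

instance (S : Search N μ P) (j : Fin N) : IsProbabilityMeasure (S.rho j) :=
  ⟨by
    rw [S.rho_apply, Set.univ_inter, S.uniform, ENNReal.mul_inv_cancel _ (by simp)]
    exact_mod_cast j.pos.ne'⟩

theorem Search.rho_ae (S : Search N μ P) (j : Fin N) {p : Ω → Prop} (h : ∀ᵐ ω ∂P, p ω) :
    ∀ᵐ ω ∂S.rho j, p ω := Measure.ae_smul_measure (ae_restrict_of_ae h) _

theorem Search.BW (S : Search N μ P) (j : Fin N) :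
    ∀ᵐ ω ∂P, S.box ω = j → ∀ t, S.Y t ω - μ * DD S.J j t ω = S.W t ω := by
  filter_upwards [S.signal] with ω hω hj t
  rw [hω t, hj]
  simp [DD, HH]

theorem Search.bm (S : Search N μ P) (j : Fin N) (T : ℝ≥0) :
    BMon (S.rho j) S.G (fun t ω => S.Y t ω - μ * DD S.J j t ω) T := by
  have hm : ∀ t, Measurable[S.G t] fun ω => S.Y t ω - μ * DD S.J j t ω := fun t =>
    (S.hY t).sub ((meas_DD S.J_prog j t).const_mul μ)
  refine ⟨hm, fun s t hst _ A hA => Measure.ext fun U hU => ?_⟩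
  have hX : Measurable fun ω => (S.Y t ω - μ * DD S.J j t ω) - (S.Y s ω - μ * DD S.J j s ω) :=
    ((hm t).mono (S.G.le _) le_rfl).sub ((hm s).mono (S.G.le _) le_rfl)
  rw [Measure.map_apply hX hU, Measure.restrict_apply (hX hU), S.rho_apply, Measure.smul_apply,
    S.rho_apply, smul_eq_mul, mul_assoc]
  congr 1
  have h1 := (Indep_iff _ _ _).1 (S.W_indep s t hst) ((fun ω => S.W t ω - S.W s ω) ⁻¹' U)
    (A ∩ {ω | S.box ω = j}) ⟨U, hU, rfl⟩ ((S.G_le s _ hA).inter (S.box_set j s))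
  have h2 := (S.brownian.toIsPreBrownianReal.hasLaw_sub t s).measure_eq (p := fun x => x ∈ U) hU
  have h3 : nndist t.1 s.1 = t - s := by
    rw [← NNReal.coe_inj, coe_nndist, Real.dist_eq, NNReal.coe_sub hst]
    exact abs_of_nonneg (sub_nonneg.2 (NNReal.coe_le_coe.2 hst))
  rw [h3] at h2
  have h4 : P ((fun ω => S.W t ω - S.W s ω) ⁻¹' U) = gaussianReal 0 (t - s) U := h2
  rw [h4, mul_comm] at h1
  rw [← h1]
  refine measure_congr ?_
  filter_upwards [S.BW j] with ω hω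
  change ((_ ∈ U ∧ ω ∈ A) ∧ S.box ω = j) = (S.W t ω - S.W s ω ∈ U ∧ ω ∈ A ∧ S.box ω = j)
  by_cases hj : S.box ω = j
  · simp only [hω hj, hj, and_true]
  · simp only [hj, and_false]

theorem Search.one (S : Search N μ P) {m : ℕ} {n : ℕ → ℕ} {c : ℕ → ℕ → Ω → Fin N}
    (h : Apx P S.G S.J m n c) (j : Fin N) : One (S.rho j) S.G S.Y S.J μ j m n c where
  hJ := S.J_prog
  hY := S.hY
  bm := S.bm j m
  mono := h.mono
  meas := h.meas
  conv ω := ee_tendsto S.J_prog _ (h.conv ω)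
  fast r := by
    rw [Search.rho, lintegral_smul_measure, ENNReal.ofReal_mul (Nat.cast_nonneg N),
      ENNReal.ofReal_natCast, smul_eq_mul]
    exact mul_le_mul_right ((setLIntegral_le_lintegral _ _).trans (h.fast r)) _

theorem Search.Y0 (S : Search N μ P) : ∀ᵐ ω ∂P, S.Y 0 ω = 0 := by
  filter_upwards [S.signal, S.brownian.toIsPreBrownianReal.eval_zero_ae_eq_zero] with ω h1 h2
  rw [h1, h2]; simp

/-- the reference measure under which the signal is a Brownian motion -/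
structure Filt (S : Search N μ P) (m : ℕ) (n : ℕ → ℕ) (c : ℕ → ℕ → Ω → Fin N) (Q : Measure Ω) :
    Prop where
  apx : Apx P S.G S.J m n c
  bm : BMon Q S.G S.Y m
  lim : ∀ j (a : ℝ≥0), a ≤ m → ∀ᵐ ω ∂Q,
    Tendsto (fun r => zr μ S.Y m (n r) (c r) j a ω) atTop (𝓝 (zl μ S.Y m n c j a ω))
  dens : ∀ j (a : ℝ≥0), a ≤ m → ∀ A, MeasurableSet[S.G a] A →
    S.rho j A = ∫⁻ ω in A, ENNReal.ofReal (exp (zl μ S.Y m n c j a ω)) ∂Q

omit mΩ in
theorem dens_lintegral {m mΩ : MeasurableSpace Ω} {ρ Q : Measure Ω} {L g : Ω → ℝ≥0∞} (hle : m ≤ mΩ)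
    (hL : Measurable L) (h : ∀ A, MeasurableSet[m] A → ρ A = ∫⁻ ω in A, L ω ∂Q)
    (hg : Measurable[m] g) {A : Set Ω} (hA : MeasurableSet[m] A) :
    ∫⁻ ω in A, g ω ∂ρ = ∫⁻ ω in A, L ω * g ω ∂Q := by
  have e : ρ.trim hle = (Q.withDensity L).trim hle := @Measure.ext _ m _ _ fun B hB => by
    rw [trim_measurableSet_eq _ hB, trim_measurableSet_eq _ hB, h B hB,
      withDensity_apply _ (hle _ hB)]
  rw [← setLIntegral_trim hle hg hA, e, setLIntegral_trim hle hg hA,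
    restrict_withDensity (hle _ hA), lintegral_withDensity_eq_lintegral_mul _ hL (hg.mono hle le_rfl)]
  rfl

theorem Search.filt_nat [IsProbabilityMeasure P] (S : Search N μ P) (j0 : Fin N) {m : ℕ}
    {n : ℕ → ℕ} {c : ℕ → ℕ → Ω → Fin N} (h : Apx P S.G S.J m n c)
    (hG : S.G = Filtration.natural S.Y S.Y_meas) (j : Fin N) {a : ℝ≥0} (ha : a ≤ m) {A : Set Ω}
    (hA : MeasurableSet[S.G a] A) : S.rho j A =
      ∫⁻ ω in A, ENNReal.ofReal (exp (zl μ S.Y m n c j a ω)) ∂QQ (S.rho j0) μ S.Y m n c j0 := by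
  have hp := fun j => (S.one h j).prob
  have hac : ∀ j, QQ (S.rho j) μ S.Y m n c j ≪ S.rho j := fun j =>
    withDensity_absolutelyContinuous _ _
  have hag : ∀ A, MeasurableSet[S.G m] A →
      QQ (S.rho j) μ S.Y m n c j A = QQ (S.rho j0) μ S.Y m n c j0 A := by
    have h1 := (S.one h j).bmQ
    have h2 := (S.one h j0).bmQ
    rw [hG] at h1 h2 ⊢
    exact agree_natural h1 h2 ((hac j).ae_le (S.rho_ae j S.Y0)) ((hac j0).ae_le (S.rho_ae j0 S.Y0))
  have hz := (zl_meas h.meas μ S.hY m j a).exp.ennreal_ofReal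
  have e : (QQ (S.rho j) μ S.Y m n c j).trim (S.G.le a) =
      (QQ (S.rho j0) μ S.Y m n c j0).trim (S.G.le a) :=
    @Measure.ext _ (S.G a) _ _ fun B hB => by
      rw [trim_measurableSet_eq _ hB, trim_measurableSet_eq _ hB, hag B (S.G.mono ha _ hB)]
  rw [(S.one h j).dens ha hA, ← setLIntegral_trim (S.G.le a) hz hA,
    ← setLIntegral_trim (S.G.le a) hz hA, e]

theorem Search.lim_P (S : Search N μ P) {m : ℕ} {n : ℕ → ℕ} {c : ℕ → ℕ → Ω → Fin N}
    (h : Apx P S.G S.J m n c) (i : Fin N) {a : ℝ≥0} (ha : a ≤ m) : ∀ᵐ ω ∂P,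
    Tendsto (fun r => zr μ S.Y m (n r) (c r) i a ω) atTop (𝓝 (zl μ S.Y m n c i a ω)) := by
  have h1 := fun j => (ae_restrict_iff' (S.box_set' j)).1 ((Measure.ae_ennreal_smul_measure_iff
    (by exact_mod_cast i.pos.ne')).1 ((S.one h j).lim i ha))
  filter_upwards [ae_all_iff.2 h1] with ω hω
  exact hω _ rfl

theorem Search.zl_eq (S : Search N μ P) {m : ℕ} {n : ℕ → ℕ} {c : ℕ → ℕ → Ω → Fin N}
    (h : Apx P S.G S.J m n c) (i : Fin N) {a : ℝ≥0} (ha : a ≤ m) {I : Ω → ℝ}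
    (hI : IsIto P S.G S.Y (fun s ω => if S.J s ω = i then 1 else 0) a I) :
    ∀ᵐ ω ∂P, zl μ S.Y m n c i a ω = μ * I ω - μ ^ 2 / 2 * DD S.J i a ω := by
  have h1 := hI n (fun r => ph (c r) i) (fun r k => ph_meas (h.meas r k) i)
    (fun r k ω => ph_abs _ _ _ _) (by
      have h2 := ENNReal.tendsto_ofReal (tendsto_pow_atTop_nhds_zero_of_lt_one
        (by norm_num : (0 : ℝ) ≤ 1 / 4) (by norm_num))
      rw [ENNReal.ofReal_zero] at h2
      refine tendsto_of_tendsto_of_tendsto_of_le_of_le tendsto_const_nhds h2 (fun _ => zero_le)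
        fun r => (lintegral_mono fun ω => ENNReal.ofReal_le_ofReal ((le_abs_self _).trans
          (abs_int_le_ee S.J_prog _ _ zero_le ha ω fun s => ?_))).trans (h.fast r)
      simp only [ph]
      split_ifs <;> simp_all)
  obtain ⟨ns, h2, h3⟩ := h1.exists_seq_tendsto_ae
  filter_upwards [h3, S.lim_P h i ha] with ω h3 h4
  have h5 := ((S.one h i).tm_lim i zero_le ha ω).comp h2.tendsto_atTop
  have e0 : DD S.J i 0 ω = 0 := by simp [DD]
  rw [e0, sub_zero] at h5
  refine tendsto_nhds_unique (h4.comp h2.tendsto_atTop)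
    (((h3.const_mul μ).sub (h5.const_mul (μ ^ 2 / 2))).congr fun r => ?_)
  simp only [Function.comp, zr]
  congr 2
  have hle : ⌈a⌉₊ ≤ m := Nat.ceil_le.2 ha
  have e1 : ∀ k, pc (n (ns r)) 0 a k = min ((k : ℝ≥0) / 2 ^ n (ns r)) a := fun k => by
    simp [pc, grid]
  simp only [II, SI, e1]
  refine sum_subset (range_subset_range.2 (Nat.mul_le_mul_right _ hle)) fun k _ hk => ?_
  have h6 : ∀ k', ⌈a⌉₊ * 2 ^ n (ns r) ≤ k' → min ((k' : ℝ≥0) / 2 ^ n (ns r)) a = a := fun k' hk' =>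
    min_eq_right ((Nat.le_ceil a).trans (by
      rw [← grid_nat (n (ns r))]; exact grid_mono _ hk'))
  rw [mem_range, not_lt] at hk
  rw [h6 _ hk, h6 _ (hk.trans (Nat.le_succ k)), sub_self, mul_zero]

theorem Search.filt_weak [IsProbabilityMeasure P] (S : Search N μ P) (j0 : Fin N) {m : ℕ}
    {n : ℕ → ℕ} {c : ℕ → ℕ → Ω → Fin N} (h : Apx P S.G S.J m n c) {I : Fin N → ℝ≥0 → Ω → ℝ}
    (hI : ∀ j t, IsIto P S.G S.Y (fun s ω => if S.J s ω = j then 1 else 0) t (I j t))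
    (hp : ∀ i t, S.post i t =ᵐ[P] fun ω => lik μ S.J I i t ω / ∑ j, lik μ S.J I j t ω)
    (j : Fin N) {a : ℝ≥0} (ha : a ≤ m) {A : Set Ω} (hA : MeasurableSet[S.G a] A) : S.rho j A =
      ∫⁻ ω in A, ENNReal.ofReal (exp (zl μ S.Y m n c j a ω)) ∂QQ (S.rho j0) μ S.Y m n c j0 := by
  have hz := fun i => zl_meas h.meas μ S.hY m i a
  have hz' : ∀ i, Measurable (zl μ S.Y m n c i a) := fun i => (hz i).mono (S.G.le a) le_rfl
  have hS : ∀ ω, 0 < ∑ l, exp (zl μ S.Y m n c l a ω) := fun ω =>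
    sum_pos (fun _ _ => exp_pos _) ⟨j, mem_univ _⟩
  have key : ∀ i A, MeasurableSet[S.G a] A → S.rho i A = ∫⁻ ω in A, ENNReal.ofReal
      (N * (exp (zl μ S.Y m n c i a ω) / ∑ l, exp (zl μ S.Y m n c l a ω))) ∂P := by
    intro i A hA
    have h1 : (fun ω => exp (zl μ S.Y m n c i a ω) / ∑ l, exp (zl μ S.Y m n c l a ω)) =ᵐ[P]
        P[Set.indicator {ω | S.box ω = i} (fun _ => (1 : ℝ)) | S.G a] := by
      filter_upwards [S.post_eq i a, hp i a, ae_all_iff.2 fun l => S.zl_eq h l ha (hI l a)]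
        with ω h1 h2 h3
      rw [← h1, h2]
      simp only [h3]
      rfl
    have h2 := setIntegral_condExp (S.G.le a)
      ((integrable_const (1 : ℝ)).indicator (S.box_set' i)) hA (μ := P)
    rw [← integral_congr_ae (ae_restrict_of_ae h1), integral_indicator (S.box_set' i),
      Measure.restrict_restrict (S.box_set' i), Set.inter_comm] at h2
    rw [← ofReal_integral_eq_lintegral_ofReal
      (((integrable_condExp.congr h1.symm).const_mul _).integrableOn)
      (Eventually.of_forall fun ω => mul_nonneg (Nat.cast_nonneg N)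
        (div_nonneg (exp_pos _).le (hS ω).le)), integral_const_mul, h2, S.rho_apply,
      ENNReal.ofReal_mul (Nat.cast_nonneg N), ENNReal.ofReal_natCast]
    simp [Measure.real]
  have hg : Measurable[S.G a] fun ω =>
      ENNReal.ofReal (exp (zl μ S.Y m n c j a ω - zl μ S.Y m n c j0 a ω)) :=
    ((hz j).sub (hz j0)).exp.ennreal_ofReal
  have e1 := dens_lintegral (S.G.le a) (by fun_prop) (key j0) hg hA
  have e2 := dens_lintegral (S.G.le a) (by fun_prop) (fun A hA => (S.one h j0).dens ha hA) hg hA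
  rw [key j A hA]
  refine Eq.trans (lintegral_congr fun ω => ?_) (e1.symm.trans (e2.trans
    (lintegral_congr fun ω => ?_)))
  · rw [← ENNReal.ofReal_mul (mul_nonneg (Nat.cast_nonneg N) (div_nonneg (exp_pos _).le (hS ω).le)),
      Real.exp_sub]
    congr 1
    field_simp
  · rw [← ENNReal.ofReal_mul (exp_pos _).le, ← Real.exp_add, add_sub_cancel]

theorem Search.exists_filt [IsProbabilityMeasure P] (S : Search N μ P) (j0 : Fin N) (m : ℕ) :
    ∃ n c Q, IsProbabilityMeasure Q ∧ Filt S m n c Q := by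
  obtain ⟨n, c, h⟩ := exists_apx P S.J_prog j0 m
  refine ⟨n, c, QQ (S.rho j0) μ S.Y m n c j0, (S.one h j0).prob, h, (S.one h j0).bmQ,
    fun j a ha => (withDensity_absolutelyContinuous _ _).ae_le ((S.one h j0).lim j ha),
    fun j a ha A hA => ?_⟩
  rcases S.info with hG | ⟨I, hI, hp⟩
  · exact S.filt_nat j0 h hG j ha hA
  · exact S.filt_weak j0 h hI hp j ha hA

end Pool.Agent.MP_96872c_an
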