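import Pool.Agent.MP_96872c_an.Real2

open Finset Real MeasureTheory ProbabilityTheory
open scoped NNReal

namespace Pool.Agent.MP_96872c_an

variable {N : ℕ}

/-- law of one logarithmic step -/
noncomputable def nu (v : ℝ≥0) : Measure ℝ := gaussianReal (-(v : ℝ) / 2) v

instance (v : ℝ≥0) : IsProbabilityMeasure (nu v) := by unfold nu; infer_instance

theorem int_exp (v : ℝ≥0) (p : ℝ) : Integrable (fun x => exp (p * x)) (nu v) :=
  integrable_exp_mul_gaussianReal p

theorem I_exp (v : ℝ≥0) (p : ℝ) : ∫ x, exp (p * x) ∂nu v = exp (p * (p - 1) * v / 2) := by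
  have h := congrFun (mgf_id_gaussianReal (μ := -(v : ℝ) / 2) (v := v)) p
  simp only [mgf, id] at h
  unfold nu
  rw [h]; congr 1; ring

theorem int_exp1 (v : ℝ≥0) : Integrable (fun x => exp x) (nu v) := by
  simpa using int_exp v 1

theorem I_exp1 (v : ℝ≥0) : ∫ x, exp x ∂nu v = 1 := by
  simpa using I_exp v 1

theorem int_expabs (v : ℝ≥0) (p : ℝ) : Integrable (fun x => exp (p * |x|)) (nu v) := by
  refine ((int_exp v p).add (int_exp v (-p))).mono' (by fun_prop)
    (Filter.Eventually.of_forall fun x => ?_)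
  rw [Real.norm_eq_abs, abs_of_pos (exp_pos _)]
  simp only [Pi.add_apply]
  rcases le_total 0 x with h | h
  · rw [abs_of_nonneg h]; linarith [exp_pos (-p * x)]
  · rw [abs_of_nonpos h, mul_neg, ← neg_mul]; linarith [exp_pos (p * x)]

theorem int_id (v : ℝ≥0) : Integrable (fun x : ℝ => x) (nu v) := by
  refine (int_expabs v 1).mono' (by fun_prop) (Filter.Eventually.of_forall fun x => ?_)
  have := Real.add_one_le_exp |x|
  rw [Real.norm_eq_abs, one_mul]; linarith

theorem I_id (v : ℝ≥0) : ∫ x, x ∂nu v = -(v : ℝ) / 2 := integral_id_gaussianReal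

theorem int_xexp (v : ℝ≥0) : Integrable (fun x : ℝ => x * exp x) (nu v) := by
  refine (int_expabs v 2).mono' (by fun_prop) (Filter.Eventually.of_forall fun x => ?_)
  have h1 := Real.add_one_le_exp |x|
  have h2 : exp x ≤ exp |x| := Real.exp_le_exp.2 (le_abs_self x)
  rw [Real.norm_eq_abs, abs_mul, abs_of_pos (exp_pos x), two_mul, Real.exp_add]
  exact mul_le_mul (by linarith) h2 (exp_pos x).le (exp_pos _).le

theorem I_xexp (v : ℝ≥0) : ∫ x, x * exp x ∂nu v = (v : ℝ) / 2 := by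
  have h := hasDerivAt_mgf (X := id) (μ := nu v) (t := 1) (by simp [nu])
  have h2 : mgf id (nu v) = fun t => exp (-(v : ℝ) / 2 * t + v * t ^ 2 / 2) := mgf_id_gaussianReal
  rw [h2] at h
  have h3 : HasDerivAt (fun t : ℝ => -(v : ℝ) / 2 * t + v * t ^ 2 / 2)
      (-(v : ℝ) / 2 * 1 + v * (2 * 1) / 2) 1 := by
    have := ((hasDerivAt_id (1 : ℝ)).const_mul (-(v : ℝ) / 2)).add
      (((hasDerivAt_pow 2 (1 : ℝ)).const_mul (v : ℝ)).div_const 2)
    refine this.congr_deriv ?_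
    simp
  have h4 := h.unique h3.exp
  simp only [id, one_mul] at h4
  rw [h4]
  have : -(v : ℝ) / 2 * 1 + v * 1 ^ 2 / 2 = 0 := by ring
  rw [this]; simp; ring

/-- functions of exponential growth -/
def Gr (F : (Fin N → ℝ) → ℝ) : Prop :=
  Measurable F ∧ ∃ C p : ℝ, 0 ≤ C ∧ 0 ≤ p ∧ ∀ ζ, |F ζ| ≤ C * exp (p * ‖ζ‖)

namespace Gr

variable {F G : (Fin N → ℝ) → ℝ}

theorem const (c : ℝ) : Gr fun _ : Fin N → ℝ => c :=
  ⟨measurable_const, |c|, 0, abs_nonneg _, le_rfl, fun _ => by simp⟩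

theorem of_le (hG : Gr G) (hm : Measurable F) (h : ∀ ζ, |F ζ| ≤ |G ζ|) : Gr F := by
  obtain ⟨_, C, p, hC, hp, hb⟩ := hG
  exact ⟨hm, C, p, hC, hp, fun ζ => (h ζ).trans (hb ζ)⟩

theorem coord (i : Fin N) : Gr fun ζ : Fin N → ℝ => ζ i :=
  ⟨measurable_pi_apply i, 1, 1, zero_le_one, zero_le_one, fun ζ => by
    have h1 := norm_le_pi_norm ζ i
    have h2 := Real.add_one_le_exp ‖ζ‖
    rw [Real.norm_eq_abs] at h1
    simp only [one_mul]; linarith⟩

theorem expc (i : Fin N) : Gr fun ζ : Fin N → ℝ => exp (ζ i) :=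
  ⟨by fun_prop, 1, 1, zero_le_one, zero_le_one, fun ζ => by
    have h1 := norm_le_pi_norm ζ i
    rw [Real.norm_eq_abs] at h1
    rw [abs_of_pos (exp_pos _), one_mul, one_mul]
    exact Real.exp_le_exp.2 ((le_abs_self _).trans h1)⟩

theorem add (hF : Gr F) (hG : Gr G) : Gr fun ζ => F ζ + G ζ := by
  obtain ⟨mF, C, p, hC, hp, hb⟩ := hF
  obtain ⟨mG, C', p', hC', hp', hb'⟩ := hG
  refine ⟨mF.add mG, C + C', p + p', by positivity, by positivity, fun ζ => ?_⟩
  have h0 := norm_nonneg ζ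
  have h1 : exp (p * ‖ζ‖) ≤ exp ((p + p') * ‖ζ‖) := Real.exp_le_exp.2 (by nlinarith)
  have h2 : exp (p' * ‖ζ‖) ≤ exp ((p + p') * ‖ζ‖) := Real.exp_le_exp.2 (by nlinarith)
  calc |F ζ + G ζ| ≤ |F ζ| + |G ζ| := abs_add_le _ _
    _ ≤ C * exp ((p + p') * ‖ζ‖) + C' * exp ((p + p') * ‖ζ‖) :=
      add_le_add ((hb ζ).trans (mul_le_mul_of_nonneg_left h1 hC))
        ((hb' ζ).trans (mul_le_mul_of_nonneg_left h2 hC'))
    _ = _ := by ring

theorem mul (hF : Gr F) (hG : Gr G) : Gr fun ζ => F ζ * G ζ := by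
  obtain ⟨mF, C, p, hC, hp, hb⟩ := hF
  obtain ⟨mG, C', p', hC', hp', hb'⟩ := hG
  refine ⟨mF.mul mG, C * C', p + p', by positivity, by positivity, fun ζ => ?_⟩
  rw [abs_mul, add_mul, Real.exp_add]
  calc |F ζ| * |G ζ| ≤ C * exp (p * ‖ζ‖) * (C' * exp (p' * ‖ζ‖)) :=
      mul_le_mul (hb ζ) (hb' ζ) (abs_nonneg _) (by positivity)
    _ = _ := by ring

theorem neg (hF : Gr F) : Gr fun ζ => -F ζ := hF.of_le hF.1.neg fun _ => by simp

theorem sub (hF : Gr F) (hG : Gr G) : Gr fun ζ => F ζ - G ζ := by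
  simpa only [sub_eq_add_neg] using hF.add hG.neg

theorem abs (hF : Gr F) : Gr fun ζ => |F ζ| := hF.of_le hF.1.abs fun _ => by simp

theorem cmul (c : ℝ) (hF : Gr F) : Gr fun ζ => c * F ζ := (const c).mul hF

theorem pow (hF : Gr F) (n : ℕ) : Gr fun ζ => F ζ ^ n := by
  induction n with
  | zero => simpa using const 1
  | succ n ih => simpa only [pow_succ] using ih.mul hF

theorem sum {ι : Type*} (s : Finset ι) {f : ι → (Fin N → ℝ) → ℝ} (h : ∀ i, Gr (f i)) :
    Gr fun ζ => ∑ i ∈ s, f i ζ := by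
  classical
  induction s using Finset.induction_on with
  | empty => simpa using const 0
  | insert a s ha ih => simpa only [sum_insert ha] using (h a).add ih

theorem max (hF : Gr F) (hG : Gr G) : Gr fun ζ => max (F ζ) (G ζ) :=
  (hF.abs.add hG.abs).of_le (hF.1.max hG.1) fun ζ => by
    rw [abs_of_nonneg (by positivity : 0 ≤ |F ζ| + |G ζ|)]
    rcases le_total (F ζ) (G ζ) with h | h
    · rw [max_eq_right h]; linarith [abs_nonneg (F ζ)]
    · rw [max_eq_left h]; linarith [abs_nonneg (G ζ)]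

theorem min (hF : Gr F) (hG : Gr G) : Gr fun ζ => min (F ζ) (G ζ) :=
  (hF.abs.add hG.abs).of_le (hF.1.min hG.1) fun ζ => by
    rw [abs_of_nonneg (by positivity : 0 ≤ |F ζ| + |G ζ|)]
    rcases le_total (F ζ) (G ζ) with h | h
    · rw [min_eq_left h]; linarith [abs_nonneg (G ζ)]
    · rw [min_eq_right h]; linarith [abs_nonneg (F ζ)]

theorem ite (c : Prop) [Decidable c] (hF : Gr F) (hG : Gr G) :
    Gr fun ζ => if c then F ζ else G ζ := by
  split_ifs <;> assumption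

theorem int_step (hF : Gr F) (v : ℝ≥0) (ζ : Fin N → ℝ) (j : Fin N) :
    Integrable (fun x => F (ζ + Pi.single j x)) (nu v) := by
  obtain ⟨mF, C, p, hC, hp, hb⟩ := hF
  have hm : Measurable fun x : ℝ => ζ + Pi.single j x := by
    refine measurable_const.add (measurable_pi_lambda _ fun i => ?_)
    by_cases h : i = j
    · subst h; simpa using measurable_id'
    · simp [h]
  refine ((int_expabs v p).const_mul (C * exp (p * ‖ζ‖))).mono' (mF.comp hm).aestronglyMeasurable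
    (Filter.Eventually.of_forall fun x => ?_)
  rw [Real.norm_eq_abs]
  refine (hb _).trans ?_
  rw [mul_assoc, ← Real.exp_add]
  refine mul_le_mul_of_nonneg_left (Real.exp_le_exp.2 ?_) hC
  have h1 := norm_add_le ζ (Pi.single j x)
  rw [Pi.norm_single, Real.norm_eq_abs] at h1
  nlinarith

end Gr

theorem gr_SS : Gr (SS (N := N)) := Gr.sum _ Gr.expc

theorem gr_xi (i l : Fin N) : Gr fun ζ : Fin N → ℝ => xi (ζ i) (ζ l) := by
  refine ((Gr.expc i).mul ((Gr.coord i).min (Gr.coord l))).sub ?_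
  refine (Gr.expc i).of_le (by fun_prop) fun ζ => ?_
  rw [abs_of_pos (exp_pos _), abs_of_pos (exp_pos _)]
  exact Real.exp_le_exp.2 (min_le_left _ _)

theorem gr_x2 (i l : Fin N) : Gr fun ζ : Fin N → ℝ => x2 (ζ i) (ζ l) := (gr_xi i l).add (gr_xi l i)

theorem gr_Phi : Gr (Phi (N := N)) :=
  ((Gr.sum _ fun i => (Gr.expc i).mul (Gr.coord i)).cmul 2).sub (gr_SS.mul (Gr.sum _ Gr.coord))

theorem gr_Xi : Gr (Xi (N := N)) :=
  Gr.sum _ fun i => Gr.sum _ fun l => Gr.ite _ (Gr.const 0) (gr_xi i l)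

theorem gr_Gam : Gr (Gam (N := N)) := gr_Phi.add (gr_Xi.cmul _)

theorem gr_lam (a b c : Fin N) :
    Gr fun ζ : Fin N → ℝ => lam (exp (ζ a)) (exp (ζ b)) (exp (ζ c)) := by
  have ha := Gr.expc a
  have hb := Gr.expc b
  have hc := Gr.expc c
  exact ((((ha.sub hb).abs.pow 3).add ((hb.sub hc).abs.pow 3)).add ((ha.sub hc).abs.pow 3)).add
    ((((ha.add hb).sub (hc.cmul 2)).mul ((ha.add hc).sub (hb.cmul 2))).mul
      ((hb.add hc).sub (ha.cmul 2)))

/-- total excess over the observed coordinate -/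
noncomputable def Yy (ζ : Fin N → ℝ) (j : Fin N) : ℝ := ∑ i, max (exp (ζ i) - exp (ζ j)) 0

theorem gr_Yy (j : Fin N) : Gr fun ζ : Fin N → ℝ => Yy ζ j :=
  Gr.sum _ fun i => ((Gr.expc i).sub (Gr.expc j)).max (Gr.const 0)

theorem Yy_nonneg (ζ : Fin N → ℝ) (j : Fin N) : 0 ≤ Yy ζ j := sum_nonneg fun _ _ => le_max_right _ _

theorem le_Yy (ζ : Fin N → ℝ) (i j : Fin N) : max (exp (ζ i) - exp (ζ j)) 0 ≤ Yy ζ j :=
  single_le_sum (f := fun i => max (exp (ζ i) - exp (ζ j)) 0) (fun _ _ => le_max_right _ _)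
    (mem_univ i)

theorem Yy_le (ζ : Fin N → ℝ) (j : Fin N) : Yy ζ j ≤ SS ζ :=
  sum_le_sum fun i _ => max_le (by linarith [exp_pos (ζ j)]) (exp_pos _).le

theorem sum_single (f : ℝ → ℝ) (ζ : Fin N → ℝ) (j : Fin N) (x : ℝ) :
    ∑ l, f ((ζ + Pi.single j x : Fin N → ℝ) l) = ∑ l, f (ζ l) - f (ζ j) + f (ζ j + x) := by
  rw [← add_sum_erase _ _ (mem_univ j), ← sum_erase_eq (fun l => f (ζ l)), add_comm]
  congr 1
  · exact sum_congr rfl fun l hl => by simp [ne_of_mem_erase hl]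
  · simp

theorem I_comb (v : ℝ≥0) (a b c d : ℝ) :
    ∫ x, (a + b * (exp x - 1) + c * x + d * (x * exp x)) ∂nu v = a - c * v / 2 + d * v / 2 := by
  have i1 : Integrable (fun x => b * (exp x - 1)) (nu v) :=
    ((int_exp1 v).sub (integrable_const 1)).const_mul b
  have i0 : Integrable (fun x => a + b * (exp x - 1)) (nu v) := (integrable_const a).add i1
  have i2 : Integrable (fun x => c * x) (nu v) := (int_id v).const_mul c
  have i3 : Integrable (fun x => a + b * (exp x - 1) + c * x) (nu v) := i0.add i2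
  rw [integral_add i3 ((int_xexp v).const_mul d), integral_add i0 i2,
    integral_add (integrable_const a) i1, integral_const_mul, integral_const_mul,
    integral_const_mul, integral_sub (int_exp1 v) (integrable_const 1), I_exp1, I_id, I_xexp]
  simp
  ring

theorem I_SS (v : ℝ≥0) (ζ : Fin N → ℝ) (j : Fin N) :
    ∫ x, SS (ζ + Pi.single j x) ∂nu v = SS ζ := by
  have : ∀ x, SS (ζ + Pi.single j x) =
      SS ζ + exp (ζ j) * (exp x - 1) + 0 * x + 0 * (x * exp x) := fun x => by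
    unfold SS
    rw [sum_single exp, Real.exp_add]; ring
  simp only [this]
  rw [I_comb]; ring

theorem I_Phi (v : ℝ≥0) (ζ : Fin N → ℝ) (j : Fin N) :
    ∫ x, Phi (ζ + Pi.single j x) ∂nu v = Phi ζ + v / 2 * SS ζ := by
  have : ∀ x, Phi (ζ + Pi.single j x) =
      Phi ζ + (2 * exp (ζ j) * ζ j - exp (ζ j) * ∑ l, ζ l) * (exp x - 1) +
        (-(SS ζ - exp (ζ j))) * x + exp (ζ j) * (x * exp x) := fun x => by
    unfold Phi SS
    rw [sum_single exp, sum_single (fun t => exp t * t), sum_single (fun t => t), Real.exp_add]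
    ring
  simp only [this]
  rw [I_comb]; ring

theorem I_poly (v : ℝ≥0) (a b c d e f : ℝ) :
    Integrable (fun x => a * exp (-1 * x) + b + c * exp (1 * x) + d * exp (2 * x) + e * exp (3 * x) +
      f * exp (4 * x)) (nu v) ∧
    ∫ x, (a * exp (-1 * x) + b + c * exp (1 * x) + d * exp (2 * x) + e * exp (3 * x) +
      f * exp (4 * x)) ∂nu v =
      a * exp v + b + c + d * exp v + e * exp (3 * v) + f * exp (6 * v) := by
  have i1 := (int_exp v (-1)).const_mul a
  have i2 : Integrable (fun x => a * exp (-1 * x) + b) (nu v) := i1.add (integrable_const b)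
  have i3 : Integrable (fun x => a * exp (-1 * x) + b + c * exp (1 * x)) (nu v) :=
    i2.add ((int_exp v 1).const_mul c)
  have i4 : Integrable (fun x => a * exp (-1 * x) + b + c * exp (1 * x) + d * exp (2 * x)) (nu v) :=
    i3.add ((int_exp v 2).const_mul d)
  have i5 : Integrable (fun x => a * exp (-1 * x) + b + c * exp (1 * x) + d * exp (2 * x) +
      e * exp (3 * x)) (nu v) := i4.add ((int_exp v 3).const_mul e)
  refine ⟨i5.add ((int_exp v 4).const_mul f), ?_⟩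
  rw [integral_add i5 ((int_exp v 4).const_mul f), integral_add i4 ((int_exp v 3).const_mul e),
    integral_add i3 ((int_exp v 2).const_mul d), integral_add i2 ((int_exp v 1).const_mul c),
    integral_add i1 (integrable_const b)]
  simp only [integral_const_mul, I_exp, integral_const, probReal_univ, smul_eq_mul, one_mul]
  have e1 : (-1 : ℝ) * (-1 - 1) * v / 2 = v := by ring
  have e3 : (2 : ℝ) * (2 - 1) * v / 2 = v := by ring
  have e4 : (3 : ℝ) * (3 - 1) * v / 2 = 3 * v := by ring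
  have e5 : (4 : ℝ) * (4 - 1) * v / 2 = 6 * v := by ring
  rw [e1, I_exp1, e3, e4, e5]; simp

theorem exp_ub {t : ℝ} (h0 : 0 ≤ t) (h1 : t ≤ 1) : exp t ≤ 1 + t + t ^ 2 := by
  have := Real.abs_exp_sub_one_sub_id_le (x := t) (by rw [abs_of_nonneg h0]; exact h1)
  linarith [(abs_le.1 this).2]

theorem I_gap (v : ℝ≥0) (hv : (v : ℝ) ≤ 1 / 6) (a y : ℝ) {η : ℝ} (hη : 0 < η)
    (hi : Integrable (fun x => gap a y x) (nu v)) :
    ∫ x, gap a y x ∂nu v ≤ 2 * v * max (exp a - exp y) 0 + v * (2 * η + 9 * v / η) * exp y := by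
  set M := max (exp a - exp y) 0 with hM
  have hM0 : 0 ≤ M := le_max_right _ _
  have hy := exp_pos y
  obtain ⟨h1, h2⟩ := I_poly v (M + exp y * η + exp y / η) (-2 * M - 2 * exp y * η - 4 * exp y / η)
    (M + exp y * η + 6 * exp y / η) (-4 * exp y / η) (exp y / η) 0
  refine (integral_mono hi h1 fun x => ?_).trans ?_
  · refine (gap_le a y x hη).trans (le_of_eq ?_)
    have e1 : exp (-x) * exp x = 1 := by rw [← Real.exp_add]; simp
    have e2 : exp (2 * x) = exp x ^ 2 := by rw [← Real.exp_nat_mul]; simp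
    have e3 : exp (3 * x) = exp x ^ 3 := by rw [← Real.exp_nat_mul]; simp
    simp only [rr, neg_mul, one_mul, e2, e3]
    field_simp
    linear_combination (exp y * (exp x - 2)) * e1
  · rw [h2]
    have hv0 : (0 : ℝ) ≤ v := v.2
    have a1 := exp_ub hv0 (by linarith)
    have a2 := exp_ub (t := 3 * v) (by linarith) (by linarith)
    have a3 := Real.add_one_le_exp (v : ℝ)
    have b1 : exp v - 1 ≤ 2 * v := by nlinarith
    have b2 : exp (3 * v) - 3 * exp v + 2 ≤ 9 * v ^ 2 := by nlinarith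
    have c1 := mul_le_mul_of_nonneg_left b1 hM0
    have c2 := mul_le_mul_of_nonneg_left b1 (mul_pos hy hη).le
    have c3 := mul_le_mul_of_nonneg_left b2 (div_pos hy hη).le
    have e : (v : ℝ) * (2 * η + 9 * v / η) * exp y =
        exp y * η * (2 * v) + exp y / η * (9 * v ^ 2) := by ring
    rw [e]
    have e' : (M + exp y * η + exp y / η) * exp v + (-2 * M - 2 * exp y * η - 4 * exp y / η) +
        (M + exp y * η + 6 * exp y / η) + -4 * exp y / η * exp v + exp y / η * exp (3 * v) +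
        0 * exp (6 * v) = M * (exp v - 1) + exp y * η * (exp v - 1) +
          exp y / η * (exp (3 * v) - 3 * exp v + 2) := by ring
    rw [e']
    linarith

/-- one-step inequality -/
def Step (v : ℝ≥0) (F : (Fin N → ℝ) → ℝ) (e : (Fin N → ℝ) → Fin N → ℝ) : Prop :=
  ∀ ζ j, ∫ x, F (ζ + Pi.single j x) ∂nu v ≤ F ζ + e ζ j

theorem I_x2 (v : ℝ≥0) (ζ : Fin N → ℝ) {i j : Fin N} (h : i ≠ j) :
    Integrable (fun x => gap (ζ i) (ζ j) x) (nu v) ∧
    ∫ x, x2 (ζ i) (ζ j + x) ∂nu v = x2 (ζ i) (ζ j) - ∫ x, gap (ζ i) (ζ j) x ∂nu v := by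
  have i1 : Integrable (fun x => x2 (ζ i) (ζ j + x)) (nu v) := by
    have := (gr_x2 i j).int_step v ζ j
    simpa [h] using this
  have i2 : Integrable (fun x => xD (ζ i) (ζ j) * (exp (ζ j) * (exp x - 1))) (nu v) :=
    (((int_exp1 v).sub (integrable_const 1)).const_mul _).const_mul _
  have i3 : Integrable (fun x => x2 (ζ i) (ζ j) + xD (ζ i) (ζ j) * (exp (ζ j) * (exp x - 1)))
    (nu v) := (integrable_const _).add i2
  refine ⟨i3.sub i1, ?_⟩
  unfold gap
  rw [integral_sub i3 i1, integral_add (integrable_const _) i2, integral_const_mul,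
    integral_const_mul, integral_sub (int_exp1 v) (integrable_const 1), I_exp1]
  simp

/-- error term for the pair function -/
noncomputable def err1 (v η : ℝ) (ζ : Fin N → ℝ) (j : Fin N) : ℝ :=
  2 * v * Yy ζ j + v * (2 * η + 9 * v / η) * SS ζ

theorem err1_nonneg {v η : ℝ} (hv : 0 ≤ v) (hη : 0 < η) (ζ : Fin N → ℝ) (j : Fin N) :
    0 ≤ err1 v η ζ j := by
  have := Yy_nonneg ζ j
  have := (exp_pos _).le.trans (exp_le_SS ζ j)
  unfold err1; positivity

theorem I_x2_bounds (v : ℝ≥0) (ζ : Fin N → ℝ) {i l : Fin N} (h : i ≠ l) (j : Fin N) :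
    ∫ x, x2 ((ζ + Pi.single j x : Fin N → ℝ) i) ((ζ + Pi.single j x : Fin N → ℝ) l) ∂nu v
      ≤ x2 (ζ i) (ζ l) ∧
    ((v : ℝ) ≤ 1 / 6 → ∀ η, 0 < η → x2 (ζ i) (ζ l) - err1 v η ζ j ≤
      ∫ x, x2 ((ζ + Pi.single j x : Fin N → ℝ) i) ((ζ + Pi.single j x : Fin N → ℝ) l) ∂nu v) := by
  have key : ∀ i : Fin N, i ≠ j → ∫ x, x2 (ζ i) (ζ j + x) ∂nu v ≤ x2 (ζ i) (ζ j) ∧
      ((v : ℝ) ≤ 1 / 6 → ∀ η, 0 < η → x2 (ζ i) (ζ j) - err1 v η ζ j ≤
        ∫ x, x2 (ζ i) (ζ j + x) ∂nu v) := by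
    intro i hi
    obtain ⟨h1, h2⟩ := I_x2 v ζ hi
    rw [h2]
    refine ⟨sub_le_self _ (integral_nonneg fun x => gap_nonneg _ _ x), fun hv η hη => ?_⟩
    have h3 := I_gap v hv (ζ i) (ζ j) hη h1
    have hv0 : (0 : ℝ) ≤ v := v.2
    have h4 := mul_le_mul_of_nonneg_left (le_Yy ζ i j) (by positivity : 0 ≤ 2 * (v : ℝ))
    have h5 := mul_le_mul_of_nonneg_left (exp_le_SS ζ j)
      (by positivity : 0 ≤ (v : ℝ) * (2 * η + 9 * v / η))
    unfold err1
    linarith
  by_cases h1 : l = j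
  · subst h1
    simpa [h] using key i h
  · by_cases h2 : i = j
    · subst h2
      have := key l h1
      simp only [x2_comm (ζ l)] at this
      simpa [h1] using this
    · simp only [Pi.add_apply, ne_eq, h2, not_false_eq_true, Pi.single_eq_of_ne, add_zero, h1,
        integral_const, probReal_univ, smul_eq_mul, one_mul, le_refl, true_and]
      intro _ η hη
      have := err1_nonneg (v := (v : ℝ)) v.2 hη ζ j
      linarith

theorem I_Xi (v : ℝ≥0) (ζ : Fin N → ℝ) (j : Fin N) :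
    ∫ x, Xi (ζ + Pi.single j x) ∂nu v = 1 / 2 * ∑ i, ∑ l, if i = l then 0 else
      ∫ x, x2 ((ζ + Pi.single j x : Fin N → ℝ) i) ((ζ + Pi.single j x : Fin N → ℝ) l) ∂nu v := by
  simp only [Xi_eq_half]
  rw [integral_const_mul, integral_finsetSum]
  · congr 1
    refine sum_congr rfl fun i _ => ?_
    rw [integral_finsetSum]
    · refine sum_congr rfl fun l _ => ?_
      split_ifs <;> simp
    · exact fun l _ => (Gr.ite _ (Gr.const 0) (gr_x2 i l)).int_step v ζ j
  · exact fun i _ => (Gr.sum _ fun l => Gr.ite _ (Gr.const 0) (gr_x2 i l)).int_step v ζ j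

theorem I_Gam (v : ℝ≥0) (ζ : Fin N → ℝ) (j : Fin N) :
    ∫ x, Gam (ζ + Pi.single j x) ∂nu v = Phi ζ + v / 2 * SS ζ +
      ((N : ℝ) - 2) / (N - 1) * ∫ x, Xi (ζ + Pi.single j x) ∂nu v := by
  unfold Gam
  rw [integral_add (gr_Phi.int_step v ζ j) ((gr_Xi.cmul _).int_step v ζ j), I_Phi,
    integral_const_mul]

theorem step_Gam (hN : 2 ≤ N) (v : ℝ≥0) : Step v (Gam (N := N)) fun ζ _ => v / 2 * SS ζ := by
  intro ζ j
  have h2 : (2 : ℝ) ≤ N := by exact_mod_cast hN
  have hlam : 0 ≤ ((N : ℝ) - 2) / (N - 1) := div_nonneg (by linarith) (by linarith)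
  have h : ∫ x, Xi (ζ + Pi.single j x) ∂nu v ≤ Xi ζ := by
    rw [I_Xi, Xi_eq_half]
    refine mul_le_mul_of_nonneg_left (sum_le_sum fun i _ => sum_le_sum fun l _ => ?_) (by norm_num)
    split_ifs with h
    · exact le_rfl
    · exact (I_x2_bounds v ζ h j).1
  rw [I_Gam]
  have := mul_le_mul_of_nonneg_left h hlam
  unfold Gam
  linarith

theorem step_negGam (hN : 2 ≤ N) (v : ℝ≥0) (hv : (v : ℝ) ≤ 1 / 6) {η : ℝ} (hη : 0 < η) :
    Step v (fun ζ : Fin N → ℝ => -Gam ζ) fun ζ j => -(v / 2 * SS ζ) + N ^ 2 * err1 v η ζ j := by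
  intro ζ j
  have h2 : (2 : ℝ) ≤ N := by exact_mod_cast hN
  have hlam : 0 ≤ ((N : ℝ) - 2) / (N - 1) := div_nonneg (by linarith) (by linarith)
  have hlam1 : ((N : ℝ) - 2) / (N - 1) ≤ 1 := by rw [div_le_one (by linarith)]; linarith
  have he := err1_nonneg (v := (v : ℝ)) v.2 hη ζ j
  have h : Xi ζ - N ^ 2 * err1 v η ζ j ≤ ∫ x, Xi (ζ + Pi.single j x) ∂nu v := by
    rw [I_Xi, Xi_eq_half]
    have h1 : ∑ i, ∑ l, ((if i = l then 0 else x2 (ζ i) (ζ l)) - err1 v η ζ j) ≤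
        ∑ i, ∑ l, if i = l then 0 else ∫ x, x2 ((ζ + Pi.single j x : Fin N → ℝ) i)
          ((ζ + Pi.single j x : Fin N → ℝ) l) ∂nu v := by
      refine sum_le_sum fun i _ => sum_le_sum fun l _ => ?_
      split_ifs with h
      · simpa using he
      · exact (I_x2_bounds v ζ h j).2 hv η hη
    simp only [sum_sub_distrib, sum_const, card_univ, Fintype.card_fin, nsmul_eq_mul] at h1
    have : 0 ≤ (N : ℝ) ^ 2 * err1 v η ζ j := by positivity
    nlinarith
  rw [integral_neg, I_Gam]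
  have h3 := mul_le_mul_of_nonneg_left h hlam
  have h4 : 0 ≤ (N : ℝ) ^ 2 * err1 v η ζ j := by positivity
  unfold Gam
  nlinarith

/-- error term for the ray test function -/
noncomputable def err2 (v η : ℝ) (ζ : Fin N → ℝ) (j : Fin N) : ℝ :=
  24 * v * (exp (ζ j) ^ 2 * Yy ζ j) + 12 * v * (2 * η + 42 * v / η) * SS ζ ^ 3

theorem err2_nonneg {v η : ℝ} (hv : 0 ≤ v) (hη : 0 < η) (ζ : Fin N → ℝ) (j : Fin N) :
    0 ≤ err2 v η ζ j := by
  have := Yy_nonneg ζ j
  have := (exp_pos _).le.trans (exp_le_SS ζ j)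
  unfold err2; positivity

theorem I_lam1 (v : ℝ≥0) (hv : (v : ℝ) ≤ 1 / 6) {η : ℝ} (hη : 0 < η) (ζ : Fin N → ℝ)
    {j b c : Fin N} (hb : b ≠ j) (hc : c ≠ j) :
    ∫ x, lam (exp (ζ j + x)) (exp (ζ b)) (exp (ζ c)) ∂nu v ≤
      lam (exp (ζ j)) (exp (ζ b)) (exp (ζ c)) + err2 v η ζ j := by
  have i1 : Integrable (fun x => lam (exp (ζ j + x)) (exp (ζ b)) (exp (ζ c))) (nu v) := by
    have := (gr_lam j b c).int_step v ζ j
    simpa [hb, hc] using this
  set y := exp (ζ j) with hy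
  have hy0 : 0 < y := exp_pos _
  set M := max (exp (ζ b) - y) 0 + max (exp (ζ c) - y) 0 with hM
  have hM0 : 0 ≤ M := add_nonneg (le_max_right _ _) (le_max_right _ _)
  have hMY : M ≤ 2 * Yy ζ j := by linarith [le_Yy ζ b j, le_Yy ζ c j]
  set L := lam y (exp (ζ b)) (exp (ζ c))
  set D := lamD y (exp (ζ b)) (exp (ζ c))
  set α := 6 * y ^ 2 * M + 12 * y ^ 3 * η with hα
  set β := 12 * y ^ 3 / η with hβ
  obtain ⟨h1, h2⟩ := I_poly v 0 (L - D * y + α + β) (D * y - 2 * α - 4 * β) (α + 6 * β) (-4 * β) β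
  refine (integral_mono i1 h1 fun x => ?_).trans ?_
  · have e0 : exp (ζ j + x) = y + y * (exp x - 1) := by rw [Real.exp_add]; ring
    have e2 : exp (2 * x) = exp x ^ 2 := by rw [← Real.exp_nat_mul]; simp
    have e3 : exp (3 * x) = exp x ^ 3 := by rw [← Real.exp_nat_mul]; simp
    have e4 : exp (4 * x) = exp x ^ 4 := by rw [← Real.exp_nat_mul]; simp
    simp only [e0, one_mul, e2, e3, e4]
    refine (lam_taylor _ _ _ _).trans ?_
    rw [abs_mul, abs_of_pos hy0]
    have h3 : |exp x - 1| ≤ η + (exp x - 1) ^ 2 / η := by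
      rw [← sq_abs (exp x - 1)]
      have h4 := abs_nonneg (exp x - 1)
      set u := |exp x - 1|
      rcases le_total u η with h | h
      · have : 0 ≤ u ^ 2 / η := by positivity
        linarith
      · have : u ≤ u ^ 2 / η := by rw [le_div_iff₀ hη]; nlinarith
        linarith
    have h4 := mul_le_mul_of_nonneg_left h3 (by positivity : 0 ≤ 12 * y ^ 3 * (exp x - 1) ^ 2)
    have e5 : 12 * y ^ 3 * (exp x - 1) ^ 2 * (η + (exp x - 1) ^ 2 / η) =
        12 * y ^ 3 * η * (exp x - 1) ^ 2 + β * (exp x - 1) ^ 4 := by rw [hβ]; ring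
    rw [e5] at h4
    have e6 : 6 * (y * (exp x - 1)) ^ 2 * (M + 2 * (y * |exp x - 1|)) =
        6 * y ^ 2 * M * (exp x - 1) ^ 2 + 12 * y ^ 3 * (exp x - 1) ^ 2 * |exp x - 1| := by ring
    rw [e6]
    have e7 : 0 * exp (-1 * x) + (L - D * y + α + β) + (D * y - 2 * α - 4 * β) * exp x +
        (α + 6 * β) * exp x ^ 2 + -4 * β * exp x ^ 3 + β * exp x ^ 4 =
        L + D * (y * (exp x - 1)) + (6 * y ^ 2 * M * (exp x - 1) ^ 2 +
          (12 * y ^ 3 * η * (exp x - 1) ^ 2 + β * (exp x - 1) ^ 4)) := by rw [hα]; ring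
    rw [e7]
    linarith
  · rw [h2]
    have hv0 : (0 : ℝ) ≤ v := v.2
    have a1 := exp_ub hv0 (by linarith)
    have a2 := exp_ub (t := 6 * v) (by linarith) (by linarith)
    have a3 := Real.add_one_le_exp (3 * (v : ℝ))
    have b1 : exp v - 1 ≤ 2 * v := by nlinarith
    have b2 : exp (6 * v) - 4 * exp (3 * v) + 6 * exp v - 3 ≤ 42 * v ^ 2 := by nlinarith
    have hα0 : 0 ≤ α := by positivity
    have hβ0 : 0 ≤ β := by positivity
    have c1 := mul_le_mul_of_nonneg_left b1 hα0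
    have c2 := mul_le_mul_of_nonneg_left b2 hβ0
    have hS : y ^ 3 ≤ SS ζ ^ 3 := pow_le_pow_left₀ hy0.le (exp_le_SS ζ j) 3
    have c3 := mul_le_mul_of_nonneg_left hS
      (by positivity : 0 ≤ 12 * (v : ℝ) * (2 * η + 42 * v / η))
    have c4 := mul_le_mul_of_nonneg_left hMY (by positivity : 0 ≤ 12 * (v : ℝ) * y ^ 2)
    have e : α * (2 * v) + β * (42 * v ^ 2) =
        12 * v * y ^ 2 * M + 12 * v * (2 * η + 42 * v / η) * y ^ 3 := by
      rw [hα, hβ]; ring
    unfold err2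
    rw [← hy]
    nlinarith

theorem step_lam (v : ℝ≥0) (hv : (v : ℝ) ≤ 1 / 6) {η : ℝ} (hη : 0 < η) {a b c : Fin N}
    (hab : a ≠ b) (hac : a ≠ c) (hbc : b ≠ c) :
    Step v (fun ζ : Fin N → ℝ => lam (exp (ζ a)) (exp (ζ b)) (exp (ζ c))) (err2 v η) := by
  intro ζ j
  by_cases h1 : a = j
  · subst h1
    simpa [hab.symm, hac.symm] using I_lam1 v hv hη ζ hab.symm hac.symm
  · by_cases h2 : b = j
    · subst h2
      have := I_lam1 v hv hη ζ hab hbc.symm
      simp only [lam_12 _ (exp (ζ a))] at this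
      simpa [hab, hbc.symm] using this
    · by_cases h3 : c = j
      · subst h3
        have := I_lam1 v hv hη ζ hac hbc
        simp only [lam_12 _ (exp (ζ a)), lam_23 _ _ (exp (ζ b))] at this
        simpa [hac, hbc] using this
      · simpa [h1, h2, h3] using err2_nonneg (v := (v : ℝ)) v.2 hη ζ j

end Pool.Agent.MP_96872c_an
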