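import Pool.Agent.MP_96872c_an.Approx

open Finset Real MeasureTheory ProbabilityTheory Filter Topology
open scoped NNReal ENNReal

namespace Pool.Agent.MP_96872c_an

variable {N : ℕ} {Ω : Type} {mΩ : MeasurableSpace Ω} {G : Filtration ℝ≥0 mΩ}
  {J : ℝ≥0 → Ω → Fin N}

/-- indicator that the simple policy observes box `j` -/
noncomputable def ph (c : ℕ → Ω → Fin N) (j : Fin N) (k : ℕ) (ω : Ω) : ℝ :=
  if c k ω = j then 1 else 0

theorem ph_abs (c : ℕ → Ω → Fin N) (j : Fin N) (k : ℕ) (ω : Ω) : |ph c j k ω| ≤ 1 := by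
  unfold ph; split_ifs <;> simp

theorem ph_meas {m : MeasurableSpace Ω} {c : ℕ → Ω → Fin N} {k : ℕ} (hc : Measurable[m] (c k))
    (j : Fin N) : Measurable[m] (ph c j k) :=
  (Measurable.of_discrete (f := fun i : Fin N => if i = j then (1 : ℝ) else 0)).comp hc

/-- elementary integral of the indicator -/
noncomputable def II (m n : ℕ) (c : ℕ → Ω → Fin N) (j : Fin N) (a b : ℝ≥0) (Z : ℝ≥0 → Ω → ℝ)
    (ω : Ω) : ℝ := SI (pc n a b) (ph c j) Z (m * 2 ^ n) ω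

/-- approximate log likelihood -/
noncomputable def zr (μ : ℝ) (Y : ℝ≥0 → Ω → ℝ) (m n : ℕ) (c : ℕ → Ω → Fin N) (j : Fin N)
    (a : ℝ≥0) (ω : Ω) : ℝ := μ * II m n c j 0 a Y ω - μ ^ 2 / 2 * II m n c j 0 a tm ω

/-- log likelihood -/
noncomputable def zl (μ : ℝ) (Y : ℝ≥0 → Ω → ℝ) (m : ℕ) (n : ℕ → ℕ) (c : ℕ → ℕ → Ω → Fin N)
    (j : Fin N) (a : ℝ≥0) (ω : Ω) : ℝ := limUnder atTop fun r => zr μ Y m (n r) (c r) j a ω

theorem II_meas {n : ℕ} {c : ℕ → Ω → Fin N} (hc : ∀ k, Measurable[G (grid n k)] (c k)) (m : ℕ)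
    (j : Fin N) {a b : ℝ≥0} (hab : a ≤ b) {Z : ℝ≥0 → Ω → ℝ} (hZ : ∀ t, Measurable[G t] (Z t)) :
    Measurable[G b] (II m n c j a b Z) :=
  (SI_meas (pc_mono n a b) (ad_pc (fun k => ph_meas (hc k) j) a b) hZ _).mono
    (G.mono (pc_le n hab _)) le_rfl

theorem zr_meas {n : ℕ} {c : ℕ → Ω → Fin N} (hc : ∀ k, Measurable[G (grid n k)] (c k)) (μ : ℝ)
    {Y : ℝ≥0 → Ω → ℝ} (hY : ∀ t, Measurable[G t] (Y t)) (m : ℕ) (j : Fin N) (a : ℝ≥0) :
    Measurable[G a] (zr μ Y m n c j a) :=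
  ((II_meas hc m j zero_le hY).const_mul _).sub ((II_meas hc m j zero_le meas_tm).const_mul _)

theorem zl_meas {n : ℕ → ℕ} {c : ℕ → ℕ → Ω → Fin N}
    (hc : ∀ r k, Measurable[G (grid (n r) k)] (c r k)) (μ : ℝ)
    {Y : ℝ≥0 → Ω → ℝ} (hY : ∀ t, Measurable[G t] (Y t)) (m : ℕ) (j : Fin N) (a : ℝ≥0) :
    Measurable[G a] (zl μ Y m n c j a) := by
  have h := fun r => zr_meas (hc r) μ hY m j a
  let _ : MeasurableSpace Ω := G a
  exact (StronglyMeasurable.limUnder (l := atTop) fun r => (h r).stronglyMeasurable).measurable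

theorem zr_zero (μ : ℝ) (Y : ℝ≥0 → Ω → ℝ) (m n : ℕ) (c : ℕ → Ω → Fin N) (j : Fin N) (ω : Ω) :
    zr μ Y m n c j 0 ω = 0 := by
  simp [zr, II, SI, pc]

theorem zl_zero (μ : ℝ) (Y : ℝ≥0 → Ω → ℝ) (m : ℕ) (n : ℕ → ℕ) (c : ℕ → ℕ → Ω → Fin N)
    (j : Fin N) (ω : Ω) : zl μ Y m n c j 0 ω = 0 := by
  simp only [zl, zr_zero]
  exact tendsto_const_nhds.limUnder_eq

theorem DD_sub (hJ : IsProgressive G J) (j : Fin N) (a b : ℝ≥0) (ω : Ω) :
    DD J j b ω - DD J j a ω = ∫ s in (a : ℝ)..b, HH J j ω s :=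
  intervalIntegral.integral_interval_sub_left (ii_bdd (meas_HH hJ j ω) (HH_abs j ω) _ _)
    (ii_bdd (meas_HH hJ j ω) (HH_abs j ω) _ _)

theorem II_tm_close (hJ : IsProgressive G J) {m : ℕ} (n : ℕ) (c : ℕ → Ω → Fin N) (j : Fin N)
    {a b : ℝ≥0} (hab : a ≤ b) (hb : b ≤ m) (ω : Ω) :
    |II m n c j a b tm ω - (DD J j b ω - DD J j a ω)| ≤ ee J n c m ω := by
  unfold II
  rw [SI_time hab (by rwa [grid_nat]) (fun k => ph_abs c j k ω), DD_sub hJ,
    ← intervalIntegral.integral_sub (ii_bdd (meas_step n fun k => ph c j k ω)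
      (fun s => ph_abs c j _ ω) _ _) (ii_bdd (meas_HH hJ j ω) (HH_abs j ω) _ _)]
  refine abs_int_le_ee hJ n c hab hb ω fun s => ?_
  unfold ph HH
  split_ifs with h1 h2 h3 h3 h2 h3 <;> simp_all

theorem II_DD_close (hJ : IsProgressive G J) {m : ℕ} (n : ℕ) (c : ℕ → Ω → Fin N) (j : Fin N)
    {a b : ℝ≥0} (hab : a ≤ b) (hb : b ≤ m) (ω : Ω) :
    |II m n c j a b (DD J j) ω - (DD J j b ω - DD J j a ω)| ≤ ee J n c m ω := by
  unfold II
  rw [SI_integral hab (by rwa [grid_nat]) (meas_HH hJ j ω) (HH_abs j ω) (fun k => ph_abs c j k ω)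
    (fun t => rfl), DD_sub hJ,
    ← intervalIntegral.integral_sub (ii_bdd (f := fun s => ph c j ⌊s * 2 ^ n⌋₊ ω * HH J j ω s)
      ((meas_step n fun k => ph c j k ω).mul (meas_HH hJ j ω)) (C := 1) (fun s => by
        rw [abs_mul]; exact mul_le_one₀ (ph_abs c j _ ω) (abs_nonneg _) (HH_abs j ω s)) _ _)
      (ii_bdd (meas_HH hJ j ω) (HH_abs j ω) _ _)]
  refine abs_int_le_ee hJ n c hab hb ω fun s => ?_
  unfold ph HH
  split_ifs with h1 h2 h3 h3 h2 h3 <;> simp_all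

theorem II_DD_close' (hJ : IsProgressive G J) {m : ℕ} (n : ℕ) (c : ℕ → Ω → Fin N) (i j : Fin N)
    {a b : ℝ≥0} (hab : a ≤ b) (hb : b ≤ m) (ω : Ω) :
    |II m n c i a b (DD J j) ω - ∫ s in (a : ℝ)..b, HH J i ω s * HH J j ω s| ≤ ee J n c m ω := by
  have m1 := meas_step n fun k => ph c i k ω
  have m2 := meas_HH hJ i ω
  have m3 := meas_HH hJ j ω
  unfold II
  rw [SI_integral hab (by rwa [grid_nat]) m3 (HH_abs j ω) (fun k => ph_abs c i k ω)
    (fun t => rfl), ← intervalIntegral.integral_sub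
    (ii_bdd (by fun_prop) (C := 1) (fun s => by simp only [ph, HH]; split_ifs <;> simp) _ _)
    (ii_bdd (by fun_prop) (C := 1) (fun s => by simp only [HH]; split_ifs <;> simp) _ _)]
  refine abs_int_le_ee hJ n c hab hb ω fun s => ?_
  unfold ph HH
  split_ifs <;> simp_all

theorem tendsto_of_close {f e : ℕ → ℝ} {x : ℝ} (h : ∀ r, |f r - x| ≤ e r)
    (he : Tendsto e atTop (𝓝 0)) : Tendsto f atTop (𝓝 x) :=
  tendsto_iff_dist_tendsto_zero.2 (squeeze_zero (fun _ => dist_nonneg) h he)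

theorem II_split (m n : ℕ) (c : ℕ → Ω → Fin N) (j : Fin N) {a b d : ℝ≥0} (hab : a ≤ b)
    (hbd : b ≤ d) (Z : ℝ≥0 → Ω → ℝ) (ω : Ω) :
    II m n c j a d Z ω = II m n c j a b Z ω + II m n c j b d Z ω := SI_split n hab hbd _ _ _ _

theorem II_sub (m n : ℕ) (c : ℕ → Ω → Fin N) (j : Fin N) (a b : ℝ≥0) (μ : ℝ)
    (Y D : ℝ≥0 → Ω → ℝ) (ω : Ω) :
    II m n c j a b (fun t ω => Y t ω - μ * D t ω) ω =
      II m n c j a b Y ω - μ * II m n c j a b D ω := by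
  have := SI_linZ (pc n a b) 1 (-μ) (ph c j) Y D (m * 2 ^ n) ω
  simp only [one_mul, neg_mul, ← sub_eq_add_neg] at this
  exact this

theorem ME_ph {m : ℕ} (n : ℕ) (c : ℕ → Ω → Fin N) (j : Fin N) {a b : ℝ≥0} (hab : a ≤ b)
    (hb : b ≤ m) (θ μ : ℝ) (B : ℝ≥0 → Ω → ℝ) (ω : Ω) :
    ME (pc n a b) (fun k ω => θ - μ * ph c j k ω) B (m * 2 ^ n) ω =
      θ * (B b ω - B a ω) - θ ^ 2 * ((b : ℝ) - a) / 2 - μ * II m n c j a b B ω +
        (θ * μ - μ ^ 2 / 2) * II m n c j a b tm ω := by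
  have e1 : (fun k ω => θ - μ * ph c j k ω) = fun k ω => 1 * θ + -μ * ph c j k ω := by
    funext k ω; ring
  have e2 : (fun k ω => (θ - μ * ph c j k ω) ^ 2) =
      fun k ω => 1 * θ ^ 2 + (μ ^ 2 - 2 * θ * μ) * ph c j k ω := by
    funext k ω; unfold ph; split_ifs <;> ring
  unfold ME
  rw [e2, e1, SI_lin _ 1 _ (fun _ _ => θ), SI_lin _ 1 _ (fun _ _ => θ ^ 2), SI_const, SI_const,
    pc_zero, pc_top hab (by rwa [grid_nat])]
  simp only [II, tm]
  ring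

variable {ρ : Measure Ω} {B : ℝ≥0 → Ω → ℝ}

theorem three_phase [IsFiniteMeasure ρ] {T : ℝ≥0} (hB : BMon ρ G B T) {n : ℕ} (M : ℕ)
    {K1 K2 K3 : ℕ → Ω → ℝ} (h1 : ∀ k, Measurable[G (grid n k)] (K1 k))
    (h2 : ∀ k, Measurable[G (grid n k)] (K2 k)) (h3 : ∀ k, Measurable[G (grid n k)] (K3 k))
    {s t u : ℝ≥0} (hst : s ≤ t) (htu : t ≤ u) (hu : u ≤ T) {g : Ω → ℝ≥0∞}
    (hg : Measurable[G s] g) :
    ∫⁻ ω, g ω * ENNReal.ofReal (exp (ME (pc n 0 s) K1 B M ω + ME (pc n s t) K2 B M ω +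
      ME (pc n t u) K3 B M ω)) ∂ρ = ∫⁻ ω, g ω * ENNReal.ofReal (exp (ME (pc n 0 s) K1 B M ω)) ∂ρ := by
  have m1 : Measurable[G s] (ME (pc n 0 s) K1 B M) :=
    (ME_meas (pc_mono n _ _) (ad_pc h1 _ _) hB.meas M).mono (G.mono (pc_le n zero_le _)) le_rfl
  have m2 : Measurable[G t] (ME (pc n s t) K2 B M) :=
    (ME_meas (pc_mono n _ _) (ad_pc h2 _ _) hB.meas M).mono (G.mono (pc_le n hst _)) le_rfl
  have g1 : Measurable[G s] fun ω => g ω * ENNReal.ofReal (exp (ME (pc n 0 s) K1 B M ω)) :=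
    hg.mul m1.exp.ennreal_ofReal
  have g2 : Measurable[G t] fun ω => g ω * ENNReal.ofReal (exp (ME (pc n 0 s) K1 B M ω)) *
      ENNReal.ofReal (exp (ME (pc n s t) K2 B M ω)) :=
    (g1.mono (G.mono hst) le_rfl).mul m2.exp.ennreal_ofReal
  have e2 := expmart hB (pc_mono n s t) (fun k => (pc_le n hst k).trans (htu.trans hu))
    (ad_pc h2 s t) (by rw [pc_zero]; exact g1) M
  have e3 := expmart hB (pc_mono n t u) (fun k => (pc_le n htu k).trans hu)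
    (ad_pc h3 t u) (by rw [pc_zero]; exact g2) M
  rw [← e2, ← e3]
  refine lintegral_congr fun ω => ?_
  rw [Real.exp_add, Real.exp_add, ENNReal.ofReal_mul (by positivity),
    ENNReal.ofReal_mul (by positivity)]
  ring

theorem three_phase_sq [IsProbabilityMeasure ρ] {T : ℝ≥0} (hB : BMon ρ G B T) {n : ℕ} (M : ℕ)
    {K1 K2 K3 : ℕ → Ω → ℝ} (h1 : ∀ k, Measurable[G (grid n k)] (K1 k))
    (h2 : ∀ k, Measurable[G (grid n k)] (K2 k)) (h3 : ∀ k, Measurable[G (grid n k)] (K3 k))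
    {s t u : ℝ≥0} (hst : s ≤ t) (htu : t ≤ u) (hu : u ≤ T) {C : ℝ} (hC : 0 ≤ C)
    (b1 : ∀ k ω, K1 k ω ^ 2 ≤ C) (b2 : ∀ k ω, K2 k ω ^ 2 ≤ C) (b3 : ∀ k ω, K3 k ω ^ 2 ≤ C) :
    ∫⁻ ω, ENNReal.ofReal (exp (ME (pc n 0 s) K1 B M ω + ME (pc n s t) K2 B M ω +
      ME (pc n t u) K3 B M ω) ^ 2) ∂ρ ≤ ENNReal.ofReal (exp (3 * (C * T))) := by
  have key : ∀ (K : ℕ → Ω → ℝ) (a b : ℝ≥0), a ≤ b → b ≤ T → (∀ k ω, K k ω ^ 2 ≤ C) → ∀ ω,
      2 * ME (pc n a b) K B M ω ≤ ME (pc n a b) (fun k ω => 2 * K k ω) B M ω + C * T := by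
    intro K a b hab hb hK ω
    have e1 := SI_lin (pc n a b) 2 0 K K B M ω
    have e2 := SI_lin (pc n a b) 4 0 (fun k ω => K k ω ^ 2) K tm M ω
    simp only [zero_mul, add_zero] at e1 e2
    have e3 : (fun k ω => (2 * K k ω) ^ 2) = fun k ω => 4 * K k ω ^ 2 := by
      funext k ω; ring
    have e4 := SI_time_le (n := n) (m := M) hab (K := fun k ω => K k ω ^ 2) hC fun k => hK k ω
    have e5 := mul_le_mul_of_nonneg_left (NNReal.coe_le_coe.2 hb) hC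
    unfold ME
    rw [e3, e1, e2]
    linarith
  have e1 := three_phase hB M (fun k => (h1 k).const_mul 2) (fun k => (h2 k).const_mul 2)
    (fun k => (h3 k).const_mul 2) hst htu hu (g := fun _ => ENNReal.ofReal (exp (3 * (C * T))))
    measurable_const
  have e2 := expmart hB (pc_mono n 0 s) (fun k => (pc_le n zero_le k).trans (hst.trans (htu.trans hu)))
    (ad_pc (fun k => (h1 k).const_mul 2) 0 s) (g := fun _ => ENNReal.ofReal (exp (3 * (C * T))))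
    measurable_const M
  rw [e2, lintegral_const, measure_univ, mul_one] at e1
  rw [← e1]
  refine lintegral_mono fun ω => ?_
  rw [← ENNReal.ofReal_mul (exp_pos _).le, ← Real.exp_add, ← Real.exp_nat_mul]
  refine ENNReal.ofReal_le_ofReal (Real.exp_le_exp.2 ?_)
  have := key K1 0 s zero_le (hst.trans (htu.trans hu)) b1 ω
  have := key K2 s t hst (htu.trans hu) b2 ω
  have := key K3 t u htu hu b3 ω
  push_cast
  linarith

/-- the data for the change of measure given that the object is in box `j` -/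
structure One (ρ : Measure Ω) (G : Filtration ℝ≥0 mΩ) (Y : ℝ≥0 → Ω → ℝ) (J : ℝ≥0 → Ω → Fin N)
    (μ : ℝ) (j : Fin N) (m : ℕ) (n : ℕ → ℕ) (c : ℕ → ℕ → Ω → Fin N) : Prop where
  hJ : IsProgressive G J
  hY : ∀ t, Measurable[G t] (Y t)
  bm : BMon ρ G (fun t ω => Y t ω - μ * DD J j t ω) m
  mono : StrictMono n
  meas : ∀ r k, Measurable[G (grid (n r) k)] (c r k)
  conv : ∀ ω, Tendsto (fun r => ee J (n r) (c r) m ω) atTop (𝓝 0)
  fast : ∀ r, ∫⁻ ω, ENNReal.ofReal (ee J (n r) (c r) m ω) ∂ρ ≤ ENNReal.ofReal (N * (1 / 4) ^ r)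

variable {Y : ℝ≥0 → Ω → ℝ} {μ : ℝ} {j : Fin N} {m : ℕ} {n : ℕ → ℕ} {c : ℕ → ℕ → Ω → Fin N}

theorem sq_diff_le (hJ : IsProgressive G J) (n d : ℕ) (c c' : ℕ → Ω → Fin N) (j : Fin N)
    {a : ℝ≥0} (ha : a ≤ m) (ω : Ω) :
    SI (pc (n + d) 0 a) (fun k ω => (1 * ph c' j k ω + -1 * ph c j (k / 2 ^ d) ω) ^ 2) tm
      (m * 2 ^ (n + d)) ω ≤ ee J (n + d) c' m ω + ee J n c m ω := by
  rw [SI_time zero_le (by rwa [grid_nat]) (C := 1) fun k => by unfold ph; split_ifs <;> simp]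
  simp only [floor_refine]
  have m1 := meas_step (n + d) fun k => ph c' j k ω
  have m2 := meas_step n fun k => ph c j k ω
  have m3 := meas_HH hJ j ω
  have e : ∀ s : ℝ, (1 * ph c' j ⌊s * 2 ^ (n + d)⌋₊ ω + -1 * ph c j ⌊s * 2 ^ n⌋₊ ω) ^ 2 =
      (ph c' j ⌊s * 2 ^ (n + d)⌋₊ ω - ph c j ⌊s * 2 ^ n⌋₊ ω) *
        (ph c' j ⌊s * 2 ^ (n + d)⌋₊ ω - HH J j ω s) +
      (ph c' j ⌊s * 2 ^ (n + d)⌋₊ ω - ph c j ⌊s * 2 ^ n⌋₊ ω) *
        (HH J j ω s - ph c j ⌊s * 2 ^ n⌋₊ ω) := fun s => by ring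
  simp only [e]
  rw [intervalIntegral.integral_add
    (ii_bdd (by fun_prop) (C := 1) (fun s => by simp only [ph, HH]; split_ifs <;> simp) _ _)
    (ii_bdd (by fun_prop) (C := 1) (fun s => by simp only [ph, HH]; split_ifs <;> simp) _ _)]
  refine add_le_add ((le_abs_self _).trans (abs_int_le_ee hJ _ _ zero_le ha ω fun s => ?_))
    ((le_abs_self _).trans (abs_int_le_ee hJ _ _ zero_le ha ω fun s => ?_))
  · unfold ph HH
    split_ifs <;> simp_all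
  · unfold ph HH
    split_ifs <;> simp_all

theorem One.cauchy [IsFiniteMeasure ρ] (h : One ρ G Y J μ j m n c) (i : Fin N) {a : ℝ≥0}
    (ha : a ≤ m) : ∀ᵐ ω ∂ρ, ∃ l, Tendsto (fun r => II m (n r) (c r) i 0 a
      (fun t ω => Y t ω - μ * DD J j t ω) ω) atTop (𝓝 l) := by
  set B : ℝ≥0 → Ω → ℝ := fun t ω => Y t ω - μ * DD J j t ω
  refine ae_cauchy (c := 2 * N)
    (fun r => (II_meas (h.meas r) m i zero_le h.bm.meas).mono (G.le _) le_rfl) fun r => ?_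
  obtain ⟨d, hd⟩ := Nat.exists_eq_add_of_le (h.mono (Nat.lt_succ_self r)).le
  simp only [Nat.succ_eq_add_one] at hd
  have e : ∀ ω, II m (n (r + 1)) (c (r + 1)) i 0 a B ω - II m (n r) (c r) i 0 a B ω =
      SI (pc (n r + d) 0 a) (fun k ω => 1 * ph (c (r + 1)) i k ω + -1 * ph (c r) i (k / 2 ^ d) ω) B
        (m * 2 ^ (n r + d)) ω := by
    intro ω
    rw [SI_lin _ 1 (-1) _ (fun k => ph (c r) i (k / 2 ^ d))]
    unfold II
    rw [hd, ← SI_refine (n r) 0 a _ B ω _ d, pow_add, mul_assoc]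
    ring
  simp only [e]
  have hm := h.meas (r + 1)
  have hf := h.fast (r + 1)
  rw [hd] at hm hf
  have hK : ∀ k, Measurable[G (grid (n r + d) k)] fun ω =>
      1 * ph (c (r + 1)) i k ω + -1 * ph (c r) i (k / 2 ^ d) ω := fun k =>
    ((ph_meas (hm k) i).const_mul 1).add
      (((ph_meas (h.meas r _) i).mono (G.mono (grid_div_le _ _ _)) le_rfl).const_mul (-1))
  rw [isometry h.bm (pc_mono _ _ _) (fun k => (pc_le _ zero_le k).trans ha) (ad_pc hK 0 a)]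
  calc _ ≤ ∫⁻ ω, (ENNReal.ofReal (ee J (n r + d) (c (r + 1)) m ω) +
        ENNReal.ofReal (ee J (n r) (c r) m ω)) ∂ρ :=
        lintegral_mono fun ω => (ENNReal.ofReal_le_ofReal (sq_diff_le h.hJ _ _ _ _ i ha ω)).trans
          ENNReal.ofReal_add_le
    _ ≤ ENNReal.ofReal (N * (1 / 4) ^ (r + 1)) + ENNReal.ofReal (N * (1 / 4) ^ r) := by
        rw [lintegral_add_left
          (meas_ee h.hJ _ (fun k => (hm k).mono (G.le _) le_rfl) _).ennreal_ofReal]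
        exact add_le_add hf (h.fast r)
    _ ≤ _ := by
        rw [← ENNReal.ofReal_add (by positivity) (by positivity)]
        refine ENNReal.ofReal_le_ofReal ?_
        have : (0 : ℝ) ≤ N * (1 / 4) ^ r := by positivity
        rw [pow_succ]
        nlinarith

theorem One.tm_lim (h : One ρ G Y J μ j m n c) (i : Fin N) {a b : ℝ≥0} (hab : a ≤ b) (hb : b ≤ m)
    (ω : Ω) :
    Tendsto (fun r => II m (n r) (c r) i a b tm ω) atTop (𝓝 (DD J i b ω - DD J i a ω)) :=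
  tendsto_of_close (fun _ => II_tm_close h.hJ _ _ i hab hb ω) (h.conv ω)

theorem One.DD_lim (h : One ρ G Y J μ j m n c) {a b : ℝ≥0} (hab : a ≤ b) (hb : b ≤ m) (ω : Ω) :
    Tendsto (fun r => II m (n r) (c r) j a b (DD J j) ω) atTop (𝓝 (DD J j b ω - DD J j a ω)) :=
  tendsto_of_close (fun _ => II_DD_close h.hJ _ _ j hab hb ω) (h.conv ω)

theorem One.lim [IsFiniteMeasure ρ] (h : One ρ G Y J μ j m n c) (i : Fin N) {a : ℝ≥0}
    (ha : a ≤ m) :
    ∀ᵐ ω ∂ρ, Tendsto (fun r => zr μ Y m (n r) (c r) i a ω) atTop (𝓝 (zl μ Y m n c i a ω)) := by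
  filter_upwards [h.cauchy i ha] with ω ⟨l, hl⟩
  have h1 := tendsto_of_close (fun r => II_DD_close' h.hJ (n r) (c r) i j zero_le ha ω) (h.conv ω)
  refine tendsto_nhds_limUnder ⟨_, (((hl.add (h1.const_mul μ)).const_mul μ).sub
    ((h.tm_lim i zero_le ha ω).const_mul (μ ^ 2 / 2))).congr fun r => ?_⟩
  rw [II_sub]
  unfold zr
  ring

theorem lint_ind {A : Set Ω} (hA : MeasurableSet A) (f : Ω → ℝ≥0∞) :
    ∫⁻ ω, A.indicator (fun _ => 1) ω * f ω ∂ρ = ∫⁻ ω in A, f ω ∂ρ := by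
  rw [← lintegral_indicator hA]
  refine lintegral_congr fun ω => ?_
  by_cases h : ω ∈ A <;> simp [h]

theorem One.key [IsProbabilityMeasure ρ] (h : One ρ G Y J μ j m n c) {s t u : ℝ≥0} (hst : s ≤ t)
    (htu : t ≤ u) (hu : u ≤ m) (θ : ℝ) {A : Set Ω} (hA : MeasurableSet[G s] A) :
    Tendsto (fun r => ∫⁻ ω in A, ENNReal.ofReal (exp (ME (pc (n r) 0 s)
      (fun k ω => 0 - μ * ph (c r) j k ω) (fun t ω => Y t ω - μ * DD J j t ω) (m * 2 ^ n r) ω)) ∂ρ)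
      atTop (𝓝 (∫⁻ ω in A, ENNReal.ofReal (exp (θ * (Y t ω - Y s ω) - θ ^ 2 * ((t : ℝ) - s) / 2 -
        zl μ Y m n c j u ω)) ∂ρ)) := by
  set B : ℝ≥0 → Ω → ℝ := fun t ω => Y t ω - μ * DD J j t ω with hBdef
  have hK : ∀ (θ : ℝ) r k, Measurable[G (grid (n r) k)] fun ω => θ - μ * ph (c r) j k ω :=
    fun θ r k => ((ph_meas (h.meas r k) j).const_mul μ).const_sub θ
  have hb : ∀ (ϑ : ℝ), |ϑ| ≤ |θ| → ∀ r k ω, (ϑ - μ * ph (c r) j k ω) ^ 2 ≤ (|θ| + |μ|) ^ 2 := by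
    intro ϑ hϑ r k ω
    rw [← sq_abs]
    refine pow_le_pow_left₀ (abs_nonneg _) ((abs_sub _ _).trans (add_le_add hϑ ?_)) 2
    rw [abs_mul]
    exact mul_le_of_le_one_right (abs_nonneg _) (ph_abs _ _ _ _)
  set E : ℕ → Ω → ℝ := fun r ω =>
    ME (pc (n r) 0 s) (fun k ω => 0 - μ * ph (c r) j k ω) B (m * 2 ^ n r) ω +
    ME (pc (n r) s t) (fun k ω => θ - μ * ph (c r) j k ω) B (m * 2 ^ n r) ω +
    ME (pc (n r) t u) (fun k ω => 0 - μ * ph (c r) j k ω) B (m * 2 ^ n r) ω with hE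
  have hME : ∀ r a b (θ : ℝ), Measurable
      (ME (pc (n r) a b) (fun k ω => θ - μ * ph (c r) j k ω) B (m * 2 ^ n r)) := fun r a b θ =>
    (ME_meas (pc_mono _ _ _) (ad_pc (hK θ r) _ _) h.bm.meas _).mono (G.le _) le_rfl
  have mE : ∀ r, Measurable (E r) := fun r => ((hME r _ _ _).add (hME r _ _ _)).add (hME r _ _ _)
  have hA' : MeasurableSet A := G.le _ _ hA
  have e1 : ∀ r, ∫⁻ ω in A, ENNReal.ofReal (exp (ME (pc (n r) 0 s)
      (fun k ω => 0 - μ * ph (c r) j k ω) B (m * 2 ^ n r) ω)) ∂ρ =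
      ∫⁻ ω in A, ENNReal.ofReal (exp (E r ω)) ∂ρ := by
    intro r
    have := three_phase h.bm (m * 2 ^ n r) (hK 0 r) (hK θ r) (hK 0 r) hst htu hu
      (g := A.indicator fun _ => 1) (measurable_const.indicator hA)
    rw [lint_ind hA', lint_ind hA'] at this
    exact this.symm
  have hsq : ∀ r, ∫⁻ ω in A, ENNReal.ofReal (exp (E r ω) ^ 2) ∂ρ ≤
      ENNReal.ofReal (exp (3 * ((|θ| + |μ|) ^ 2 * (m : ℝ≥0)))) := fun r =>
    (setLIntegral_le_lintegral _ _).trans (three_phase_sq h.bm (m * 2 ^ n r) (hK 0 r) (hK θ r)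
      (hK 0 r) hst htu hu (sq_nonneg _) (hb 0 (by simp) r) (hb θ le_rfl r) (hb 0 (by simp) r))
  have hlim : ∀ᵐ ω ∂ρ, Tendsto (fun r => exp (E r ω)) atTop (𝓝 (exp (θ * (Y t ω - Y s ω) -
      θ ^ 2 * ((t : ℝ) - s) / 2 - zl μ Y m n c j u ω))) := by
    filter_upwards [h.lim j hu] with ω hω
    refine (Real.continuous_exp.tendsto _).comp ?_
    have h1 := ((((h.tm_lim j hst (htu.trans hu) ω).const_mul (θ * μ)).add_const
      (θ * (B t ω - B s ω) - θ ^ 2 * ((t : ℝ) - s) / 2)).sub hω).add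
      (((h.DD_lim zero_le hu ω).sub (h.tm_lim j zero_le hu ω)).const_mul (μ ^ 2))
    convert h1 using 2 with r
    · simp only [hE]
      rw [ME_ph _ _ j zero_le (hst.trans (htu.trans hu)), ME_ph _ _ j hst (htu.trans hu),
        ME_ph _ _ j htu hu]
      have e2 := II_sub m (n r) (c r) j 0 u μ Y (DD J j) ω
      rw [← hBdef, II_split _ _ _ j zero_le htu B, II_split _ _ _ j zero_le hst B] at e2
      have e3 := II_split m (n r) (c r) j zero_le htu tm ω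
      rw [II_split _ _ _ j zero_le hst tm] at e3
      unfold zr
      linear_combination (-μ) * e2 + μ ^ 2 / 2 * e3
    · simp only [hBdef]
      ring
  obtain ⟨hi, ht⟩ := tendsto_integral_L2 (ρ := ρ.restrict A)
    (fun r => (mE r).exp.aestronglyMeasurable) hsq (ae_restrict_of_ae hlim)
  simp only [e1]
  rw [← ofReal_integral_eq_lintegral_ofReal hi (Eventually.of_forall fun _ => (exp_pos _).le)]
  refine (ENNReal.tendsto_ofReal ht).congr fun r => ?_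
  exact ofReal_integral_eq_lintegral_ofReal (trunc_aux (mE r).exp.aestronglyMeasurable
    (exp_pos _).le (hsq r)).1 (Eventually.of_forall fun _ => (exp_pos _).le)

/-- the reference measure -/
noncomputable def QQ (ρ : Measure Ω) (μ : ℝ) (Y : ℝ≥0 → Ω → ℝ) (m : ℕ) (n : ℕ → ℕ)
    (c : ℕ → ℕ → Ω → Fin N) (j : Fin N) : Measure Ω :=
  ρ.withDensity fun ω => ENNReal.ofReal (exp (-zl μ Y m n c j m ω))

theorem One.key' [IsProbabilityMeasure ρ] (h : One ρ G Y J μ j m n c) {s t : ℝ≥0} (hst : s ≤ t)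
    (ht : t ≤ m) (θ : ℝ) {A : Set Ω} (hA : MeasurableSet[G s] A) :
    ∫⁻ ω in A, ENNReal.ofReal (exp (θ * (Y t ω - Y s ω) - θ ^ 2 * ((t : ℝ) - s) / 2 -
      zl μ Y m n c j m ω)) ∂ρ = ∫⁻ ω in A, ENNReal.ofReal (exp (-zl μ Y m n c j s ω)) ∂ρ := by
  have := tendsto_nhds_unique (h.key hst ht le_rfl θ hA) (h.key le_rfl le_rfl (hst.trans ht) 0 hA)
  simpa using this

theorem One.QQ_apply [IsProbabilityMeasure ρ] (h : One ρ G Y J μ j m n c) {s : ℝ≥0}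
    (hs : s ≤ m) {A : Set Ω} (hA : MeasurableSet[G s] A) :
    QQ ρ μ Y m n c j A = ∫⁻ ω in A, ENNReal.ofReal (exp (-zl μ Y m n c j s ω)) ∂ρ := by
  rw [QQ, withDensity_apply _ (G.le _ _ hA), ← h.key' le_rfl hs 0 hA]
  simp

theorem One.prob [IsProbabilityMeasure ρ] (h : One ρ G Y J μ j m n c) :
    IsProbabilityMeasure (QQ ρ μ Y m n c j) :=
  ⟨by rw [h.QQ_apply zero_le (@MeasurableSet.univ _ (G 0))]; simp [zl_zero]⟩

theorem One.bmQ [IsProbabilityMeasure ρ] (h : One ρ G Y J μ j m n c) :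
    BMon (QQ ρ μ Y m n c j) G Y m := by
  have := h.prob
  refine ⟨h.hY, fun s t hst ht A hA => ?_⟩
  have hA' : MeasurableSet A := G.le _ _ hA
  have hX : Measurable fun ω => Y t ω - Y s ω :=
    ((h.hY t).mono (G.le _) le_rfl).sub ((h.hY s).mono (G.le _) le_rfl)
  have hz : Measurable (zl μ Y m n c j m) := (zl_meas h.meas μ h.hY m j m).mono (G.le _) le_rfl
  rw [map_eq_of_mgf hX (t - s) fun θ => ?_, Measure.restrict_apply_univ]
  rw [integral_eq_lintegral_of_nonneg_ae (Eventually.of_forall fun _ => (exp_pos _).le)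
    (hX.const_mul θ).exp.aestronglyMeasurable, Measure.real, Measure.restrict_apply_univ,
    h.QQ_apply (hst.trans ht) hA, ← h.key' hst ht θ hA, QQ, restrict_withDensity hA',
    lintegral_withDensity_eq_lintegral_mul _ (by fun_prop) (by fun_prop),
    ← ENNReal.toReal_ofReal (exp_pos (θ ^ 2 * (t - s : ℝ≥0) / 2)).le, ← ENNReal.toReal_mul,
    ← lintegral_mul_const _ (by fun_prop)]
  congr 1
  refine lintegral_congr fun ω => ?_
  rw [Pi.mul_apply, ← ENNReal.ofReal_mul (exp_pos _).le, ← ENNReal.ofReal_mul (exp_pos _).le,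
    ← Real.exp_add, ← Real.exp_add, NNReal.coe_sub hst]
  congr 2
  ring

theorem One.dens [IsProbabilityMeasure ρ] (h : One ρ G Y J μ j m n c) {s : ℝ≥0}
    (hs : s ≤ m) {A : Set Ω} (hA : MeasurableSet[G s] A) :
    ρ A = ∫⁻ ω in A, ENNReal.ofReal (exp (zl μ Y m n c j s ω)) ∂QQ ρ μ Y m n c j := by
  have hz := zl_meas h.meas μ h.hY m j s
  have hz' : Measurable[G s] fun ω => ENNReal.ofReal (exp (-zl μ Y m n c j s ω)) :=
    hz.neg.exp.ennreal_ofReal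
  have e : (QQ ρ μ Y m n c j).trim (G.le s) = @Measure.withDensity _ (G s) (ρ.trim (G.le s))
      fun ω => ENNReal.ofReal (exp (-zl μ Y m n c j s ω)) := by
    refine @Measure.ext _ (G s) _ _ fun B hB => ?_
    rw [trim_measurableSet_eq _ hB, h.QQ_apply hs hB, withDensity_apply _ hB,
      setLIntegral_trim _ hz' hB]
  rw [← setLIntegral_trim (G.le s) hz.exp.ennreal_ofReal hA, e, ← trim_measurableSet_eq (G.le s) hA]
  let _ : MeasurableSpace Ω := G s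
  rw [restrict_withDensity hA, lintegral_withDensity_eq_lintegral_mul _ hz'
    hz.exp.ennreal_ofReal]
  simp only [Pi.mul_apply, ← ENNReal.ofReal_mul (exp_pos _).le, ← Real.exp_add]
  simp

end Pool.Agent.MP_96872c_an
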