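import Pool.Agent.MP_96872c_an.BM

open Finset Real MeasureTheory ProbabilityTheory Filter Topology
open scoped NNReal ENNReal

namespace Pool.Agent.MP_96872c_an

variable {Ω : Type}

noncomputable def grid (n k : ℕ) : ℝ≥0 := (k : ℝ≥0) / 2 ^ n

theorem grid_coe (n k : ℕ) : (grid n k : ℝ) = k / 2 ^ n := by simp [grid]

theorem grid_mono (n : ℕ) : Monotone (grid n) := fun a b h => by
  rw [← NNReal.coe_le_coe, grid_coe, grid_coe]
  exact div_le_div_of_nonneg_right (by exact_mod_cast h) (by positivity)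

theorem grid_zero (n : ℕ) : grid n 0 = 0 := by simp [grid]

theorem grid_mul_pow (n d k : ℕ) : grid (n + d) (k * 2 ^ d) = grid n k := by
  rw [← NNReal.coe_inj, grid_coe, grid_coe]
  push_cast
  rw [pow_add]
  field_simp

theorem grid_nat (n m : ℕ) : grid n (m * 2 ^ n) = m := by
  have := grid_mul_pow 0 n m
  rw [zero_add] at this
  rw [this]; simp [grid]

theorem grid_succ (n k : ℕ) : (grid n (k + 1) : ℝ) - grid n k = 1 / 2 ^ n := by
  rw [grid_coe, grid_coe]; push_cast; ring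

theorem grid_succ' (n k : ℕ) : grid n (k + 1) - grid n k = grid n 1 := by
  rw [← NNReal.coe_inj, NNReal.coe_sub (grid_mono n (Nat.le_succ k)), grid_succ, grid_coe]
  simp

/-- grid clamped to `[a, b]` -/
noncomputable def pc (n : ℕ) (a b : ℝ≥0) (k : ℕ) : ℝ≥0 := max a (min (grid n k) b)

theorem pc_mono (n : ℕ) (a b : ℝ≥0) : Monotone (pc n a b) := fun _ _ h =>
  max_le_max le_rfl (min_le_min (grid_mono n h) le_rfl)

theorem pc_le (n : ℕ) {a b : ℝ≥0} (h : a ≤ b) (k : ℕ) : pc n a b k ≤ b :=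
  max_le h (min_le_right _ _)

theorem pc_zero (n : ℕ) (a b : ℝ≥0) : pc n a b 0 = a := by simp [pc, grid_zero]

theorem pc_top {n m : ℕ} {a b : ℝ≥0} (h : a ≤ b) (hm : b ≤ grid n m) : pc n a b m = b := by
  simp [pc, min_eq_right hm, h]

theorem pc_lt {n k : ℕ} {a b : ℝ≥0} (h : pc n a b k < pc n a b (k + 1)) :
    grid n k ≤ pc n a b k ∧ pc n a b (k + 1) ≤ grid n (k + 1) := by
  have h1 := grid_mono n (Nat.le_succ k)
  simp only [Nat.succ_eq_add_one] at h1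
  unfold pc at *
  constructor
  · rcases le_total (grid n k) b with h2 | h2
    · rw [min_eq_left h2]; exact le_max_right _ _
    · rw [min_eq_right h2, min_eq_right (h2.trans h1)] at h; exact absurd h (lt_irrefl _)
  · rcases le_total a (grid n (k + 1)) with h2 | h2
    · exact max_le h2 (min_le_left _ _)
    · rw [max_eq_left ((min_le_left _ _).trans h2)] at h
      exact absurd h (not_lt.2 (le_max_left _ _))

theorem ad_pc {mΩ : MeasurableSpace Ω} {G : Filtration ℝ≥0 mΩ} {n : ℕ} {K : ℕ → Ω → ℝ}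
    (hK : ∀ k, Measurable[G (grid n k)] (K k)) (a b : ℝ≥0) : Ad G (pc n a b) K :=
  fun k hk => (hK k).mono (G.mono (pc_lt hk).1) le_rfl

theorem SI_split (n : ℕ) {a b c : ℝ≥0} (hab : a ≤ b) (hbc : b ≤ c) (K : ℕ → Ω → ℝ)
    (Z : ℝ≥0 → Ω → ℝ) (m : ℕ) (ω : Ω) :
    SI (pc n a c) K Z m ω = SI (pc n a b) K Z m ω + SI (pc n b c) K Z m ω := by
  have key : ∀ k, Z (pc n a c k) ω = Z (pc n a b k) ω + Z (pc n b c k) ω - Z b ω := by
    intro k
    unfold pc
    rcases le_total (grid n k) b with h | h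
    · rw [min_eq_left h, min_eq_left (h.trans hbc), max_eq_left h]; ring
    · rw [min_eq_right h, max_eq_right hab, max_eq_right (le_min h hbc),
        max_eq_right (hab.trans (le_min h hbc))]; ring
  simp only [SI, ← sum_add_distrib, key]
  exact sum_congr rfl fun k _ => by ring

theorem SI_const (p : ℕ → ℝ≥0) (θ : ℝ) (Z : ℝ≥0 → Ω → ℝ) (m : ℕ) (ω : Ω) :
    SI p (fun _ _ => θ) Z m ω = θ * (Z (p m) ω - Z (p 0) ω) := by
  simp only [SI, ← mul_sum]
  rw [sum_range_sub (fun k => Z (p k) ω)]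

theorem SI_lin (p : ℕ → ℝ≥0) (α β : ℝ) (K K' : ℕ → Ω → ℝ) (Z : ℝ≥0 → Ω → ℝ) (m : ℕ) (ω : Ω) :
    SI p (fun k ω => α * K k ω + β * K' k ω) Z m ω = α * SI p K Z m ω + β * SI p K' Z m ω := by
  simp only [SI, mul_sum, ← sum_add_distrib]
  exact sum_congr rfl fun k _ => by ring

theorem SI_linZ (p : ℕ → ℝ≥0) (α β : ℝ) (K : ℕ → Ω → ℝ) (Z Z' : ℝ≥0 → Ω → ℝ) (m : ℕ) (ω : Ω) :
    SI p K (fun t ω => α * Z t ω + β * Z' t ω) m ω = α * SI p K Z m ω + β * SI p K Z' m ω := by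
  simp only [SI, mul_sum, ← sum_add_distrib]
  exact sum_congr rfl fun k _ => by ring

theorem SI_refine1 (n : ℕ) (a b : ℝ≥0) (K : ℕ → Ω → ℝ) (Z : ℝ≥0 → Ω → ℝ) (ω : Ω) (m : ℕ) :
    SI (pc (n + 1) a b) (fun k => K (k / 2)) Z (m * 2) ω = SI (pc n a b) K Z m ω := by
  have key : ∀ k, pc (n + 1) a b (k * 2) = pc n a b k := fun k => by
    have := grid_mul_pow n 1 k
    rw [pow_one] at this
    simp only [pc, this]
  induction m with
  | zero => simp [SI]
  | succ m ih =>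
    have e : (m + 1) * 2 = m * 2 + 1 + 1 := by ring
    rw [SI_succ, ← ih, ← key, ← key, e, SI_succ, SI_succ]
    have e1 : m * 2 / 2 = m := by omega
    have e2 : (m * 2 + 1) / 2 = m := by omega
    simp only [e1, e2]
    ring

theorem SI_refine (n : ℕ) (a b : ℝ≥0) (K : ℕ → Ω → ℝ) (Z : ℝ≥0 → Ω → ℝ) (ω : Ω) (m d : ℕ) :
    SI (pc (n + d) a b) (fun k => K (k / 2 ^ d)) Z (m * 2 ^ d) ω = SI (pc n a b) K Z m ω := by
  induction d with
  | zero => simp
  | succ d ih =>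
    rw [← ih, ← SI_refine1 (n + d), pow_succ, mul_assoc]
    congr 1
    funext k
    rw [Nat.div_div_eq_div_mul, mul_comm]

theorem floor_refine (n d : ℕ) (s : ℝ) : ⌊s * 2 ^ (n + d)⌋₊ / 2 ^ d = ⌊s * 2 ^ n⌋₊ := by
  rw [← Nat.floor_div_natCast]
  congr 1
  push_cast
  rw [pow_add]
  field_simp

theorem grid_div_le (n d k : ℕ) : grid n (k / 2 ^ d) ≤ grid (n + d) k := by
  rw [← grid_mul_pow n d]
  exact grid_mono _ (Nat.div_mul_le_self _ _)

theorem meas_step (n : ℕ) (c : ℕ → ℝ) : Measurable fun s : ℝ => c ⌊s * 2 ^ n⌋₊ :=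
  (measurable_from_nat (f := c)).comp (Nat.measurable_floor.comp (by fun_prop))

theorem ii_bdd {f : ℝ → ℝ} (hf : Measurable f) {C : ℝ} (hb : ∀ s, |f s| ≤ C) (a b : ℝ) :
    IntervalIntegrable f volume a b := by
  refine (intervalIntegrable_const (c := C)).mono_fun' hf.aestronglyMeasurable
    (Eventually.of_forall fun s => hb s)

theorem SI_integral {n m : ℕ} {a b : ℝ≥0} (hab : a ≤ b) (hm : b ≤ grid n m) {K : ℕ → Ω → ℝ}
    {Z : ℝ≥0 → Ω → ℝ} {ω : Ω} {ψ : ℝ → ℝ} (hψ : Measurable ψ) (hψb : ∀ s, |ψ s| ≤ 1) {C : ℝ}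
    (hK : ∀ k, |K k ω| ≤ C) (hZ : ∀ t : ℝ≥0, Z t ω = ∫ s in (0 : ℝ)..t, ψ s) :
    SI (pc n a b) K Z m ω = ∫ s in (a : ℝ)..b, K ⌊s * 2 ^ n⌋₊ ω * ψ s := by
  have hi : ∀ x y : ℝ, IntervalIntegrable (fun s => K ⌊s * 2 ^ n⌋₊ ω * ψ s) volume x y :=
    ii_bdd ((meas_step n fun k => K k ω).mul hψ) (C := C) fun s => by
      rw [abs_mul]
      calc _ ≤ C * 1 := mul_le_mul (hK _) (hψb s) (abs_nonneg _) ((abs_nonneg _).trans (hK 0))
        _ = C := mul_one C
  have h1 := intervalIntegral.sum_integral_adjacent_intervals (μ := volume)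
    (f := fun s => K ⌊s * 2 ^ n⌋₊ ω * ψ s) (a := fun k => (pc n a b k : ℝ)) (n := m)
    fun k _ => hi _ _
  simp only [pc_zero, pc_top hab hm] at h1
  rw [← h1]
  refine sum_congr rfl fun k _ => ?_
  rw [hZ, hZ, intervalIntegral.integral_interval_sub_left (ii_bdd hψ hψb _ _) (ii_bdd hψ hψb _ _),
    ← intervalIntegral.integral_const_mul]
  have hle := pc_mono n a b (Nat.le_succ k)
  rcases hle.lt_or_eq with h | h
  · obtain ⟨h2, h3⟩ := pc_lt h
    have hle' : (pc n a b k : ℝ) ≤ pc n a b (k + 1) := NNReal.coe_le_coe.2 hle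
    rw [intervalIntegral.integral_of_le hle', intervalIntegral.integral_of_le hle',
      integral_Ioc_eq_integral_Ioo, integral_Ioc_eq_integral_Ioo]
    refine setIntegral_congr_fun measurableSet_Ioo fun s hs => ?_
    have h4 : (k : ℝ) / 2 ^ n ≤ s := by
      rw [← grid_coe]; exact (NNReal.coe_le_coe.2 h2).trans hs.1.le
    have h5 : s < ((k + 1 : ℕ) : ℝ) / 2 ^ n := by
      rw [← grid_coe]; exact hs.2.trans_le (NNReal.coe_le_coe.2 h3)
    rw [div_le_iff₀ (by positivity)] at h4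
    rw [lt_div_iff₀ (by positivity)] at h5
    have : ⌊s * 2 ^ n⌋₊ = k := by
      rw [Nat.floor_eq_iff ((Nat.cast_nonneg k).trans h4)]
      exact ⟨h4, by exact_mod_cast h5⟩
    simp only [this]
  · simp only [Nat.succ_eq_add_one] at h
    simp [← h]

theorem SI_time {n m : ℕ} {a b : ℝ≥0} (hab : a ≤ b) (hm : b ≤ grid n m) {K : ℕ → Ω → ℝ}
    {ω : Ω} {C : ℝ} (hK : ∀ k, |K k ω| ≤ C) :
    SI (pc n a b) K tm m ω = ∫ s in (a : ℝ)..b, K ⌊s * 2 ^ n⌋₊ ω := by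
  simpa using SI_integral (Z := tm) (ψ := fun _ => 1) hab hm measurable_const (by simp) hK
    (by simp [tm])

theorem SI_grid (n : ℕ) {k m : ℕ} (hk : k ≤ m) (K : ℕ → Ω → ℝ) (Z : ℝ≥0 → Ω → ℝ) (ω : Ω) :
    SI (pc n 0 (grid n k)) K Z m ω =
      ∑ l ∈ range k, K l ω * (Z (grid n (l + 1)) ω - Z (grid n l) ω) := by
  unfold SI
  rw [← sum_range_add_sum_Ico _ hk]
  have h1 : ∀ l ≤ k, pc n 0 (grid n k) l = grid n l := fun l hl => by
    simp [pc, min_eq_left (grid_mono n hl)]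
  have h2 : ∀ l, k ≤ l → pc n 0 (grid n k) l = grid n k := fun l hl => by
    simp [pc, min_eq_right (grid_mono n hl)]
  rw [sum_eq_zero (s := Ico k m) fun l hl => by
    rw [h2 l (mem_Ico.1 hl).1, h2 (l + 1) ((mem_Ico.1 hl).1.trans (Nat.le_succ l))]; simp, add_zero]
  exact sum_congr rfl fun l hl => by
    rw [h1 l (mem_range.1 hl).le, h1 (l + 1) (mem_range.1 hl)]

theorem SI_time_le {n m : ℕ} {a b : ℝ≥0} (hab : a ≤ b) {K : ℕ → Ω → ℝ} {ω : Ω} {C : ℝ}
    (hC : 0 ≤ C) (hK : ∀ k, K k ω ≤ C) : SI (pc n a b) K tm m ω ≤ C * b := by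
  have h1 : SI (pc n a b) K tm m ω ≤ SI (pc n a b) (fun _ _ => C) tm m ω :=
    sum_le_sum fun k _ => mul_le_mul_of_nonneg_right (hK k)
      (sub_nonneg.2 (NNReal.coe_le_coe.2 (pc_mono n a b (Nat.le_succ k))))
  rw [SI_const] at h1
  refine h1.trans (mul_le_mul_of_nonneg_left ?_ hC)
  have h2 : (pc n a b m : ℝ) ≤ b := NNReal.coe_le_coe.2 (pc_le n hab m)
  have h3 : (0 : ℝ) ≤ pc n a b 0 := NNReal.coe_nonneg _
  simp only [tm]
  linarith

end Pool.Agent.MP_96872c_an
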