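import Pool.Agent.MP_96872c_an.Stop

open Finset Real MeasureTheory ProbabilityTheory Filter Topology
open scoped NNReal ENNReal

namespace Pool.Agent.MP_96872c_an

variable {N : ℕ} {μ : ℝ} {Ω : Type} [mΩ : MeasurableSpace Ω] {P : Measure Ω}
  [IsProbabilityMeasure P] (S : Search N μ P)

omit [IsProbabilityMeasure P] in
theorem Search.st_measurable (p : ℝ) (l M : ℕ) : Measurable (st (S.hit p l) M) :=
  measurable_to_countable' fun k => (Gd S.G l).le k _ (st_eq_meas (S.hit_meas p l) M k)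

theorem Search.lower1 (hN : 2 ≤ N) (hμ : 0 < μ) {p : ℝ} (hp : p ∈ Set.Ico (1 / N : ℝ) 1) {m : ℕ}
    (hm : 0 < m) (l : ℕ) : (AA N p - AA N (1 / N)) / (μ ^ 2 / 2 + (AA N p - AA N (1 / N)) / m) ≤
      ∫ ω, (grid l (st (S.hit p l) (m * 2 ^ l) ω) : ℝ) ∂P := by
  have h0 : (1 / N : ℝ) ∈ Set.Ico (1 / N : ℝ) 1 := ⟨le_rfl, hp.1.trans_lt hp.2⟩
  set Δ := AA N p - AA N (1 / N) with hΔ
  have hΔ0 : 0 ≤ Δ := sub_nonneg.2 (AA_mono hN h0 hp hp.1)
  have hm' : (0 : ℝ) < m := by exact_mod_cast hm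
  have i1 := (S.time_eq p l (m * 2 ^ l)).1
  have i2 : Integrable (fun ω => AA N (1 / N) + Δ -
      Δ / m * (grid l (st (S.hit p l) (m * 2 ^ l) ω) : ℝ)) P :=
    (integrable_const _).sub (i1.const_mul _)
  have h1 := (integral_mono_ae i2 (S.stop_eq hN p l (m * 2 ^ l)).1 ?_).trans
    (S.stop_le hN p l (m * 2 ^ l))
  · rw [integral_sub (integrable_const _) (i1.const_mul _), integral_const_mul] at h1
    simp only [integral_const, probReal_univ, smul_eq_mul, one_mul] at h1
    rw [div_le_iff₀ (by positivity)]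
    linarith
  · filter_upwards [S.good hN] with ω hω
    obtain ⟨i0, a1, a2, a3⟩ := hω l (st (S.hit p l) (m * 2 ^ l) ω)
    rcases st_spec (S.hit p l) (m * 2 ^ l) ω with h | ⟨i, hi⟩
    · have := (AA_mono hN h0 a2 a2.1).trans a3
      rw [h, grid_nat] at this ⊢
      rw [NNReal.coe_natCast, div_mul_cancel₀ _ hm'.ne']
      linarith
    · have h2 := AA_mono hN hp a2 (hi.trans (a1 i))
      have : 0 ≤ Δ / m * (grid l (st (S.hit p l) (m * 2 ^ l) ω) : ℝ) := by positivity
      linarith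

theorem Search.lower2 (hN : 2 ≤ N) (hμ : 0 < μ) {p ε : ℝ} (hp : p ∈ Set.Ico (1 / N : ℝ) 1)
    (hpε : p < 1 - ε) {m : ℕ} (hm : 0 < m) :
    ENNReal.ofReal ((AA N p - AA N (1 / N)) / (μ ^ 2 / 2 + (AA N p - AA N (1 / N)) / m)) ≤
      S.cost ε := by
  have h1 := limsup_lintegral_le (μ := P)
    (f := fun l ω => (grid l (st (S.hit p l) (m * 2 ^ l) ω) : ℝ≥0∞)) (fun _ => (m : ℝ≥0))
    (fun l => (measurable_from_nat (f := fun k => (grid l k : ℝ≥0∞))).comp (S.st_measurable _ _ _))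
    (fun l => Eventually.of_forall fun ω => ENNReal.coe_le_coe.2 (grid_le (st_le _ _ _))) (by simp)
  refine (le_limsup_of_frequently_le' (Frequently.of_forall fun l => ?_)).trans
    (h1.trans (lintegral_mono_ae ?_))
  · refine (ENNReal.ofReal_le_ofReal (S.lower1 hN hμ hp hm l)).trans (le_of_eq ?_)
    rw [ofReal_integral_eq_lintegral_ofReal (S.time_eq p l _).1
      (Eventually.of_forall fun _ => NNReal.coe_nonneg _)]
    simp only [ENNReal.ofReal_coe_nnreal]
  · filter_upwards [S.post_grid, S.post_cont] with ω h2 h3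
    refine le_iInf₂ fun t ⟨i, hi⟩ => limsup_le_of_le (by isBoundedDefault) ?_
    have h4 := ((h3 i).tendsto _).comp (tendsto_grid strictMono_id t.coe_nonneg)
    rw [Real.toNNReal_coe] at h4
    filter_upwards [h4.eventually (lt_mem_nhds (hpε.trans_le hi))] with l hl
    simp only [Function.comp, id, h2] at hl
    rw [ENNReal.coe_le_coe]
    refine (grid_mono l (st_le_of (H := S.hit p l) _ ⟨i, hl.le⟩)).trans ?_
    rw [← NNReal.coe_le_coe, grid_coe, div_le_iff₀ (by positivity)]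
    exact Nat.floor_le (by positivity)

theorem tendsto_AA (hN : 2 ≤ N) (μ : ℝ) {p : ℝ} (hp : 1 / N < p) (h1 : p < 1) (s : Set ℝ) :
    Tendsto (fun q => ENNReal.ofReal (2 / μ ^ 2 * (AA N q - AA N (1 / N)))) (𝓝[s] p)
      (𝓝 (ENNReal.ofReal (2 / μ ^ 2 * (AA N p - AA N (1 / N))))) :=
  ENNReal.tendsto_ofReal ((((AA_cont hN (lt_trans (by positivity) hp) h1).tendsto.mono_left
    nhdsWithin_le_nhds).sub_const _).const_mul _)

theorem Search.lower (hN : 2 ≤ N) (hμ : 0 < μ) {ε : ℝ} (hε : 0 < ε) (h : 1 / N < 1 - ε) :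
    ENNReal.ofReal (2 / μ ^ 2 * (AA N (1 - ε) - AA N (1 / N))) ≤ S.cost ε := by
  refine le_of_tendsto (tendsto_AA hN μ h (by linarith) (Set.Iio (1 - ε))) ?_
  filter_upwards [Ioo_mem_nhdsLT h] with p hp
  have h1 := ENNReal.tendsto_ofReal ((tendsto_const_nhds (x := AA N p - AA N (1 / N))).div
    ((tendsto_const_div_atTop_nhds_zero_nat (AA N p - AA N (1 / N))).const_add (μ ^ 2 / 2))
    (by positivity))
  refine (le_of_eq ?_).trans (le_of_tendsto h1 ((eventually_gt_atTop 0).mono fun m hm =>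
    S.lower2 hN hμ ⟨hp.1.le, by linarith [hp.2]⟩ hp.2 hm))
  congr 1
  field_simp
  ring

/-- overshoot event -/
def Search.over (p q : ℝ) (l M : ℕ) : Set Ω :=
  ⋃ k ∈ range (M + 1), {ω | st (S.hit p l) M ω = k} ∩ {ω | ∃ i, q < S.cE i (grid l k) ω}

omit [IsProbabilityMeasure P] in
theorem Search.over_meas (p q : ℝ) (l M k : ℕ) : MeasurableSet[S.G (grid l k)]
    ({ω | st (S.hit p l) M ω = k} ∩ {ω | ∃ i, q < S.cE i (grid l k) ω}) := by
  refine (st_eq_meas (S.hit_meas p l) M k).inter ?_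
  rw [Set.ofPred_exists]
  exact MeasurableSet.iUnion fun i => S.mcE i _ measurableSet_Ioi

theorem Search.upper1 (hN : 2 ≤ N) (hμ : 0 < μ) (hF : S.IsFTL) (p : ℝ) {q : ℝ}
    (hq : q ∈ Set.Ico (1 / N : ℝ) 1) (l M : ℕ) :
    μ ^ 2 / 2 * ∫ ω, (grid l (st (S.hit p l) M ω) : ℝ) ∂P ≤ AA N q - AA N (1 / N) +
      ∫ ω in S.over p q l M, |S.U (grid l M) ω - AA N q| ∂P := by
  have hm : ∀ k, MeasurableSet ({ω | st (S.hit p l) M ω = k} ∩
      {ω | ∃ i, q < S.cE i (grid l k) ω}) := fun k => S.G.le _ _ (S.over_meas p q l M k)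
  have hE : MeasurableSet (S.over p q l M) := Finset.measurableSet_biUnion _ fun k _ => hm k
  have hd : Set.Pairwise (↑(range (M + 1))) (Function.onFun Disjoint fun k =>
      {ω | st (S.hit p l) M ω = k} ∩ {ω | ∃ i, q < S.cE i (grid l k) ω}) :=
    fun k _ k' _ h => Set.disjoint_left.2 fun ω h1 h2 => h (h1.1.symm.trans h2.1)
  have i1 : Integrable (fun ω => S.U (grid l (st (S.hit p l) M ω)) ω - AA N q) P :=
    (S.stop_eq hN p l M).1.sub (integrable_const _)
  have i2 : Integrable (fun ω => S.U (grid l M) ω - AA N q) P :=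
    (S.intU hN l M).sub (integrable_const _)
  have h1 : ∫ ω in S.over p q l M, (S.U (grid l (st (S.hit p l) M ω)) ω - AA N q) ∂P ≤
      ∫ ω in S.over p q l M, (S.U (grid l M) ω - AA N q) ∂P := by
    unfold Search.over
    rw [integral_biUnion_finset _ (fun k _ => hm k) hd fun k _ => i1.integrableOn,
      integral_biUnion_finset _ (fun k _ => hm k) hd fun k _ => i2.integrableOn]
    refine sum_le_sum fun k hk => ?_
    have hk' := Nat.lt_succ_iff.1 (mem_range.1 hk)
    rw [setIntegral_congr_fun (hm k) (g := fun ω => S.U (grid l k) ω - AA N q) fun ω hω => by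
      simp only [show st (S.hit p l) M ω = k from hω.1],
      integral_sub (S.intU hN l k).integrableOn (integrable_const _),
      integral_sub (S.intU hN l M).integrableOn (integrable_const _)]
    have h2 := S.I2 hN hμ hF hk' (S.over_meas p q l M k)
    have h3 : (0 : ℝ) ≤ (grid l M : ℝ) - grid l k :=
      sub_nonneg.2 (NNReal.coe_le_coe.2 (grid_mono l hk'))
    have h4 : 0 ≤ μ ^ 2 * ((grid l M : ℝ) - grid l k) / 2 * P.real ({ω | st (S.hit p l) M ω = k} ∩
      {ω | ∃ i, q < S.cE i (grid l k) ω}) := by positivity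
    linarith
  have h2 : ∫ ω in (S.over p q l M)ᶜ, (S.U (grid l (st (S.hit p l) M ω)) ω - AA N q) ∂P ≤ 0 := by
    refine setIntegral_nonpos_ae hE.compl ?_
    filter_upwards [S.good' hN hμ hF] with ω hω h
    obtain ⟨i, a1, a2⟩ := hω l (st (S.hit p l) M ω)
    rw [a2, sub_nonpos]
    refine AA_mono hN a1 hq (not_lt.1 fun h' => h ?_)
    exact Set.mem_biUnion (mem_coe.2 (mem_range.2 (Nat.lt_succ_of_le (st_le _ M ω)))) ⟨rfl, i, h'⟩
  have h3 := integral_add_compl hE i1
  rw [integral_sub (S.stop_eq hN p l M).1 (integrable_const _)] at h3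
  simp only [integral_const, probReal_univ, smul_eq_mul, one_mul] at h3
  have h4 : ∫ ω in S.over p q l M, (S.U (grid l M) ω - AA N q) ∂P ≤
      ∫ ω in S.over p q l M, |S.U (grid l M) ω - AA N q| ∂P :=
    integral_mono i2.integrableOn i2.abs.integrableOn fun _ => le_abs_self _
  linarith [S.stop_ge hN hμ hF p l M]

theorem Search.over_lim (hN : 2 ≤ N) {p q : ℝ} (hp : 1 / N < p) (hpq : p < q) (m : ℕ) :
    ∀ᵐ ω ∂P, ∀ᶠ l in atTop, ω ∉ S.over p q l (m * 2 ^ l) := by
  filter_upwards [S.post_grid, S.post_cont, S.at_zero hN] with ω h1 h2 h3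
  have h4 : ∀ i, ∀ᶠ l : ℕ in atTop, ∀ k, k + 1 ≤ m * 2 ^ l →
      S.post i (grid l (k + 1)) ω - S.post i (grid l k) ω < q - p := by
    intro i
    obtain ⟨δ, hδ, h5⟩ := Metric.uniformContinuousOn_iff.1
      ((isCompact_Icc (a := (0 : ℝ≥0)) (b := m)).uniformContinuousOn_of_continuous
        (h2 i).continuousOn) (q - p) (sub_pos.2 hpq)
    filter_upwards [((tendsto_pow_atTop_atTop_of_one_lt one_lt_two).const_div_atTop
      (1 : ℝ)).eventually (gt_mem_nhds hδ)] with l hl k hk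
    refine (le_abs_self _).trans_lt (h5 _ ⟨zero_le, grid_le hk⟩ _
      ⟨zero_le, grid_le (by omega)⟩ ?_)
    rwa [NNReal.dist_eq, grid_succ, abs_of_pos (by positivity)]
  filter_upwards [eventually_all.2 h4] with l hl h
  simp only [Search.over, Set.mem_iUnion, mem_range] at h
  obtain ⟨k, hk, h5, i, hi⟩ := h
  rcases k with _ | k
  · rw [grid_zero, h3.1] at hi
    linarith
  · have h6 := hl i k (by omega)
    rw [h1, h1] at h6
    have h7 : st (S.hit p l) (m * 2 ^ l) ω = k + 1 := h5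
    have h8 := fun h : p ≤ S.cE i (grid l k) ω => st_le_of (H := S.hit p l) (m * 2 ^ l) ⟨i, h⟩
    have h9 : ¬p ≤ S.cE i (grid l k) ω := fun h => by have := h8 h; omega
    exact h9 (by linarith)

/-- first dyadic time at which the level is reached -/
noncomputable def Search.TT (p : ℝ) (ω : Ω) : ℝ≥0∞ :=
  ⨅ (l : ℕ) (k : ℕ) (_ : ω ∈ S.hit p l k), (grid l k : ℝ≥0∞)

omit [IsProbabilityMeasure P] in
theorem Search.TT_meas (p : ℝ) : Measurable (S.TT p) :=
  Measurable.iInf fun l => Measurable.iInf fun k => by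
    classical
    simp only [iInf_eq_if]
    exact Measurable.ite ((Gd S.G l).le k _ (S.hit_meas p l k)) measurable_const measurable_const

theorem Search.upper2 (hN : 2 ≤ N) (hμ : 0 < μ) (hF : S.IsFTL) {p q : ℝ} (hp : 1 / N < p)
    (hpq : p < q) (hq : q < 1) (m : ℕ) :
    ∫⁻ ω, min (S.TT p ω) m ∂P ≤ ENNReal.ofReal (2 / μ ^ 2 * (AA N q - AA N (1 / N))) := by
  have i2 : Integrable (fun ω => |S.U m ω - AA N q|) P := by
    have := S.intU hN 0 (m * 2 ^ 0)
    rw [grid_nat] at this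
    exact (this.sub (integrable_const _)).abs
  have hE : ∀ l, MeasurableSet (S.over p q l (m * 2 ^ l)) := fun l =>
    Finset.measurableSet_biUnion _ fun k _ => S.G.le _ _ (S.over_meas p q l _ k)
  have h1 := tendsto_integral_of_dominated_convergence (μ := P)
    (F := fun l => (S.over p q l (m * 2 ^ l)).indicator fun ω => |S.U m ω - AA N q|)
    (f := fun _ => 0) _ (fun l => (i2.indicator (hE l)).1) i2
    (fun l => Eventually.of_forall fun ω => (norm_indicator_le_norm_self _ _).trans (by simp))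
    ((S.over_lim hN hp hpq m).mono fun ω hω => tendsto_const_nhds.congr'
      (hω.mono fun l hl => (Set.indicator_of_notMem hl _).symm))
  simp only [integral_indicator (hE _), integral_zero] at h1
  have h2 := ENNReal.tendsto_ofReal ((h1.const_add (AA N q - AA N (1 / N))).const_mul (2 / μ ^ 2))
  rw [add_zero] at h2
  refine ge_of_tendsto' h2 fun l => ?_
  have h3 := S.upper1 hN hμ hF p ⟨(hp.trans hpq).le, hq⟩ l (m * 2 ^ l)
  rw [grid_nat] at h3
  calc _ ≤ ∫⁻ ω, ENNReal.ofReal (grid l (st (S.hit p l) (m * 2 ^ l) ω)) ∂P := by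
        refine lintegral_mono fun ω => ?_
        rw [ENNReal.ofReal_coe_nnreal]
        rcases st_spec (S.hit p l) (m * 2 ^ l) ω with h | h
        · rw [h, grid_nat]; exact min_le_right _ _
        · exact (min_le_left _ _).trans (iInf_le_of_le l (iInf_le_of_le _ (iInf_le _ h)))
    _ ≤ _ := by
        rw [← ofReal_integral_eq_lintegral_ofReal (S.time_eq p l _).1
          (Eventually.of_forall fun _ => NNReal.coe_nonneg _)]
        refine ENNReal.ofReal_le_ofReal ?_
        have := mul_le_mul_of_nonneg_left h3 (by positivity : 0 ≤ 2 / μ ^ 2)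
        refine (le_of_eq ?_).trans this
        field_simp

theorem Search.upper (hN : 2 ≤ N) (hμ : 0 < μ) (hF : S.IsFTL) {ε : ℝ} (hε : 0 < ε)
    (h : 1 / N < 1 - ε) :
    S.cost ε ≤ ENNReal.ofReal (2 / μ ^ 2 * (AA N (1 - ε) - AA N (1 / N))) := by
  have h0 : S.cost ε ≤ ∫⁻ ω, ⨆ m : ℕ, min (S.TT (1 - ε) ω) m ∂P := by
    refine lintegral_mono_ae ?_
    filter_upwards [S.post_grid] with ω hω
    simp only [← inf_iSup_eq, ENNReal.iSup_natCast, le_top, inf_of_le_left]
    exact le_iInf fun l => le_iInf₂ fun k ⟨i, hi⟩ => iInf₂_le _ ⟨i, by rwa [hω]⟩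
  rw [lintegral_iSup (fun m => (S.TT_meas _).min measurable_const)
    fun m m' h ω => min_le_min le_rfl (by exact_mod_cast h)] at h0
  refine ge_of_tendsto (tendsto_AA hN μ h (by linarith) (Set.Ioi (1 - ε))) ?_
  filter_upwards [Ioo_mem_nhdsGT (by linarith : 1 - ε < 1)] with q hq
  exact h0.trans (iSup_le fun m => S.upper2 hN hμ hF h hq.1 hq.2 m)

theorem Search.main (hN : 2 ≤ N) (hμ : 0 < μ) {ε : ℝ} (hε : 0 < ε) :
    ENNReal.ofReal (value N μ ε) ≤ S.cost ε ∧
      (S.IsFTL → S.cost ε = ENNReal.ofReal (value N μ ε)) := by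
  unfold value
  split_ifs with h
  · refine ⟨by simp, fun _ => ?_⟩
    rw [ENNReal.ofReal_zero, ← nonpos_iff_eq_zero, ← lintegral_zero (μ := P)]
    refine lintegral_mono_ae ?_
    filter_upwards [S.post_grid, S.at_zero hN] with ω h1 h2
    have h3 := h1 0 0 ⟨0, by omega⟩
    rw [grid_zero, h2.1] at h3
    exact iInf₂_le (0 : ℝ≥0) ⟨_, by rwa [h3]⟩
  · have h2 : (2 : ℝ) ≤ N := by exact_mod_cast hN
    have hn : (N : ℝ) - 1 ≠ 0 := by linarith
    have e : ((N : ℝ) - 2) / (N - 1) * (N * (1 - ε) - 1) +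
        (2 * (1 - ε) - 1) * Real.log ((N - 1) * (1 - ε) / ε) = AA N (1 - ε) - AA N (1 / N) := by
      rw [AA_inv hN, AA, sub_sub_cancel]
      field_simp
      ring
    rw [e]
    have h1 := S.lower hN hμ hε (not_le.1 h)
    exact ⟨h1, fun hF => le_antisymm (S.upper hN hμ hF hε (not_le.1 h)) h1⟩

end Pool.Agent.MP_96872c_an
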