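import Mathlib

open Finset Real

namespace Pool.Agent.MP_96872c_an

theorem E1 {d : ℝ} (hd : 0 ≤ d) : 2 * d ≤ exp d - exp (-d) := by
  have h := Real.self_le_sinh_iff.2 hd
  rw [Real.sinh_eq] at h
  linarith

theorem E2 {d : ℝ} (hd : 0 ≤ d) : 0 ≤ (d - 2) * exp d + d + 2 := by
  have hder : ∀ x : ℝ, HasDerivAt (fun d => (d - 2) * exp d + d + 2) ((x - 1) * exp x + 1) x := by
    intro x
    have h1 := (((hasDerivAt_id x).sub_const 2).mul (Real.hasDerivAt_exp x)).add (hasDerivAt_id x)
    have h2 := h1.add_const 2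
    refine h2.congr_deriv ?_
    simp only [id]; ring
  have hm : Monotone fun d : ℝ => (d - 2) * exp d + d + 2 := by
    refine monotone_of_deriv_nonneg (fun x => (hder x).differentiableAt) fun x => ?_
    rw [(hder x).deriv]
    have h1 := Real.add_one_le_exp (-x)
    have h2 : exp x * exp (-x) = 1 := by rw [← Real.exp_add]; simp
    have h3 := Real.exp_pos x
    nlinarith
  have := hm hd
  simpa using this

/-- `q t = e^t - 1 - t` -/
noncomputable def qq (t : ℝ) : ℝ := exp t - 1 - t

theorem qq_nonneg (t : ℝ) : 0 ≤ qq t := by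
  have := Real.add_one_le_exp t
  unfold qq; linarith

theorem qq_neg_le {d : ℝ} (hd : 0 ≤ d) : qq (-d) ≤ qq d := by
  have := E1 hd
  unfold qq; linarith

theorem qq_le_mul {d : ℝ} (hd : 0 ≤ d) : qq d ≤ exp d * qq (-d) := by
  have h := E2 hd
  have h2 : exp d * exp (-d) = 1 := by rw [← Real.exp_add]; simp
  unfold qq; nlinarith

theorem qq_mono {a b : ℝ} (ha : 0 ≤ a) (hab : a ≤ b) : qq a ≤ qq b := by
  have h1 := Real.add_one_le_exp (b - a)
  have h2 : exp b = exp a * exp (b - a) := by rw [← Real.exp_add]; simp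
  have h3 : 1 ≤ exp a := Real.one_le_exp ha
  unfold qq; nlinarith

theorem qq_neg_mono {a b : ℝ} (ha : 0 ≤ a) (hab : a ≤ b) : qq (-a) ≤ qq (-b) := by
  have h1 := Real.add_one_le_exp (-(b - a))
  have h2 : exp (-b) = exp (-a) * exp (-(b - a)) := by rw [← Real.exp_add]; congr 1; ring
  have h3 : exp (-a) ≤ 1 := Real.exp_le_one_iff.2 (by linarith)
  have h4 := Real.exp_pos (-a)
  unfold qq; nlinarith

/-- `r t = e^t + e^{-t} - 2` -/
noncomputable def rr (t : ℝ) : ℝ := exp t + exp (-t) - 2

theorem qq_le_rr (t : ℝ) : qq t ≤ rr t := by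
  have := Real.add_one_le_exp (-t)
  unfold qq rr; linarith

theorem rr_nonneg (t : ℝ) : 0 ≤ rr t := (qq_nonneg t).trans (qq_le_rr t)

/-- ordered pair term -/
noncomputable def xi (a b : ℝ) : ℝ := exp a * min a b - exp (min a b)

/-- symmetric pair term -/
noncomputable def x2 (a b : ℝ) : ℝ := xi a b + xi b a

theorem x2_comm (a b : ℝ) : x2 a b = x2 b a := add_comm _ _

/-- slope of the tangent -/
noncomputable def xD (a y : ℝ) : ℝ := min a y + exp (a - min a y) - 1

/-- gap between tangent and function -/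
noncomputable def gap (a y x : ℝ) : ℝ := x2 a y + xD a y * (exp y * (exp x - 1)) - x2 a (y + x)

theorem gap_ll {a y x : ℝ} (h1 : y ≤ a) (h2 : y + x ≤ a) :
    gap a y x = exp a * qq x - exp y * (exp x * qq (-x)) := by
  have e1 : exp (a - y) * exp y = exp a := by rw [← Real.exp_add]; simp
  have e2 : exp x * exp (-x) = 1 := by rw [← Real.exp_add]; simp
  simp only [gap, x2, xi, xD, qq, min_eq_right h1, min_eq_left h1, min_eq_right h2, min_eq_left h2,
    Real.exp_add]
  linear_combination (exp x - 1) * e1 + exp y * e2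

theorem gap_lr {a y x : ℝ} (h1 : y ≤ a) (h2 : a ≤ y + x) :
    gap a y x = exp y * (exp x * qq (a - y) - exp (a - y) * qq (-(a - y))) := by
  have e1 : exp (a - y) * exp y = exp a := by rw [← Real.exp_add]; simp
  have e2 : exp (a - y) * exp (-(a - y)) = 1 := by rw [← Real.exp_add]; simp
  simp only [gap, x2, xi, xD, qq, min_eq_right h1, min_eq_left h1, min_eq_right h2, min_eq_left h2,
    Real.exp_add]
  linear_combination (a - y - 2) * e1 + exp y * e2

theorem gap_rl {a y x : ℝ} (h1 : a ≤ y) (h2 : y + x ≤ a) :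
    gap a y x = exp (y + x) * (exp (a - (y + x)) * qq (-(a - (y + x))) - qq (a - (y + x))) := by
  have e1 : exp (a - (y + x)) * exp (y + x) = exp a := by rw [← Real.exp_add]; simp
  have e2 : exp (a - (y + x)) * exp (-(a - (y + x))) = 1 := by rw [← Real.exp_add]; simp
  have e3 : exp (y + x) = exp y * exp x := Real.exp_add _ _
  simp only [gap, x2, xi, xD, qq, min_eq_right h1, min_eq_left h1, min_eq_right h2, min_eq_left h2,
    sub_self, Real.exp_zero]
  linear_combination (-(a - (y + x)) + 2) * e1 - exp (y + x) * e2 - a * e3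

theorem gap_rr {a y x : ℝ} (h1 : a ≤ y) (h2 : a ≤ y + x) : gap a y x = 0 := by
  simp only [gap, x2, xi, xD, min_eq_right h1, min_eq_left h1, min_eq_right h2, min_eq_left h2,
    sub_self, Real.exp_zero, Real.exp_add]
  ring

theorem gap_nonneg (a y x : ℝ) : 0 ≤ gap a y x := by
  rcases le_total y a with h1 | h1 <;> rcases le_total (y + x) a with h2 | h2
  · rw [gap_ll h1 h2]
    rcases le_total 0 x with hx | hx
    · have h3 : exp y * exp x ≤ exp a := by rw [← Real.exp_add]; exact Real.exp_le_exp.2 h2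
      have h4 := qq_neg_le hx
      have h5 := qq_nonneg (-x)
      have h6 := exp_pos a
      nlinarith
    · have h3 : exp y ≤ exp a := Real.exp_le_exp.2 h1
      have h4 := qq_le_mul (d := -x) (by linarith)
      rw [neg_neg] at h4
      have e2 : exp x * exp (-x) = 1 := by rw [← Real.exp_add]; simp
      have h5 : exp x * qq (-x) ≤ qq x := by
        have := mul_le_mul_of_nonneg_left h4 (exp_pos x).le
        rwa [← mul_assoc, e2, one_mul] at this
      have h6 := qq_nonneg x
      have h7 := exp_pos y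
      nlinarith
  · rw [gap_lr h1 h2]
    refine mul_nonneg (exp_pos _).le ?_
    have h3 : exp (a - y) ≤ exp x := Real.exp_le_exp.2 (by linarith)
    have h4 := qq_neg_le (d := a - y) (by linarith)
    have h5 := qq_nonneg (-(a - y))
    have h6 := exp_pos (a - y)
    nlinarith
  · rw [gap_rl h1 h2]
    refine mul_nonneg (exp_pos _).le ?_
    have := qq_le_mul (d := a - (y + x)) (by linarith)
    linarith
  · rw [gap_rr h1 h2]

theorem gap_le_q (a y x : ℝ) :
    gap a y x ≤ (max (exp a - exp y) 0 + exp y * |exp x - 1|) * qq x := by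
  have hy := exp_pos y
  have hq := qq_nonneg x
  have hm : exp a - exp y ≤ max (exp a - exp y) 0 := le_max_left _ _
  have hm0 : 0 ≤ max (exp a - exp y) 0 := le_max_right _ _
  have e2 : exp x * exp (-x) = 1 := by rw [← Real.exp_add]; simp
  rcases le_total y a with h1 | h1 <;> rcases le_total (y + x) a with h2 | h2
  · rw [gap_ll h1 h2]
    have key : qq x - exp x * qq (-x) ≤ |exp x - 1| * qq x := by
      rcases le_total 0 x with hx | hx
      · have := qq_le_mul hx
        have : 0 ≤ |exp x - 1| * qq x := by positivity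
        linarith
      · have h3 : exp x ≤ 1 := Real.exp_le_one_iff.2 hx
        rw [abs_of_nonpos (by linarith)]
        have h4 := qq_neg_le (d := -x) (by linarith)
        rw [neg_neg] at h4
        have h5 := exp_pos x
        nlinarith
    nlinarith
  · rw [gap_lr h1 h2]
    have hx : 0 ≤ x := by linarith
    have h3 : 1 ≤ exp x := Real.one_le_exp hx
    rw [abs_of_nonneg (by linarith)]
    have h4 := qq_le_mul (d := a - y) (by linarith)
    have h5 := qq_mono (a := a - y) (b := x) (by linarith) (by linarith)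
    have h6 : exp x * qq (a - y) - exp (a - y) * qq (-(a - y)) ≤ (exp x - 1) * qq x := by
      nlinarith
    nlinarith
  · rw [gap_rl h1 h2]
    have hx : x ≤ 0 := by linarith
    have h3 : exp x ≤ 1 := Real.exp_le_one_iff.2 hx
    rw [abs_of_nonpos (by linarith)]
    set d := a - (y + x) with hd
    have hd0 : 0 ≤ d := by linarith
    have h4 := qq_neg_le hd0
    have h5 := qq_neg_mono (a := d) (b := -x) hd0 (by linarith)
    rw [neg_neg] at h5
    have h6 : exp d ≤ exp (-x) := Real.exp_le_exp.2 (by linarith)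
    have h7 : 1 ≤ exp d := Real.one_le_exp hd0
    have h8 := qq_nonneg (-d)
    have h9 : exp d * qq (-d) - qq d ≤ (exp (-x) - 1) * qq x := by nlinarith
    have h10 : exp (y + x) * ((exp (-x) - 1) * qq x) = exp y * -(exp x - 1) * qq x := by
      rw [Real.exp_add]
      linear_combination exp y * qq x * e2
    have h11 := mul_le_mul_of_nonneg_left h9 (exp_pos (y + x)).le
    nlinarith
  · rw [gap_rr h1 h2]
    positivity

theorem gap_le (a y x : ℝ) {η : ℝ} (hη : 0 < η) :
    gap a y x ≤ max (exp a - exp y) 0 * rr x +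
      exp y * (η * rr x + (exp x - 1) ^ 2 * rr x / η) := by
  have h1 := gap_le_q a y x
  have hy := exp_pos y
  have hm0 : 0 ≤ max (exp a - exp y) 0 := le_max_right _ _
  have h2 : (max (exp a - exp y) 0 + exp y * |exp x - 1|) * qq x ≤
      (max (exp a - exp y) 0 + exp y * |exp x - 1|) * rr x :=
    mul_le_mul_of_nonneg_left (qq_le_rr x) (by positivity)
  have h3 : |exp x - 1| ≤ η + (exp x - 1) ^ 2 / η := by
    rw [← sq_abs (exp x - 1)]
    have h4 := abs_nonneg (exp x - 1)
    set u := |exp x - 1|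
    have : u ≤ η ∨ η ≤ u := le_total _ _
    rcases this with h | h
    · have : 0 ≤ u ^ 2 / η := by positivity
      linarith
    · have : u ≤ u ^ 2 / η := by rw [le_div_iff₀ hη]; nlinarith
      linarith
  have h4 := mul_le_mul_of_nonneg_left h3 (mul_nonneg hy.le (rr_nonneg x))
  have e : exp y * rr x * (η + (exp x - 1) ^ 2 / η) =
      exp y * (η * rr x + (exp x - 1) ^ 2 * rr x / η) := by ring
  nlinarith

/-- ray test function -/
noncomputable def lam (x y w : ℝ) : ℝ :=
  |x - y| ^ 3 + |y - w| ^ 3 + |x - w| ^ 3 + (x + y - 2 * w) * (x + w - 2 * y) * (y + w - 2 * x)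

theorem lam_12 (x y w : ℝ) : lam x y w = lam y x w := by
  unfold lam
  rw [abs_sub_comm x y]; ring

theorem lam_23 (x y w : ℝ) : lam x y w = lam x w y := by
  unfold lam
  rw [abs_sub_comm y w]; ring

theorem lam_sorted {x y w : ℝ} (h1 : y ≤ x) (h2 : w ≤ y) :
    lam x y w = (y - w) ^ 2 * (4 * (y - w) + 6 * (x - y)) := by
  unfold lam
  rw [abs_of_nonneg (by linarith : 0 ≤ x - y), abs_of_nonneg (by linarith : 0 ≤ y - w),
    abs_of_nonneg (by linarith : 0 ≤ x - w)]
  ring

theorem lam_nonneg_max {x y w : ℝ} (h1 : y ≤ x) (h2 : w ≤ x) : 0 ≤ lam x y w := by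
  rcases le_total w y with h | h
  · rw [lam_sorted h1 h]
    exact mul_nonneg (sq_nonneg _) (by linarith)
  · rw [lam_23, lam_sorted h2 h]
    exact mul_nonneg (sq_nonneg _) (by linarith)

theorem lam_nonneg (x y w : ℝ) : 0 ≤ lam x y w := by
  rcases le_total y x with h1 | h1
  · rcases le_total w x with h2 | h2
    · exact lam_nonneg_max h1 h2
    · rw [lam_23, lam_12]; exact lam_nonneg_max h2 (h1.trans h2)
  · rcases le_total w y with h2 | h2
    · rw [lam_12]; exact lam_nonneg_max h1 h2
    · rw [lam_23, lam_12]; exact lam_nonneg_max (h1.trans h2) h2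

theorem eq_of_lam {x y w : ℝ} (h1 : y ≤ x) (h2 : w ≤ x) (h : lam x y w = 0) : y = w := by
  have key : ∀ {y w : ℝ}, y ≤ x → w ≤ y → lam x y w = 0 → y = w := by
    intro y w h1 h2 h
    rw [lam_sorted h1 h2] at h
    by_contra hne
    have h3 : 0 < y - w := sub_pos.2 (lt_of_le_of_ne h2 (Ne.symm hne))
    have : 0 < (y - w) ^ 2 * (4 * (y - w) + 6 * (x - y)) := mul_pos (by positivity) (by linarith)
    linarith
  rcases le_total w y with h3 | h3
  · exact key h1 h3 h
  · rw [lam_23] at h
    exact (key h2 h3 h).symm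

theorem abs_cube (u : ℝ) : |u| ^ 3 = u ^ 3 + 2 * max (-u) 0 ^ 3 := by
  rcases le_total 0 u with h | h
  · rw [abs_of_nonneg h, max_eq_right (by linarith)]; ring
  · rw [abs_of_nonpos h, max_eq_left (by linarith)]; ring

theorem pos_cube_taylor (u d : ℝ) :
    max (u + d) 0 ^ 3 ≤ max u 0 ^ 3 + 3 * max u 0 ^ 2 * d + 3 * d ^ 2 * (max u 0 + |d|) := by
  have hd := le_abs_self d
  have hd' := neg_abs_le d
  have hd0 := abs_nonneg d
  rcases le_total 0 u with h | h <;> rcases le_total 0 (u + d) with h' | h'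
  · rw [max_eq_left h, max_eq_left h']
    nlinarith [mul_nonneg (sq_nonneg d) hd0, mul_le_mul_of_nonneg_left hd (sq_nonneg d)]
  · rw [max_eq_left h, max_eq_right h']
    have hdn : d ≤ 0 := by linarith
    rw [abs_of_nonpos hdn]
    nlinarith [mul_nonneg h (sq_nonneg (u + d)), mul_nonneg (mul_nonneg h h) h,
      mul_nonneg (neg_nonneg.2 hdn) (sq_nonneg (u + d)), mul_nonneg (neg_nonneg.2 hdn) (sq_nonneg d),
      mul_nonneg h (sq_nonneg d), mul_nonneg (mul_nonneg h (neg_nonneg.2 hdn)) (neg_nonneg.2 h')]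
  · rw [max_eq_right h, max_eq_left h']
    have hdn : 0 ≤ d := by linarith
    rw [abs_of_nonneg hdn]
    have h3 : (u + d) ^ 3 ≤ d ^ 3 := pow_le_pow_left₀ h' (by linarith) 3
    nlinarith [pow_nonneg hdn 3]
  · rw [max_eq_right h, max_eq_right h']
    have : 0 ≤ d ^ 2 * |d| := by positivity
    nlinarith

/-- slope of `lam` in the first variable -/
noncomputable def lamD (y a b : ℝ) : ℝ :=
  6 * (a - b) ^ 2 - 6 * max (a - y) 0 ^ 2 - 6 * max (b - y) 0 ^ 2

theorem lam_taylor (y a b d : ℝ) :
    lam (y + d) a b ≤ lam y a b + lamD y a b * d +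
      6 * d ^ 2 * (max (a - y) 0 + max (b - y) 0 + 2 * |d|) := by
  have h1 := pos_cube_taylor (a - y) (-d)
  have h2 := pos_cube_taylor (b - y) (-d)
  rw [abs_neg] at h1 h2
  unfold lam lamD
  rw [abs_cube (y + d - a), abs_cube (y + d - b), abs_cube (y - a), abs_cube (y - b)]
  have e1 : -(y + d - a) = a - y + -d := by ring
  have e2 : -(y + d - b) = b - y + -d := by ring
  have e3 : -(y - a) = a - y := by ring
  have e4 : -(y - b) = b - y := by ring
  rw [e1, e2, e3, e4]
  nlinarith

end Pool.Agent.MP_96872c_an
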