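import Pool.Agent.MP_96872c_an.Real1

open Finset Real

namespace Pool.Agent.MP_96872c_an

variable {N : ℕ}

noncomputable def SS (ζ : Fin N → ℝ) : ℝ := ∑ i, exp (ζ i)

noncomputable def Phi (ζ : Fin N → ℝ) : ℝ := 2 * ∑ i, exp (ζ i) * ζ i - SS ζ * ∑ i, ζ i

noncomputable def Xi (ζ : Fin N → ℝ) : ℝ := ∑ i, ∑ l, if i = l then 0 else xi (ζ i) (ζ l)

noncomputable def Gam (ζ : Fin N → ℝ) : ℝ := Phi ζ + ((N : ℝ) - 2) / (N - 1) * Xi ζ

noncomputable def AA (N : ℕ) (p : ℝ) : ℝ :=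
  (2 * p - 1) * log ((N - 1) * p / (1 - p)) - (N - 2) * N * (1 - p) / (N - 1)

theorem SS_pos (hN : 2 ≤ N) (ζ : Fin N → ℝ) : 0 < SS ζ :=
  sum_pos (fun _ _ => exp_pos _) ⟨⟨0, by omega⟩, mem_univ _⟩

theorem exp_le_SS (ζ : Fin N → ℝ) (i : Fin N) : exp (ζ i) ≤ SS ζ :=
  single_le_sum (f := fun i => exp (ζ i)) (fun _ _ => (exp_pos _).le) (mem_univ i)

theorem Xi_eq_half (ζ : Fin N → ℝ) :
    Xi ζ = 1 / 2 * ∑ i, ∑ l, if i = l then 0 else x2 (ζ i) (ζ l) := by
  have h1 : ∑ i, ∑ l, (if i = l then 0 else xi (ζ l) (ζ i)) = Xi ζ := by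
    rw [sum_comm]
    exact sum_congr rfl fun i _ => sum_congr rfl fun l _ => by simp [eq_comm]
  have h2 : ∑ i, ∑ l, (if i = l then 0 else x2 (ζ i) (ζ l)) =
      Xi ζ + ∑ i, ∑ l, (if i = l then 0 else xi (ζ l) (ζ i)) := by
    simp only [Xi, ← sum_add_distrib]
    exact sum_congr rfl fun i _ => sum_congr rfl fun l _ => by split_ifs <;> simp [x2]
  rw [h2, h1]; ring

theorem xi_ge (a b : ℝ) : exp a * b - exp b ≤ xi a b := by
  unfold xi
  rcases le_total a b with h | h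
  · rw [min_eq_left h]
    have h1 := Real.add_one_le_exp (b - a)
    have h2 : exp b = exp a * exp (b - a) := by rw [← Real.exp_add]; simp
    have h3 := exp_pos a
    nlinarith
  · rw [min_eq_right h]

theorem sum_erase_eq (f : Fin N → ℝ) (i : Fin N) : ∑ l ∈ univ.erase i, f l = ∑ l, f l - f i := by
  rw [← add_sum_erase _ _ (mem_univ i)]; ring

theorem sum_ite_ne (f : Fin N → ℝ) (l : Fin N) :
    ∑ i, (if i = l then 0 else f i) = ∑ i, f i - f l := by
  have : ∀ i, (if i = l then 0 else f i) = f i - if i = l then f i else 0 := fun i => by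
    split_ifs <;> simp
  simp only [this, sum_sub_distrib, sum_ite_eq', mem_univ, if_true]

/-- comparison function for `Xi` -/
noncomputable def XiL (ζ : Fin N → ℝ) (i0 : Fin N) : ℝ :=
  ∑ i, ∑ l, if i = l then 0 else
    if l = i0 then exp (ζ i) * ζ i - exp (ζ i) else exp (ζ i) * ζ l - exp (ζ l)

theorem XiL_eq (ζ : Fin N → ℝ) (i0 : Fin N) :
    XiL ζ i0 = SS ζ * (∑ l, ζ l - ζ i0) - N * (SS ζ - exp (ζ i0)) := by
  unfold XiL
  rw [sum_comm]
  have h : ∀ l, ∑ i, (if i = l then 0 else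
      if l = i0 then exp (ζ i) * ζ i - exp (ζ i) else exp (ζ i) * ζ l - exp (ζ l)) =
      (SS ζ * ζ l - exp (ζ l) * ζ l - (N - 1) * exp (ζ l)) +
      if l = i0 then (∑ i, exp (ζ i) * ζ i - SS ζ - exp (ζ i0) * ζ i0 + exp (ζ i0)) -
        (SS ζ * ζ i0 - exp (ζ i0) * ζ i0 - (N - 1) * exp (ζ i0)) else 0 := by
    intro l
    by_cases hl : l = i0
    · subst hl
      simp only [if_true]
      rw [sum_ite_ne (fun i => exp (ζ i) * ζ i - exp (ζ i)), sum_sub_distrib]
      unfold SS; ring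
    · simp only [hl, if_false]
      rw [sum_ite_ne (fun i => exp (ζ i) * ζ l - exp (ζ l)), sum_sub_distrib, ← sum_mul]
      simp only [sum_const, card_univ, Fintype.card_fin, nsmul_eq_mul]
      unfold SS; ring
  simp only [h, sum_add_distrib, sum_ite_eq', mem_univ, if_true, sum_sub_distrib, ← mul_sum]
  unfold SS; ring

theorem XiL_le (ζ : Fin N → ℝ) (i0 : Fin N) (h : ∀ l, ζ l ≤ ζ i0) : XiL ζ i0 ≤ Xi ζ := by
  refine sum_le_sum fun i _ => sum_le_sum fun l _ => ?_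
  split_ifs with h1 h2
  · exact le_rfl
  · subst h2
    simp [xi, min_eq_left (h i)]
  · exact xi_ge _ _

theorem Xi_ray (ζ : Fin N → ℝ) (i0 : Fin N) (h : ∀ l, ζ l ≤ ζ i0) (m : ℝ)
    (hm : ∀ l, l ≠ i0 → ζ l = m) : Xi ζ = XiL ζ i0 := by
  refine sum_congr rfl fun i _ => sum_congr rfl fun l _ => ?_
  split_ifs with h1 h2
  · rfl
  · subst h2
    simp [xi, min_eq_left (h i)]
  · have : ζ l ≤ ζ i := by
      by_cases hi : i = i0
      · rw [hi]; exact h l
      · rw [hm l h2, hm i hi]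
    simp [xi, min_eq_right this]

theorem rest_pos (hN : 2 ≤ N) (ζ : Fin N → ℝ) (i0 : Fin N) : 0 < SS ζ - exp (ζ i0) := by
  unfold SS
  rw [← sum_erase_eq (fun i => exp (ζ i))]
  refine sum_pos (fun _ _ => exp_pos _) ?_
  rw [← card_pos, card_erase_of_mem (mem_univ _), card_univ, Fintype.card_fin]
  omega

theorem SA_eq (hN : 2 ≤ N) (ζ : Fin N → ℝ) (i0 : Fin N) :
    SS ζ * AA N (exp (ζ i0) / SS ζ) =
      (2 * exp (ζ i0) - SS ζ) * (ζ i0 - log ((SS ζ - exp (ζ i0)) / (N - 1))) -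
        (N - 2) * N * (SS ζ - exp (ζ i0)) / (N - 1) := by
  have hS := SS_pos hN ζ
  have hR := rest_pos hN ζ i0
  have hn : (0 : ℝ) < N - 1 := by
    have : (2 : ℝ) ≤ N := by exact_mod_cast hN
    linarith
  have e : ((N : ℝ) - 1) * (exp (ζ i0) / SS ζ) / (1 - exp (ζ i0) / SS ζ) =
      exp (ζ i0) / ((SS ζ - exp (ζ i0)) / (N - 1)) := by
    field_simp
  unfold AA
  rw [e, Real.log_div (exp_pos _).ne' (div_pos hR hn).ne', Real.log_exp]
  field_simp

theorem Gam_ge (hN : 2 ≤ N) (ζ : Fin N → ℝ) (i0 : Fin N) (h : ∀ l, ζ l ≤ ζ i0) :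
    SS ζ * AA N (exp (ζ i0) / SS ζ) ≤ Gam ζ := by
  have hS := SS_pos hN ζ
  have hR := rest_pos hN ζ i0
  have h2 : (2 : ℝ) ≤ N := by exact_mod_cast hN
  have hn : (0 : ℝ) < N - 1 := by linarith
  rw [SA_eq hN]
  set R := SS ζ - exp (ζ i0) with hRdef
  set m := R / (N - 1) with hmdef
  have hm : 0 < m := div_pos hR hn
  set μ0 := log m with hμ0
  have hem : exp μ0 = m := Real.exp_log hm
  have hcard : ((univ.erase i0).card : ℝ) = N - 1 := by
    rw [card_erase_of_mem (mem_univ _), card_univ, Fintype.card_fin, Nat.cast_sub (by omega)]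
    simp
  have hRsum : ∑ l ∈ univ.erase i0, exp (ζ l) = R := sum_erase_eq _ _
  have hRm : R = (N - 1) * m := by rw [hmdef]; field_simp
  have hL : ∑ l, ζ l - ζ i0 ≤ (N - 1) * μ0 := by
    rw [← sum_erase_eq]
    have : ∑ l ∈ univ.erase i0, ζ l ≤ ∑ l ∈ univ.erase i0, (μ0 - 1 + exp (ζ l) / m) := by
      refine sum_le_sum fun l _ => ?_
      have h1 := Real.add_one_le_exp (ζ l - μ0)
      rw [Real.exp_sub, hem] at h1
      linarith
    rw [sum_add_distrib, sum_const, nsmul_eq_mul, hcard, ← sum_div, hRsum, hRm,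
      mul_div_assoc, div_self hm.ne'] at this
    linarith
  have hE : R * μ0 ≤ ∑ l, exp (ζ l) * ζ l - exp (ζ i0) * ζ i0 := by
    rw [← sum_erase_eq (fun l => exp (ζ l) * ζ l)]
    have : ∑ l ∈ univ.erase i0, (exp (ζ l) * μ0 + exp (ζ l) - m) ≤
        ∑ l ∈ univ.erase i0, exp (ζ l) * ζ l := by
      refine sum_le_sum fun l _ => ?_
      have h1 := Real.add_one_le_exp (μ0 - ζ l)
      have h3 : exp (ζ l) * exp (μ0 - ζ l) = m := by rw [← Real.exp_add, ← hem]; simp
      have h4 := exp_pos (ζ l)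
      nlinarith
    rw [sum_sub_distrib, sum_add_distrib, ← sum_mul, hRsum, sum_const, nsmul_eq_mul, hcard] at this
    linarith
  have hX := XiL_le ζ i0 h
  rw [XiL_eq] at hX
  have hlam : 0 ≤ ((N : ℝ) - 2) / (N - 1) := div_nonneg (by linarith) hn.le
  have hX' := mul_le_mul_of_nonneg_left hX hlam
  have e1 : ((N : ℝ) - 2) / (N - 1) = 1 - 1 / (N - 1) := by field_simp; ring
  have h5 : SS ζ / (N - 1) * (∑ l, ζ l - ζ i0) ≤ SS ζ * μ0 := by
    have := mul_le_mul_of_nonneg_left hL (div_pos hS hn).le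
    calc _ ≤ _ := this
      _ = _ := by field_simp
  have e2 : ((N : ℝ) - 2) / (N - 1) * (SS ζ * (∑ l, ζ l - ζ i0) - N * R) =
      SS ζ * (∑ l, ζ l - ζ i0) - SS ζ / (N - 1) * (∑ l, ζ l - ζ i0) - (N - 2) * N * R / (N - 1) := by
    field_simp; ring
  unfold Gam Phi
  rw [e2] at hX'
  have e3 : SS ζ = R + exp (ζ i0) := by rw [hRdef]; ring
  nlinarith

theorem Gam_ray (hN : 2 ≤ N) (ζ : Fin N → ℝ) (i0 : Fin N) (h : ∀ l, ζ l ≤ ζ i0)
    (hm : ∀ l l', l ≠ i0 → l' ≠ i0 → ζ l = ζ l') :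
    Gam ζ = SS ζ * AA N (exp (ζ i0) / SS ζ) := by
  have h2 : (2 : ℝ) ≤ N := by exact_mod_cast hN
  have hn : (0 : ℝ) < N - 1 := by linarith
  have : Nontrivial (Fin N) := Fin.nontrivial_iff_two_le.2 hN
  obtain ⟨l0, hl0⟩ := exists_ne i0
  set m := ζ l0 with hmdef
  have hm' : ∀ l, l ≠ i0 → ζ l = m := fun l hl => hm l l0 hl hl0
  have hcard : ((univ.erase i0).card : ℝ) = N - 1 := by
    rw [card_erase_of_mem (mem_univ _), card_univ, Fintype.card_fin, Nat.cast_sub (by omega)]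
    simp
  have key : ∀ f : ℝ → ℝ, ∑ l, f (ζ l) = f (ζ i0) + (N - 1) * f m := by
    intro f
    rw [← add_sum_erase _ _ (mem_univ i0), sum_congr rfl fun l hl => by
      rw [hm' l (ne_of_mem_erase hl)], sum_const, nsmul_eq_mul, hcard]
  have hS : SS ζ = exp (ζ i0) + (N - 1) * exp m := key exp
  have hL : ∑ l, ζ l = ζ i0 + (N - 1) * m := key id
  have hE : ∑ l, exp (ζ l) * ζ l = exp (ζ i0) * ζ i0 + (N - 1) * (exp m * m) :=
    key fun t => exp t * t
  rw [SA_eq hN]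
  have e : (SS ζ - exp (ζ i0)) / (N - 1) = exp m := by rw [hS]; field_simp; ring
  rw [e, Real.log_exp]
  unfold Gam Phi
  rw [Xi_ray ζ i0 h m hm', XiL_eq, hE, hL, hS]
  field_simp
  ring

theorem AA_deriv (hN : 2 ≤ N) {p : ℝ} (h0 : 0 < p) (h1 : p < 1) :
    HasDerivAt (AA N) (2 * log ((N - 1) * p / (1 - p)) + (1 / (1 - p) - 1 / p) +
      (N - 2) * N / (N - 1)) p := by
  have h2 : (2 : ℝ) ≤ N := by exact_mod_cast hN
  have hn : (0 : ℝ) < N - 1 := by linarith
  have h1' : 1 - p ≠ 0 := by linarith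
  have d1 : HasDerivAt (fun p : ℝ => ((N : ℝ) - 1) * p / (1 - p))
      (((N - 1) * 1 * (1 - p) - (N - 1) * p * (-1)) / (1 - p) ^ 2) p :=
    ((hasDerivAt_id p).const_mul _).div ((hasDerivAt_id p).const_sub 1) h1'
  have hpos : 0 < ((N : ℝ) - 1) * p / (1 - p) := div_pos (mul_pos hn h0) (by linarith)
  have d2 := d1.log hpos.ne'
  have d3 := (((hasDerivAt_id p).const_mul 2).sub_const 1).mul d2
  have d4 := (((hasDerivAt_id p).const_sub 1).const_mul (((N : ℝ) - 2) * N)).div_const (N - 1)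
  refine (d3.sub d4).congr_deriv ?_
  simp only [id]
  field_simp
  ring

theorem AA_mono (hN : 2 ≤ N) : MonotoneOn (AA N) (Set.Ico (1 / N) 1) := by
  have h2 : (2 : ℝ) ≤ N := by exact_mod_cast hN
  have hn : (0 : ℝ) < N - 1 := by linarith
  have hN0 : (0 : ℝ) < 1 / N := by positivity
  refine monotoneOn_of_deriv_nonneg (convex_Ico _ _) (fun p hp => ?_) (fun p hp => ?_)
    fun p hp => ?_
  · exact (AA_deriv hN (hN0.trans_le hp.1) hp.2).continuousAt.continuousWithinAt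
  · rw [interior_Ico] at hp
    exact (AA_deriv hN (hN0.trans hp.1) hp.2).differentiableAt.differentiableWithinAt
  · rw [interior_Ico] at hp
    have h0 := hN0.trans hp.1
    rw [(AA_deriv hN h0 hp.2).deriv]
    have hp1 : 1 < N * p := by
      have := hp.1
      rwa [div_lt_iff₀ (by linarith), mul_comm] at this
    have hq : 0 < 1 - p := by linarith [hp.2]
    have a1 : 0 ≤ log ((N - 1) * p / (1 - p)) := by
      refine Real.log_nonneg ?_
      rw [le_div_iff₀ hq]; linarith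
    have a2 : 1 / p ≤ N := by rw [div_le_iff₀ h0]; linarith
    have a3 : (N : ℝ) / (N - 1) ≤ 1 / (1 - p) := by
      rw [div_le_div_iff₀ hn hq]; linarith
    have a4 : ((N : ℝ) - 2) * N / (N - 1) = N - N / (N - 1) := by field_simp; ring
    linarith

theorem AA_cont (hN : 2 ≤ N) {p : ℝ} (h0 : 0 < p) (h1 : p < 1) : ContinuousAt (AA N) p :=
  (AA_deriv hN h0 h1).continuousAt

theorem AA_inv (hN : 2 ≤ N) : AA N (1 / N) = -(N - 2) := by
  have h2 : (2 : ℝ) ≤ N := by exact_mod_cast hN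
  have hn : (0 : ℝ) < N - 1 := by linarith
  have e : ((N : ℝ) - 1) * (1 / N) / (1 - 1 / N) = 1 := by
    field_simp
  unfold AA
  rw [e, Real.log_one]
  field_simp
  ring

theorem Gam_shift (hN : 2 ≤ N) (ζ : Fin N → ℝ) (c : ℝ) :
    Gam (fun i => ζ i + c) = exp c * Gam ζ := by
  have h2 : (2 : ℝ) ≤ N := by exact_mod_cast hN
  have hn : (0 : ℝ) < N - 1 := by linarith
  have hS : SS (fun i => ζ i + c) = exp c * SS ζ := by
    simp only [SS, Real.exp_add, mul_sum]
    exact sum_congr rfl fun i _ => mul_comm _ _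
  have hX : Xi (fun i => ζ i + c) = exp c * Xi ζ + exp c * c * ((N - 1) * SS ζ) := by
    have : ∀ i, ∑ l, (if i = l then 0 else xi (ζ i + c) (ζ l + c)) =
        exp c * ∑ l, (if i = l then 0 else xi (ζ i) (ζ l)) +
          exp c * c * ((N - 1) * exp (ζ i)) := by
      intro i
      have e : ∀ l, (if i = l then 0 else xi (ζ i + c) (ζ l + c)) =
          exp c * (if i = l then 0 else xi (ζ i) (ζ l)) +
            if l = i then 0 else exp c * c * exp (ζ i) := by
        intro l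
        by_cases h : i = l
        · simp [h]
        · simp only [h, Ne.symm h, if_false, xi, min_add_add_right, Real.exp_add]; ring
      simp only [e, sum_add_distrib, ← mul_sum]
      rw [sum_ite_ne (fun _ => exp c * c * exp (ζ i))]
      simp only [sum_const, card_univ, Fintype.card_fin, nsmul_eq_mul]
      ring
    simp only [Xi, this, sum_add_distrib, ← mul_sum, SS]
  have hE : ∑ i, exp (ζ i + c) * (ζ i + c) = exp c * ∑ i, exp (ζ i) * ζ i + exp c * c * SS ζ := by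
    simp only [SS, Real.exp_add, mul_sum, ← sum_add_distrib]
    exact sum_congr rfl fun i _ => by ring
  have hL : ∑ i, (ζ i + c) = ∑ i, ζ i + N * c := by
    simp [sum_add_distrib]
  unfold Gam Phi
  rw [hS, hX, hE, hL]
  field_simp
  ring

end Pool.Agent.MP_96872c_an
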