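import Pool.Agent.MP_96872c_an.Sub

open Finset Real MeasureTheory ProbabilityTheory Filter Topology
open scoped NNReal ENNReal

namespace Pool.Agent.MP_96872c_an

section Abs

variable {Ω : Type} {mΩ : MeasurableSpace Ω} {P : Measure Ω}

open Classical in
/-- first entrance index, capped at `M` -/
noncomputable def st (H : ℕ → Set Ω) (M : ℕ) (ω : Ω) : ℕ :=
  Nat.find (⟨M, Or.inl le_rfl⟩ : ∃ k, M ≤ k ∨ ω ∈ H k)

theorem st_le (H : ℕ → Set Ω) (M : ℕ) (ω : Ω) : st H M ω ≤ M := by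
  classical exact Nat.find_min' _ (Or.inl le_rfl)

theorem st_le_of {H : ℕ → Set Ω} (M : ℕ) {ω : Ω} {k : ℕ} (h : ω ∈ H k) : st H M ω ≤ k := by
  classical exact Nat.find_min' _ (Or.inr h)

theorem st_spec (H : ℕ → Set Ω) (M : ℕ) (ω : Ω) : st H M ω = M ∨ ω ∈ H (st H M ω) := by
  classical
  rcases Nat.find_spec (⟨M, Or.inl le_rfl⟩ : ∃ k, M ≤ k ∨ ω ∈ H k) with h | h
  · exact Or.inl (le_antisymm (st_le H M ω) h)
  · exact Or.inr h

theorem st_meas {G : Filtration ℕ mΩ} {H : ℕ → Set Ω} (hH : ∀ k, MeasurableSet[G k] (H k)) (M k : ℕ) :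
    MeasurableSet[G k] {ω | k < st H M ω} := by
  classical
  have : {ω | k < st H M ω} = ⋂ j ∈ Set.Iic k, ({_ω | M ≤ j} ∪ H j)ᶜ := by
    ext ω
    simp only [st, Nat.lt_find_iff, Set.mem_ofPred_eq, Set.mem_iInter, Set.mem_Iic,
      Set.mem_compl_iff, Set.mem_union]
  rw [this]
  exact MeasurableSet.biInter (Set.to_countable _) fun j hj =>
    ((@MeasurableSet.const _ (G k) _).union (G.mono hj _ (hH j))).compl

theorem st_eq_meas {G : Filtration ℕ mΩ} {H : ℕ → Set Ω} (hH : ∀ k, MeasurableSet[G k] (H k))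
    (M k : ℕ) : MeasurableSet[G k] {ω | st H M ω = k} := by
  rcases k with _ | k
  · convert (st_meas hH M 0).compl using 1
    ext ω; simp
  · convert (G.mono (Nat.le_succ k) _ (st_meas hH M k)).diff (st_meas hH M (k + 1)) using 1
    ext ω
    simp only [Set.mem_ofPred_eq, Set.mem_sdiff]
    omega

theorem tele (f : ℕ → ℝ) {τ M : ℕ} (h : τ ≤ M) :
    f τ = f 0 + ∑ k ∈ range M, if k < τ then f (k + 1) - f k else 0 := by
  rw [← sum_filter]
  have : (range M).filter (· < τ) = range τ := by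
    ext k; simp only [mem_filter, mem_range]; omega
  rw [this, sum_range_sub]; ring

theorem stop_int {U : ℕ → Ω → ℝ} (hU : ∀ k, Integrable (U k) P) {τ : Ω → ℕ} {M : ℕ}
    (hM : ∀ ω, τ ω ≤ M) (hτ : ∀ k, MeasurableSet {ω | k < τ ω}) :
    Integrable (fun ω => U (τ ω) ω) P ∧ ∫ ω, U (τ ω) ω ∂P = ∫ ω, U 0 ω ∂P + ∑ k ∈ range M,
      (∫ ω in {ω | k < τ ω}, U (k + 1) ω ∂P - ∫ ω in {ω | k < τ ω}, U k ω ∂P) := by
  have e : (fun ω => U (τ ω) ω) = fun ω => U 0 ω + ∑ k ∈ range M,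
      {ω | k < τ ω}.indicator (fun ω => U (k + 1) ω - U k ω) ω := by
    funext ω
    rw [tele (fun k => U k ω) (hM ω)]
    simp only [Set.indicator_apply, Set.mem_ofPred_eq]
  have i1 : ∀ k, Integrable ({ω | k < τ ω}.indicator fun ω => U (k + 1) ω - U k ω) P := fun k =>
    ((hU _).sub (hU _)).indicator (hτ k)
  have i2 := integrable_finsetSum (range M) fun k _ => i1 k
  rw [e]
  refine ⟨(hU 0).add i2, ?_⟩
  rw [integral_add (hU 0) i2, integral_finsetSum _ fun k _ => i1 k]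
  congr 1
  refine sum_congr rfl fun k _ => ?_
  rw [integral_indicator (hτ k), integral_sub (hU _).integrableOn (hU _).integrableOn]

theorem stop_time [IsProbabilityMeasure P] {τ : Ω → ℕ} {M : ℕ} (hM : ∀ ω, τ ω ≤ M)
    (hτ : ∀ k, MeasurableSet {ω | k < τ ω}) (l : ℕ) :
    Integrable (fun ω => (grid l (τ ω) : ℝ)) P ∧ ∫ ω, (grid l (τ ω) : ℝ) ∂P = ∑ k ∈ range M,
      ((grid l (k + 1) : ℝ) - grid l k) * P.real {ω | k < τ ω} := by
  obtain ⟨h1, h2⟩ := stop_int (P := P) (U := fun k _ => (grid l k : ℝ))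
    (fun _ => integrable_const _) hM hτ
  refine ⟨h1, ?_⟩
  rw [h2]
  simp only [grid_zero, NNReal.coe_zero, integral_zero, zero_add, integral_const, smul_eq_mul,
    measureReal_restrict_apply_univ]
  exact sum_congr rfl fun k _ => by ring

end Abs

variable {N : ℕ} {μ : ℝ} {Ω : Type} [mΩ : MeasurableSpace Ω] {P : Measure Ω}
  [IsProbabilityMeasure P] (S : Search N μ P)

theorem le_mul_pow (k l : ℕ) : k ≤ k * 2 ^ l := Nat.le_mul_of_pos_right _ (by positivity)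

theorem Search.intU (hN : 2 ≤ N) (l k : ℕ) : Integrable (S.U (grid l k)) P := by
  obtain ⟨n, c, Q, _, h⟩ := S.exists_filt ⟨0, by omega⟩ k
  exact h.intU hN (le_mul_pow k l)

theorem Search.I1 (hN : 2 ≤ N) {l k0 k1 : ℕ} (h01 : k0 ≤ k1) {A : Set Ω}
    (hA : MeasurableSet[S.G (grid l k0)] A) :
    ∫ ω in A, S.U (grid l k1) ω ∂P ≤ ∫ ω in A, S.U (grid l k0) ω ∂P +
      μ ^ 2 * ((grid l k1 : ℝ) - grid l k0) / 2 * P.real A := by
  obtain ⟨n, c, Q, _, h⟩ := S.exists_filt ⟨0, by omega⟩ k1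
  exact h.I1 hN h01 (le_mul_pow k1 l) hA

theorem Search.I2 (hN : 2 ≤ N) (hμ : 0 < μ) (hF : S.IsFTL) {l k0 k1 : ℕ} (h01 : k0 ≤ k1)
    {A : Set Ω} (hA : MeasurableSet[S.G (grid l k0)] A) :
    ∫ ω in A, S.U (grid l k0) ω ∂P + μ ^ 2 * ((grid l k1 : ℝ) - grid l k0) / 2 * P.real A ≤
      ∫ ω in A, S.U (grid l k1) ω ∂P := by
  obtain ⟨n, c, Q, _, h⟩ := S.exists_filt ⟨0, by omega⟩ k1
  exact h.I2 hN hμ hF h01 (le_mul_pow k1 l) hA

theorem argmax (hN : 2 ≤ N) (ζ : Fin N → ℝ) : ∃ i0, (∀ i, ζ i ≤ ζ i0) ∧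
    (∀ i, exp (ζ i) / SS ζ ≤ exp (ζ i0) / SS ζ) ∧
    exp (ζ i0) / SS ζ ∈ Set.Ico (1 / N : ℝ) 1 := by
  obtain ⟨i0, -, h⟩ := exists_max_image univ ζ ⟨⟨0, by omega⟩, mem_univ _⟩
  have hS := SS_pos hN ζ
  have hNp : (0 : ℝ) < N := by exact_mod_cast (by omega : 0 < N)
  refine ⟨i0, fun i => h i (mem_univ _), fun i => div_le_div_of_nonneg_right
    (Real.exp_le_exp.2 (h i (mem_univ _))) hS.le, ?_, ?_⟩
  · rw [div_le_div_iff₀ hNp hS]
    have := sum_le_card_nsmul univ (fun i => exp (ζ i)) _ fun i hi => Real.exp_le_exp.2 (h i hi)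
    simp only [card_univ, Fintype.card_fin, nsmul_eq_mul] at this
    unfold SS
    linarith
  · rw [div_lt_one hS]
    linarith [rest_pos hN ζ i0]

theorem Search.good (hN : 2 ≤ N) : ∀ᵐ ω ∂P, ∀ l k, ∃ i0,
    (∀ i, S.cE i (grid l k) ω ≤ S.cE i0 (grid l k) ω) ∧
    S.cE i0 (grid l k) ω ∈ Set.Ico (1 / N : ℝ) 1 ∧
    AA N (S.cE i0 (grid l k) ω) ≤ S.U (grid l k) ω := by
  refine ae_all_iff.2 fun l => ae_all_iff.2 fun k => ?_
  obtain ⟨n, c, Q, _, h⟩ := S.exists_filt ⟨0, by omega⟩ k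
  have hk := grid_le (le_mul_pow k l)
  filter_upwards [h.cE_eq hN hk, h.U_eq hN hk] with ω h1 h2
  obtain ⟨i0, a1, a2, a3⟩ := argmax hN (zv S k n c (grid l k) ω)
  simp only [h1, h2]
  refine ⟨i0, a2, a3, ?_⟩
  rw [le_div_iff₀ (SS_pos hN _), mul_comm]
  exact Gam_ge hN _ _ a1

theorem Search.good' (hN : 2 ≤ N) (hμ : 0 < μ) (hF : S.IsFTL) : ∀ᵐ ω ∂P, ∀ l k, ∃ i0,
    S.cE i0 (grid l k) ω ∈ Set.Ico (1 / N : ℝ) 1 ∧
    S.U (grid l k) ω = AA N (S.cE i0 (grid l k) ω) := by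
  refine ae_all_iff.2 fun l => ae_all_iff.2 fun k => ?_
  obtain ⟨n, c, Q, _, h⟩ := S.exists_filt ⟨0, by omega⟩ k
  have hk := grid_le (le_mul_pow k l)
  have h3 : ∀ᵐ ω ∂P, ∀ a b d : Fin N, a ≠ b → a ≠ d → b ≠ d →
      lam (exp (zv S k n c (grid l k) ω a)) (exp (zv S k n c (grid l k) ω b))
        (exp (zv S k n c (grid l k) ω d)) = 0 := by
    simp only [ae_all_iff]
    exact fun a b d hab had hbd => h.I3 hN hμ hF (le_mul_pow k l) hab had hbd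
  filter_upwards [h.cE_eq hN hk, h.U_eq hN hk, h3] with ω h1 h2 h3
  obtain ⟨i0, a1, -, a3⟩ := argmax hN (zv S k n c (grid l k) ω)
  simp only [h1, h2]
  refine ⟨i0, a3, ?_⟩
  rw [div_eq_iff (SS_pos hN _).ne', mul_comm]
  refine Gam_ray hN _ _ a1 fun b d hb hd => ?_
  by_cases hbd : b = d
  · rw [hbd]
  · exact Real.exp_injective (eq_of_lam (Real.exp_le_exp.2 (a1 b)) (Real.exp_le_exp.2 (a1 d))
      (h3 i0 b d hb.symm hd.symm hbd))

theorem Search.at_zero (hN : 2 ≤ N) :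
    ∀ᵐ ω ∂P, (∀ i, S.cE i 0 ω = 1 / N) ∧ S.U 0 ω = AA N (1 / N) := by
  obtain ⟨n, c, Q, _, h⟩ := S.exists_filt ⟨0, by omega⟩ 0
  have e : ∀ ω, zv S 0 n c 0 ω = 0 := fun ω => funext fun j => zl_zero _ _ _ _ _ _ _
  have e2 : SS (0 : Fin N → ℝ) = N := by simp [SS]
  filter_upwards [h.cE_eq hN zero_le, h.U_eq hN zero_le] with ω h1 h2
  simp only [e, e2, Pi.zero_apply, Real.exp_zero] at h1 h2
  refine ⟨h1, ?_⟩
  have hNp : (0 : ℝ) < N := by exact_mod_cast (by omega : 0 < N)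
  rw [h2, Gam_ray hN 0 ⟨0, by omega⟩ (fun _ => le_rfl) fun _ _ _ _ => rfl, e2]
  simp only [Pi.zero_apply, Real.exp_zero]
  field_simp

omit [IsProbabilityMeasure P] in
theorem Search.post_grid : ∀ᵐ ω ∂P, ∀ l k i, S.post i (grid l k) ω = S.cE i (grid l k) ω := by
  simp only [ae_all_iff]
  exact fun l k i => S.post_eq i _

/-- the level is reached at a grid point -/
def Search.hit (p : ℝ) (l k : ℕ) : Set Ω := {ω | ∃ i, p ≤ S.cE i (grid l k) ω}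

omit [IsProbabilityMeasure P] in
theorem Search.hit_meas (p : ℝ) (l k : ℕ) : MeasurableSet[Gd S.G l k] (S.hit p l k) := by
  rw [Search.hit, Set.ofPred_exists]
  exact MeasurableSet.iUnion fun i => S.mcE i _ measurableSet_Ici

theorem Search.stop_eq (hN : 2 ≤ N) (p : ℝ) (l M : ℕ) :
    Integrable (fun ω => S.U (grid l (st (S.hit p l) M ω)) ω) P ∧
    ∫ ω, S.U (grid l (st (S.hit p l) M ω)) ω ∂P = AA N (1 / N) + ∑ k ∈ range M,
      (∫ ω in {ω | k < st (S.hit p l) M ω}, S.U (grid l (k + 1)) ω ∂P -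
        ∫ ω in {ω | k < st (S.hit p l) M ω}, S.U (grid l k) ω ∂P) := by
  obtain ⟨h1, h2⟩ := stop_int (U := fun k => S.U (grid l k)) (S.intU hN l) (st_le (S.hit p l) M)
    fun k => (Gd S.G l).le k _ (st_meas (S.hit_meas p l) M k)
  refine ⟨h1, h2.trans ?_⟩
  rw [grid_zero, integral_congr_ae ((S.at_zero hN).mono fun ω h => h.2)]
  simp

theorem Search.time_eq (p : ℝ) (l M : ℕ) :
    Integrable (fun ω => (grid l (st (S.hit p l) M ω) : ℝ)) P ∧
    μ ^ 2 / 2 * ∫ ω, (grid l (st (S.hit p l) M ω) : ℝ) ∂P = ∑ k ∈ range M,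
      μ ^ 2 * ((grid l (k + 1) : ℝ) - grid l k) / 2 * P.real {ω | k < st (S.hit p l) M ω} := by
  obtain ⟨h1, h2⟩ := stop_time (P := P) (st_le (S.hit p l) M)
    (fun k => (Gd S.G l).le k _ (st_meas (S.hit_meas p l) M k)) l
  refine ⟨h1, ?_⟩
  rw [h2, mul_sum]
  exact sum_congr rfl fun k _ => by ring

theorem Search.stop_le (hN : 2 ≤ N) (p : ℝ) (l M : ℕ) :
    ∫ ω, S.U (grid l (st (S.hit p l) M ω)) ω ∂P ≤
      AA N (1 / N) + μ ^ 2 / 2 * ∫ ω, (grid l (st (S.hit p l) M ω) : ℝ) ∂P := by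
  rw [(S.stop_eq hN p l M).2, (S.time_eq p l M).2]
  refine add_le_add le_rfl (sum_le_sum fun k _ => ?_)
  linarith [S.I1 hN (Nat.le_succ k) (st_meas (S.hit_meas p l) M k)]

theorem Search.stop_ge (hN : 2 ≤ N) (hμ : 0 < μ) (hF : S.IsFTL) (p : ℝ) (l M : ℕ) :
    AA N (1 / N) + μ ^ 2 / 2 * ∫ ω, (grid l (st (S.hit p l) M ω) : ℝ) ∂P ≤
      ∫ ω, S.U (grid l (st (S.hit p l) M ω)) ω ∂P := by
  rw [(S.stop_eq hN p l M).2, (S.time_eq p l M).2]
  refine add_le_add le_rfl (sum_le_sum fun k _ => ?_)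
  linarith [S.I2 hN hμ hF (Nat.le_succ k) (st_meas (S.hit_meas p l) M k)]

end Pool.Agent.MP_96872c_an
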