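import Pool.Agent.MP_96872c_an.Super

open Finset Real MeasureTheory ProbabilityTheory Filter Topology
open scoped NNReal ENNReal

namespace Pool.Agent.MP_96872c_an

variable {N : ℕ} {μ : ℝ} {Ω : Type} [mΩ : MeasurableSpace Ω] {P : Measure Ω}
  {S : Search N μ P} {m : ℕ} {n : ℕ → ℕ} {c : ℕ → ℕ → Ω → Fin N} {Q : Measure Ω}

theorem Yy_close (ζ ξ : Fin N → ℝ) (j : Fin N) :
    Yy ζ j ≤ Yy ξ j + (N + 1) * ∑ i, |exp (ζ i) - exp (ξ i)| := by
  have h1 : |exp (ζ j) - exp (ξ j)| ≤ ∑ i, |exp (ζ i) - exp (ξ i)| :=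
    single_le_sum (f := fun i => |exp (ζ i) - exp (ξ i)|) (fun _ _ => abs_nonneg _) (mem_univ j)
  have h2 : Yy ζ j ≤ ∑ i, (max (exp (ξ i) - exp (ξ j)) 0 + |exp (ζ i) - exp (ξ i)| +
      |exp (ζ j) - exp (ξ j)|) := by
    refine sum_le_sum fun i _ => max_le ?_ (by positivity)
    linarith [le_max_left (exp (ξ i) - exp (ξ j)) 0, le_abs_self (exp (ζ i) - exp (ξ i)),
      neg_abs_le (exp (ζ j) - exp (ξ j))]
  simp only [sum_add_distrib, sum_const, card_univ, Fintype.card_fin, nsmul_eq_mul] at h2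
  have h3 := mul_le_mul_of_nonneg_left h1 (Nat.cast_nonneg (α := ℝ) N)
  unfold Yy at *
  linarith

theorem tendsto_grid {n : ℕ → ℕ} (hn : StrictMono n) {s : ℝ} (hs : 0 ≤ s) :
    Tendsto (fun r => grid (n r) ⌊s * 2 ^ n r⌋₊) atTop (𝓝 s.toNNReal) := by
  rw [← NNReal.tendsto_coe, Real.coe_toNNReal _ hs]
  simp only [grid_coe]
  exact (tendsto_nat_floor_mul_div_atTop hs).comp
    ((tendsto_pow_atTop_atTop_of_one_lt one_lt_two).comp hn.tendsto_atTop)

/-- normalised excess at a grid point -/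
noncomputable def ww (S : Search N μ P) (m : ℕ) (n : ℕ → ℕ) (c : ℕ → ℕ → Ω → Fin N) (r k : ℕ)
    (ω : Ω) : ℝ :=
  Yy (zv S m n c (grid (n r) k) ω) (c r k ω) / SS (zv S m n c (grid (n r) k) ω)

theorem ww_abs (hN : 2 ≤ N) (r k : ℕ) (ω : Ω) : |ww S m n c r k ω| ≤ 1 := by
  rw [ww, abs_of_nonneg (div_nonneg (Yy_nonneg _ _) (SS_pos hN _).le), div_le_one (SS_pos hN _)]
  exact Yy_le _ _

theorem Filt.mYy (h : Filt S m n c Q) (r k : ℕ) : Measurable[S.G (grid (n r) k)] fun ω =>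
    Yy (zv S m n c (grid (n r) k) ω) (c r k ω) :=
  (meas_err gr_Yy).comp ((h.mzv _).prodMk (h.apx.meas r k))

theorem Filt.mww (h : Filt S m n c Q) (r k : ℕ) : Measurable (ww S m n c r k) :=
  ((h.mYy r k).div (gr_SS.1.comp (h.mzv _))).mono (S.G.le _) le_rfl

variable [IsProbabilityMeasure P]

theorem Filt.ww_path (h : Filt S m n c Q) (hN : 2 ≤ N) (hF : S.IsFTL) : ∀ᵐ ω ∂P,
    Tendsto (fun r => ∑ k ∈ range (m * 2 ^ n r), ww S m n c r k ω * (1 / 2 ^ n r)) atTop (𝓝 0) := by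
  have h1 : ∀ᵐ ω ∂P, ∀ r k, k ≤ m * 2 ^ n r → ∀ i, S.post i (grid (n r) k) ω =
      exp (zv S m n c (grid (n r) k) ω i) / SS (zv S m n c (grid (n r) k) ω) := by
    refine ae_all_iff.2 fun r => ae_all_iff.2 fun k => ?_
    by_cases hk : k ≤ m * 2 ^ n r
    · filter_upwards [h.cE_eq hN (grid_le hk), ae_all_iff.2 fun i => S.post_eq i (grid (n r) k)]
        with ω h1 h2 _ i
      rw [h2 i, ← h1 i]
      rfl
    · exact Eventually.of_forall fun _ h => absurd h hk
  filter_upwards [h1, S.post_cont, hF] with ω h1 h2 h3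
  have h4 := tendsto_int_zero (f := fun r s => ww S m n c r ⌊s * 2 ^ n r⌋₊ ω)
    (fun r => meas_step _ fun k => ww S m n c r k ω) (fun r s => ww_abs hN _ _ _) m (by
      filter_upwards [h3, h.apx.conv ω] with s h3 h4 hs0 hsm
      have h5 := fun i => ((h2 i).tendsto _).comp (tendsto_grid h.apx.mono hs0.le)
      have h6 := tendsto_finsetSum univ fun i _ =>
        ((h5 i).sub (h5 (S.J s.toNNReal ω))).max (tendsto_const_nhds (x := (0 : ℝ)))
      rw [sum_eq_zero fun i _ => max_eq_right (sub_nonpos.2 (h3 hs0 i))] at h6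
      refine h6.congr' ?_
      filter_upwards [h4 hs0] with r hr
      have hk : ⌊s * 2 ^ n r⌋₊ ≤ m * 2 ^ n r := Nat.floor_le_of_le (by
        push_cast
        exact mul_le_mul_of_nonneg_right (by exact_mod_cast hsm) (by positivity))
      simp only [Function.comp, h1 r _ hk, ww, Yy, hr, sum_div]
      refine sum_congr rfl fun i _ => ?_
      rw [← max_div_div_right (SS_pos hN _).le, sub_div, zero_div])
  refine h4.congr fun r => ?_
  have e1 := SI_time (n := n r) (m := m * 2 ^ n r) (a := 0) (b := m) zero_le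
    (by rw [grid_nat]) (fun k => ww_abs (S := S) (m := m) (n := n) (c := c) hN r k ω)
  have e2 := SI_grid (n r) (le_refl (m * 2 ^ n r)) (ww S m n c r) tm ω
  rw [grid_nat, e1] at e2
  simpa only [tm, grid_succ, NNReal.coe_zero] using e2

theorem Filt.ww_int (h : Filt S m n c Q) (hN : 2 ≤ N) (hF : S.IsFTL) :
    Tendsto (fun r => ∑ k ∈ range (m * 2 ^ n r), (∫ ω, ww S m n c r k ω ∂P) * (1 / 2 ^ n r))
      atTop (𝓝 0) := by
  have h1 := tendsto_integral_of_dominated_convergence (μ := P) (fun _ => (m : ℝ))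
    (fun r => (Finset.measurable_sum _ fun k _ =>
      (h.mww r k).mul_const (1 / 2 ^ n r)).aestronglyMeasurable) (integrable_const _)
    (fun r => Eventually.of_forall fun ω => (norm_sum_le _ _).trans (by
      refine (sum_le_card_nsmul _ _ (1 / 2 ^ n r) fun k _ => ?_).trans (le_of_eq ?_)
      · rw [norm_mul, Real.norm_eq_abs, Real.norm_eq_abs, abs_of_pos (by positivity : (0 : ℝ) < 1 / 2 ^ n r)]
        exact mul_le_of_le_one_left (by positivity) (ww_abs hN _ _ _)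
      · simp)) (h.ww_path hN hF)
  rw [integral_zero] at h1
  refine h1.congr fun r => ?_
  rw [integral_finsetSum _ fun k _ => (Integrable.of_bound (h.mww r k).aestronglyMeasurable 1
    (Eventually.of_forall fun ω => ww_abs hN _ _ _)).mul_const _]
  simp only [integral_mul_const]

variable [IsProbabilityMeasure Q]

omit [IsProbabilityMeasure P] in
theorem Filt.int_expc (h : Filt S m n c Q) (i : Fin N) {l k : ℕ} (hk : k ≤ m * 2 ^ l) :
    Integrable (fun ω => exp (zv S m n c (grid l k) ω i)) Q :=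
  integrableOn_univ.1 (h.limF (Gr.expc i) (by fun_prop) hk _).1

omit [IsProbabilityMeasure P] in
theorem Filt.delta_le (h : Filt S m n c Q) (i : Fin N) (r : ℕ) {k : ℕ} (hk : k ≤ m * 2 ^ n r) :
    ∫ ω, |exp (zeta (XX μ S.Y (n r)) (c r) k ω i) - exp (zv S m n c (grid (n r) k) ω i)| ∂Q ≤
      ∫ ω, |exp (zeta (XX μ S.Y (n r)) (c r) (m * 2 ^ n r) ω i) - exp (zv S m n c m ω i)| ∂Q := by
  have i1 := (h.disc r).int (Gr.expc i) hk
  have i2 := h.int_expc i hk
  have i3 := (h.disc r).int (Gr.expc i) le_rfl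
  have i4 := h.int_expc i (le_refl (m * 2 ^ n r))
  rw [grid_nat] at i4
  refine abs_int_le (S.G.le (grid (n r) k))
    (((Gr.expc i).1.comp ((h.disc r).mz k)).sub ((Gr.expc i).1.comp (h.mzv _))) (i1.sub i2)
    (i3.sub i4) fun A hA => ?_
  simp only [Pi.sub_apply, Function.comp]
  rw [integral_sub i1.integrableOn i2.integrableOn, integral_sub i3.integrableOn i4.integrableOn,
    (h.disc r).mart (Gr.expc i) (I_expc _ i) hA hk le_rfl, h.int_exp i (grid_le hk) hA,
    h.int_exp i le_rfl (S.G.mono (grid_le hk) _ hA)]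

omit [IsProbabilityMeasure P] in
theorem Filt.delta_lim (h : Filt S m n c Q) (i : Fin N) :
    Tendsto (fun r => ∫ ω, |exp (zeta (XX μ S.Y (n r)) (c r) (m * 2 ^ n r) ω i) -
      exp (zv S m n c m ω i)| ∂Q) atTop (𝓝 0) := by
  have hk : m ≤ m * 2 ^ 0 := by simp
  have e : grid 0 m = m := by simp [grid]
  have h1 := h.int_expc i hk
  have h2 := h.lim_zeta hk
  have h3 := (h.limF (Gr.expc i) (by fun_prop) hk Set.univ).2
  simp only [e, Nat.sub_zero, Measure.restrict_univ] at h1 h2 h3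
  exact scheffe (fun r => (h.disc r).int (Gr.expc i) le_rfl) h1 (fun _ _ => (exp_pos _).le)
    (fun _ => (exp_pos _).le) (h2.mono fun ω hω =>
      (Real.continuous_exp.tendsto _).comp (tendsto_pi_nhds.1 hω i)) h3

theorem Filt.RR_lim (h : Filt S m n c Q) (hN : 2 ≤ N) (hF : S.IsFTL) :
    Tendsto (fun r => RR Q (XX μ S.Y (n r)) (c r) (vv μ (n r)) (m * 2 ^ n r)) atTop (𝓝 0) := by
  have h1 := ((h.ww_int hN hF).const_mul (μ ^ 2 * N)).add
    ((tendsto_finsetSum univ fun i _ => h.delta_lim i).const_mul (μ ^ 2 * m * (N + 1)))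
  simp only [mul_zero, sum_const_zero, add_zero] at h1
  refine squeeze_zero (fun r => mul_nonneg (vv μ _).2 (sum_nonneg fun k _ =>
    integral_nonneg fun ω => Yy_nonneg _ _)) (fun r => ?_) h1
  set δ := ∑ i, ∫ ω, |exp (zeta (XX μ S.Y (n r)) (c r) (m * 2 ^ n r) ω i) -
      exp (zv S m n c m ω i)| ∂Q
  have hNp : (0 : ℝ) < N := by exact_mod_cast (by omega : 0 < N)
  have key : ∀ k ∈ range (m * 2 ^ n r), ∫ ω, Yy (zeta (XX μ S.Y (n r)) (c r) k ω) (c r k ω) ∂Q ≤
      N * ∫ ω, ww S m n c r k ω ∂P + (N + 1) * δ := by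
    intro k hk
    have hk' := (mem_range.1 hk).le
    have e1 := h.int_P hN (grid_le hk') (h.mYy r k) (@MeasurableSet.univ _ (S.G _))
    simp only [Measure.restrict_univ] at e1
    have i1 : Integrable (fun ω => Yy (zv S m n c (grid (n r) k) ω) (c r k ω)) Q :=
      (integrableOn_univ.1 (h.limF gr_SS cont_SS hk' _).1).mono'
        ((h.mYy r k).mono (S.G.le _) le_rfl).aestronglyMeasurable (Eventually.of_forall fun ω => by
          rw [Real.norm_eq_abs, abs_of_nonneg (Yy_nonneg _ _)]; exact Yy_le _ _)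
    have i2 : ∀ i, Integrable (fun ω => |exp (zeta (XX μ S.Y (n r)) (c r) k ω i) -
        exp (zv S m n c (grid (n r) k) ω i)|) Q := fun i =>
      (((h.disc r).int (Gr.expc i) hk').sub (h.int_expc i hk')).abs
    have i3 := (integrable_finsetSum univ fun i _ => i2 i).const_mul ((N : ℝ) + 1)
    refine (integral_mono ((h.disc r).int_err gr_Yy hk') (i1.add i3) fun ω =>
      Yy_close _ _ _).trans ?_
    simp only [Pi.add_apply]
    rw [integral_add i1 i3, integral_const_mul, integral_finsetSum _ fun i _ => i2 i]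
    refine add_le_add (le_of_eq ?_) (mul_le_mul_of_nonneg_left
      (sum_le_sum fun i _ => h.delta_le i r hk') (by positivity))
    unfold ww
    rw [e1]
    field_simp
  refine (mul_le_mul_of_nonneg_left (sum_le_sum key) (vv μ _).2).trans (le_of_eq ?_)
  simp only [sum_add_distrib, sum_const, card_range, nsmul_eq_mul, ← mul_sum, ← sum_mul]
  change (vv μ (n r) : ℝ) * _ = _
  rw [vv_coe]
  push_cast
  field_simp

omit [IsProbabilityMeasure P] [IsProbabilityMeasure Q] in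
theorem Filt.vv_lim (h : Filt S m n c Q) : Tendsto (fun r => (vv μ (n r) : ℝ)) atTop (𝓝 0) := by
  simp only [vv_coe]
  exact ((tendsto_pow_atTop_atTop_of_one_lt one_lt_two).comp
    h.apx.mono.tendsto_atTop).const_div_atTop _

theorem vv_pos (hμ : 0 < μ) (n : ℕ) : 0 < vv μ n := by
  rw [← NNReal.coe_pos, vv_coe]; positivity

theorem vv_M (μ : ℝ) (n m : ℕ) : (vv μ n : ℝ) * (m * 2 ^ n : ℕ) = μ ^ 2 * m := by
  rw [vv_mul, grid_nat]; rfl

theorem Filt.I2 (h : Filt S m n c Q) (hN : 2 ≤ N) (hμ : 0 < μ) (hF : S.IsFTL) {l k0 k1 : ℕ}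
    (h01 : k0 ≤ k1) (hk : k1 ≤ m * 2 ^ l) {A : Set Ω} (hA : MeasurableSet[S.G (grid l k0)] A) :
    ∫ ω in A, S.U (grid l k0) ω ∂P + μ ^ 2 * ((grid l k1 : ℝ) - grid l k0) / 2 * P.real A ≤
      ∫ ω in A, S.U (grid l k1) ω ∂P := by
  have hk0 := h01.trans hk
  rw [h.int_U hN (grid_le hk) (S.G.mono (grid_mono l h01) _ hA), h.int_U hN (grid_le hk0) hA,
    h.real_eq hN (grid_le hk0) hA, ← mul_div_assoc, ← add_div]
  refine div_le_div_of_nonneg_right ?_ (Nat.cast_nonneg N)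
  have h1 := (h.limF gr_Gam cont_Gam hk A).2.add ((((h.RR_lim hN hF).const_mul 2).add
    (((h.vv_lim.sqrt.const_mul 11).const_mul (μ ^ 2 * m)).mul_const (N : ℝ))).const_mul ((N : ℝ) ^ 2))
  simp only [sqrt_zero, mul_zero, zero_mul, add_zero] at h1
  refine le_of_tendsto_of_tendsto ((h.limF gr_Gam cont_Gam hk0 A).2.add
    ((h.limF gr_SS cont_SS hk0 A).2.const_mul _)) h1 ?_
  filter_upwards [eventually_ge_atTop l,
    h.vv_lim.eventually (ge_mem_nhds (by norm_num : (0 : ℝ) < 1 / 6))] with r hr hv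
  rw [← h.vv_idx hr, ← vv_M μ (n r)]
  exact (h.disc r).D2 hN (vv_pos hμ _) hv (by rw [← (h.idx hr k0).1] at hA; exact hA)
    (Nat.mul_le_mul_right _ h01) ((h.idx hr k1).2 hk)

omit [IsProbabilityMeasure P] in
theorem Filt.bound' (h : Filt S m n c Q) {F : (Fin N → ℝ) → ℝ} (hF : Gr F) : ∃ C, ∀ r,
    ∀ k ≤ m * 2 ^ n r, ∫ ω, F (zeta (XX μ S.Y (n r)) (c r) k ω) ∂Q ≤ C := by
  obtain ⟨C, hC⟩ := h.bound hF
  refine ⟨max C 0, fun r k hk => ?_⟩
  have i1 := (h.disc r).int hF hk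
  have h1 := (hC r k hk).trans (ENNReal.ofReal_le_ofReal (le_max_left C 0))
  rw [← ofReal_integral_eq_lintegral_ofReal i1.abs (Eventually.of_forall fun _ => abs_nonneg _),
    ENNReal.ofReal_le_ofReal_iff (le_max_right _ _)] at h1
  exact (integral_mono i1 i1.abs fun _ => le_abs_self _).trans h1

theorem Filt.I3 (h : Filt S m n c Q) (hN : 2 ≤ N) (hμ : 0 < μ) (hF : S.IsFTL) {l k : ℕ}
    (hk : k ≤ m * 2 ^ l) {a b d : Fin N} (hab : a ≠ b) (had : a ≠ d) (hbd : b ≠ d) :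
    ∀ᵐ ω ∂P, lam (exp (zv S m n c (grid l k) ω a)) (exp (zv S m n c (grid l k) ω b))
      (exp (zv S m n c (grid l k) ω d)) = 0 := by
  obtain ⟨C3, h3⟩ := h.bound' (gr_SS.pow 3)
  obtain ⟨C4, h4⟩ := h.bound' (gr_SS.pow 4)
  obtain ⟨i1, l1⟩ := h.limF (gr_lam a b d) (by unfold lam; fun_prop) hk Set.univ
  rw [integrableOn_univ] at i1
  rw [Measure.restrict_univ] at l1
  have key : ∀ K : ℝ, 0 < K → ∫ ω, lam (exp (zv S m n c (grid l k) ω a))
      (exp (zv S m n c (grid l k) ω b)) (exp (zv S m n c (grid l k) ω d)) ∂Q ≤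
      24 * (μ ^ 2 * m * C4 / K) := by
    intro K hK
    have h1 := ((((h.RR_lim hN hF).const_mul (K ^ 2)).add_const (μ ^ 2 * m * C4 / K)).const_mul
      24).add (((h.vv_lim.sqrt.const_mul 44).const_mul (12 * (μ ^ 2 * m))).mul_const C3)
    simp only [sqrt_zero, mul_zero, zero_mul, add_zero, zero_add] at h1
    refine le_of_tendsto_of_tendsto l1 h1 ?_
    filter_upwards [eventually_ge_atTop l,
      h.vv_lim.eventually (ge_mem_nhds (by norm_num : (0 : ℝ) < 1 / 6))] with r hr hv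
    rw [← vv_M μ (n r)]
    exact (h.disc r).D3 (vv_pos hμ _) hv hab had hbd hK (h3 r) (h4 r) ((h.idx hr k).2 hk)
  have h0 := ge_of_tendsto ((tendsto_id.const_div_atTop (μ ^ 2 * m * C4)).const_mul 24)
    ((eventually_gt_atTop 0).mono key)
  rw [mul_zero] at h0
  have h5 := (integral_eq_zero_iff_of_nonneg (fun ω => lam_nonneg _ _ _) i1).1
    (le_antisymm h0 (integral_nonneg fun ω => lam_nonneg _ _ _))
  exact dens_ae (h.P_apply hN (grid_le hk))
    (((gr_lam a b d).1.comp (h.mzv _)) (measurableSet_singleton 0)) h5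

end Pool.Agent.MP_96872c_an
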