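import Pool.Agent.MP_96872c_an.Filt
import Pool.Agent.MP_96872c_an.Disc2

open Finset Real MeasureTheory ProbabilityTheory Filter Topology
open scoped NNReal ENNReal

namespace Pool.Agent.MP_96872c_an

section Dens

variable {Ω : Type} {m mΩ : MeasurableSpace Ω} {ρ Q : Measure Ω} {L f : Ω → ℝ}

theorem dens_trim (hle : m ≤ mΩ)
    (h : ∀ A, MeasurableSet[m] A → ρ A = ∫⁻ ω in A, ENNReal.ofReal (L ω) ∂Q) :
    ρ.trim hle = (Q.withDensity fun ω => ENNReal.ofReal (L ω)).trim hle :=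
  @Measure.ext _ m _ _ fun B hB => by
    rw [trim_measurableSet_eq _ hB, trim_measurableSet_eq _ hB, h B hB,
      withDensity_apply _ (hle _ hB)]

theorem dens_integral (hle : m ≤ mΩ) (hL : Measurable L) (hL0 : ∀ ω, 0 ≤ L ω)
    (h : ∀ A, MeasurableSet[m] A → ρ A = ∫⁻ ω in A, ENNReal.ofReal (L ω) ∂Q)
    (hf : Measurable[m] f) {A : Set Ω} (hA : MeasurableSet[m] A) :
    ∫ ω in A, f ω ∂ρ = ∫ ω in A, L ω * f ω ∂Q := by
  rw [setIntegral_trim hle hf.stronglyMeasurable hA, dens_trim hle h,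
    ← setIntegral_trim hle hf.stronglyMeasurable hA, restrict_withDensity (hle _ hA),
    integral_withDensity_eq_integral_toReal_smul hL.ennreal_ofReal (by simp)]
  simp only [ENNReal.toReal_ofReal (hL0 _), smul_eq_mul]

theorem dens_integrable (hle : m ≤ mΩ) (hL : Measurable L) (hL0 : ∀ ω, 0 ≤ L ω)
    (h : ∀ A, MeasurableSet[m] A → ρ A = ∫⁻ ω in A, ENNReal.ofReal (L ω) ∂Q)
    (hf : Measurable[m] f) (hi : Integrable (fun ω => L ω * f ω) Q) : Integrable f ρ := by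
  refine integrable_of_integrable_trim hle ?_
  rw [dens_trim hle h]
  refine Integrable.trim hle ?_ hf.stronglyMeasurable
  rw [integrable_withDensity_iff_integrable_smul' hL.ennreal_ofReal (by simp)]
  simpa only [ENNReal.toReal_ofReal (hL0 _), smul_eq_mul] using hi

theorem dens_ae (h : ∀ A, MeasurableSet[m] A → ρ A = ∫⁻ ω in A, ENNReal.ofReal (L ω) ∂Q)
    {p : Ω → Prop} (hp : MeasurableSet[m] {ω | p ω}) (hQ : ∀ᵐ ω ∂Q, p ω) : ∀ᵐ ω ∂ρ, p ω := by
  rw [ae_iff] at hQ ⊢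
  exact (h _ hp.compl).trans (setLIntegral_measure_zero _ _ hQ)

theorem scheffe {f : ℕ → Ω → ℝ} {g : Ω → ℝ} (hf : ∀ r, Integrable (f r) ρ) (hg : Integrable g ρ)
    (f0 : ∀ r ω, 0 ≤ f r ω) (g0 : ∀ ω, 0 ≤ g ω)
    (hl : ∀ᵐ ω ∂ρ, Tendsto (fun r => f r ω) atTop (𝓝 (g ω)))
    (hI : Tendsto (fun r => ∫ ω, f r ω ∂ρ) atTop (𝓝 (∫ ω, g ω ∂ρ))) :
    Tendsto (fun r => ∫ ω, |f r ω - g ω| ∂ρ) atTop (𝓝 0) := by
  have hi : ∀ r, Integrable (fun ω => max (g ω - f r ω) 0) ρ := fun r => (hg.sub (hf r)).pos_part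
  have h1 := tendsto_integral_of_dominated_convergence (μ := ρ)
    (F := fun r ω => max (g ω - f r ω) 0) (f := fun _ => 0) g (fun r => (hi r).1) hg
    (fun r => Eventually.of_forall fun ω => by
      rw [Real.norm_eq_abs, abs_of_nonneg (le_max_right _ _)]
      exact max_le (by linarith [f0 r ω]) (g0 ω))
    (hl.mono fun ω hω => by simpa using (hω.const_sub (g ω)).max (tendsto_const_nhds (x := 0)))
  have h2 := (hI.sub_const (∫ ω, g ω ∂ρ)).add (h1.const_mul 2)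
  simp only [sub_self, integral_zero, mul_zero, add_zero] at h2
  refine h2.congr fun r => ?_
  have i1 : Integrable (fun ω => f r ω - g ω) ρ := (hf r).sub hg
  rw [← integral_sub (hf r) hg, ← integral_const_mul, ← integral_add i1 ((hi r).const_mul 2)]
  refine integral_congr_ae (Eventually.of_forall fun ω => ?_)
  simp only
  rcases le_total (f r ω) (g ω) with h | h
  · rw [max_eq_left (by linarith), abs_of_nonpos (by linarith)]; ring
  · rw [max_eq_right (by linarith), abs_of_nonneg (by linarith)]; ring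

theorem abs_int_le [IsFiniteMeasure ρ] (hle : m ≤ mΩ) (hf : Measurable[m] f)
    (hfi : Integrable f ρ) {g : Ω → ℝ} (hg : Integrable g ρ)
    (h : ∀ A, MeasurableSet[m] A → ∫ ω in A, f ω ∂ρ = ∫ ω in A, g ω ∂ρ) :
    ∫ ω, |f ω| ∂ρ ≤ ∫ ω, |g ω| ∂ρ := by
  have h1 := ae_eq_condExp_of_forall_setIntegral_eq hle hg (fun _ _ _ => hfi.integrableOn)
    (fun A hA _ => h A hA) hf.aestronglyMeasurable
  rw [integral_congr_ae (h1.mono fun ω hω => by rw [hω])]
  exact integral_abs_condExp_le g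

end Dens

section Model

variable {N : ℕ} {Ω : Type} {mΩ : MeasurableSpace Ω} {G : Filtration ℝ≥0 mΩ} {Q : Measure Ω}
  {Y : ℝ≥0 → Ω → ℝ}

noncomputable def vv (μ : ℝ) (n : ℕ) : ℝ≥0 := .mk (μ ^ 2) (sq_nonneg _) * grid n 1

theorem vv_coe (μ : ℝ) (n : ℕ) : (vv μ n : ℝ) = μ ^ 2 / 2 ^ n := by
  simp [vv, grid_coe, div_eq_mul_inv]

theorem vv_mul (μ : ℝ) (n k : ℕ) : (vv μ n : ℝ) * k = μ ^ 2 * grid n k := by
  rw [vv_coe, grid_coe]; ring

/-- the filtration along a grid -/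
noncomputable def Gd (G : Filtration ℝ≥0 mΩ) (n : ℕ) : Filtration ℕ mΩ :=
  ⟨fun k => G (grid n k), fun _ _ h => G.mono (grid_mono n h), fun _ => G.le _⟩

noncomputable def XX (μ : ℝ) (Y : ℝ≥0 → Ω → ℝ) (n k : ℕ) (ω : Ω) : ℝ :=
  μ * (Y (grid n (k + 1)) ω - Y (grid n k) ω) - vv μ n / 2

theorem disc_model {m : ℕ} (hB : BMon Q G Y m) (μ : ℝ) {n : ℕ} {c : ℕ → Ω → Fin N}
    (hc : ∀ k, Measurable[G (grid n k)] (c k)) :
    Disc Q (Gd G n) (XX μ Y n) c (vv μ n) (m * 2 ^ n) where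
  mX k := (((hB.meas _).sub ((hB.meas _).mono (G.mono (grid_mono n (Nat.le_succ k)))
    le_rfl)).const_mul μ).sub_const _
  mJ := hc
  law k hk := by
    have h1 := (hB.law _ _ (grid_mono n (Nat.le_succ k)) (by
      rw [← grid_nat n m]; exact grid_mono n hk)).map
      (((hB.meas _).mono (G.le _) le_rfl).sub ((hB.meas _).mono (G.le _) le_rfl))
      (g := (fun x => x - (vv μ n : ℝ) / 2) ∘ fun x => μ * x) (by fun_prop)
    rw [← Measure.map_map (by fun_prop) (by fun_prop), gaussianReal_map_const_mul,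
      gaussianReal_map_sub_const, grid_succ', mul_zero, zero_sub, ← neg_div] at h1
    exact h1

theorem zeta_eq (μ : ℝ) (Y : ℝ≥0 → Ω → ℝ) {m n k : ℕ} (c : ℕ → Ω → Fin N) (hk : k ≤ m * 2 ^ n)
    (ω : Ω) : zeta (XX μ Y n) c k ω = fun j => zr μ Y m n c j (grid n k) ω := by
  funext j
  simp only [zr, II, SI_grid n hk, zeta, Finset.sum_apply, mul_sum, ← sum_sub_distrib, tm, grid_succ]
  refine sum_congr rfl fun l _ => ?_
  unfold ph XX
  rw [vv_coe]
  split_ifs with h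
  · rw [h, Pi.single_eq_same]; ring
  · rw [Pi.single_eq_of_ne' h]; ring

end Model

theorem cont_SS {N : ℕ} : Continuous (SS (N := N)) := by unfold SS; fun_prop

theorem cont_Gam {N : ℕ} : Continuous (Gam (N := N)) := by
  have h : Continuous (Xi (N := N)) := by
    refine continuous_finsetSum _ fun i _ => continuous_finsetSum _ fun l _ => ?_
    split_ifs
    · exact continuous_const
    · unfold xi; fun_prop
  unfold Gam Phi SS
  fun_prop

variable {N : ℕ} {μ : ℝ} {Ω : Type} [mΩ : MeasurableSpace Ω] {P : Measure Ω}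
  {S : Search N μ P} {m : ℕ} {n : ℕ → ℕ} {c : ℕ → ℕ → Ω → Fin N} {Q : Measure Ω}

/-- vector of log likelihoods -/
noncomputable def zv (S : Search N μ P) (m : ℕ) (n : ℕ → ℕ) (c : ℕ → ℕ → Ω → Fin N) (a : ℝ≥0)
    (ω : Ω) : Fin N → ℝ := fun j => zl μ S.Y m n c j a ω

theorem Filt.mzv (h : Filt S m n c Q) (a : ℝ≥0) : Measurable[S.G a] (zv S m n c a) :=
  @measurable_pi_lambda _ _ _ (S.G a) _ _ fun j => zl_meas h.apx.meas μ S.hY m j a

theorem Filt.mzv' (h : Filt S m n c Q) (a : ℝ≥0) : Measurable (zv S m n c a) :=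
  (h.mzv a).mono (S.G.le a) le_rfl

theorem Filt.disc (h : Filt S m n c Q) (r : ℕ) :
    Disc Q (Gd S.G (n r)) (XX μ S.Y (n r)) (c r) (vv μ (n r)) (m * 2 ^ n r) :=
  disc_model h.bm μ (h.apx.meas r)

theorem Filt.P_apply (h : Filt S m n c Q) (hN : 2 ≤ N) {a : ℝ≥0} (ha : a ≤ m) (A : Set Ω)
    (hA : MeasurableSet[S.G a] A) :
    P A = ∫⁻ ω in A, ENNReal.ofReal (SS (zv S m n c a ω) / N) ∂Q := by
  have hN0 : (N : ℝ≥0∞) ≠ 0 := by exact_mod_cast (by omega : N ≠ 0)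
  have e1 : P A = ∑ j, P (A ∩ {ω | S.box ω = j}) := by
    rw [← measure_biUnion_finset (fun i _ j _ hij => Set.disjoint_left.2 fun ω h1 h2 =>
      hij (h1.2.symm.trans h2.2)) fun j _ => (S.G.le _ _ hA).inter (S.box_set' j)]
    congr 1
    ext ω
    simp
  have hz : ∀ j, Measurable fun ω => ENNReal.ofReal (exp (zl μ S.Y m n c j a ω)) := fun j =>
    ((zl_meas h.apx.meas μ S.hY m j a).mono (S.G.le a) le_rfl).exp.ennreal_ofReal
  have e2 : (N : ℝ≥0∞) * P A = ∫⁻ ω in A, ENNReal.ofReal (SS (zv S m n c a ω)) ∂Q := by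
    rw [e1, mul_sum]
    simp only [← S.rho_apply, h.dens _ a ha A hA]
    rw [← lintegral_finsetSum _ fun j _ => hz j]
    refine lintegral_congr fun ω => ?_
    rw [SS, ENNReal.ofReal_sum_of_nonneg fun _ _ => (exp_pos _).le]
    rfl
  have hNp : (0 : ℝ) < N := by exact_mod_cast (by omega : 0 < N)
  simp only [ENNReal.ofReal_div_of_pos hNp, ENNReal.ofReal_natCast]
  simp only [div_eq_mul_inv]
  have hm : Measurable fun ω => ENNReal.ofReal (SS (zv S m n c a ω)) :=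
    (gr_SS.1.comp (h.mzv' a)).ennreal_ofReal
  rw [lintegral_mul_const _ hm, ← e2, mul_comm, ← mul_assoc,
    ENNReal.inv_mul_cancel hN0 (by simp), one_mul]

theorem Filt.int_P (h : Filt S m n c Q) (hN : 2 ≤ N) {a : ℝ≥0} (ha : a ≤ m) {f : Ω → ℝ}
    (hf : Measurable[S.G a] f) {A : Set Ω} (hA : MeasurableSet[S.G a] A) :
    ∫ ω in A, f ω / SS (zv S m n c a ω) ∂P = (∫ ω in A, f ω ∂Q) / N := by
  have hm : Measurable[S.G a] fun ω => f ω / SS (zv S m n c a ω) :=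
    hf.div (gr_SS.1.comp (h.mzv a))
  rw [dens_integral (S.G.le a) ((gr_SS.1.comp (h.mzv' a)).div_const _)
    (fun ω => div_nonneg (SS_pos hN _).le (Nat.cast_nonneg N)) (h.P_apply hN ha) hm hA,
    ← integral_div]
  refine integral_congr_ae (Eventually.of_forall fun ω => ?_)
  have := SS_pos hN (zv S m n c a ω)
  simp only [Function.comp]
  field_simp

theorem Filt.integrable_P (h : Filt S m n c Q) (hN : 2 ≤ N) {a : ℝ≥0} (ha : a ≤ m) {f : Ω → ℝ}
    (hf : Measurable[S.G a] f) (hi : Integrable f Q) :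
    Integrable (fun ω => f ω / SS (zv S m n c a ω)) P := by
  refine dens_integrable (S.G.le a) ((gr_SS.1.comp (h.mzv' a)).div_const _)
    (fun ω => div_nonneg (SS_pos hN _).le (Nat.cast_nonneg N)) (h.P_apply hN ha)
    (hf.div (gr_SS.1.comp (h.mzv a))) ((hi.div_const N).congr (Eventually.of_forall fun ω => ?_))
  have := SS_pos hN (zv S m n c a ω)
  simp only [Function.comp]
  field_simp

/-- the conditional probability -/
noncomputable def Search.cE (S : Search N μ P) (i : Fin N) (a : ℝ≥0) : Ω → ℝ :=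
  P[Set.indicator {ω | S.box ω = i} (fun _ => (1 : ℝ)) | S.G a]

theorem Search.mcE (S : Search N μ P) (i : Fin N) (a : ℝ≥0) : Measurable[S.G a] (S.cE i a) :=
  stronglyMeasurable_condExp.measurable

theorem Filt.int_exp (h : Filt S m n c Q) (i : Fin N) {a : ℝ≥0} (ha : a ≤ m) {A : Set Ω}
    (hA : MeasurableSet[S.G a] A) :
    ∫ ω in A, exp (zv S m n c a ω i) ∂Q = (S.rho i).real A := by
  rw [Measure.real, h.dens i a ha A hA, integral_eq_lintegral_of_nonneg_ae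
    (Eventually.of_forall fun _ => (exp_pos _).le)
    ((Gr.expc i).1.comp (h.mzv' a)).aestronglyMeasurable]
  rfl

variable [IsProbabilityMeasure P]

theorem Filt.cE_eq (h : Filt S m n c Q) (hN : 2 ≤ N) {a : ℝ≥0} (ha : a ≤ m) :
    ∀ᵐ ω ∂P, ∀ i, S.cE i a ω = exp (zv S m n c a ω i) / SS (zv S m n c a ω) := by
  refine ae_all_iff.2 fun i => ?_
  have hm : Measurable[S.G a] fun ω => exp (zv S m n c a ω i) := (Gr.expc i).1.comp (h.mzv a)
  have hm2 : Measurable[S.G a] fun ω => exp (zv S m n c a ω i) / SS (zv S m n c a ω) :=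
    hm.div (gr_SS.1.comp (h.mzv a))
  refine (ae_eq_condExp_of_forall_setIntegral_eq (S.G.le a)
    ((integrable_const (1 : ℝ)).indicator (S.box_set' i)) (fun A _ _ => Integrable.integrableOn ?_)
    (fun A hA _ => ?_) hm2.aestronglyMeasurable).symm
  · refine Integrable.of_bound (hm2.mono (S.G.le a) le_rfl).aestronglyMeasurable 1
      (Eventually.of_forall fun ω => ?_)
    rw [Real.norm_eq_abs, abs_of_pos (div_pos (exp_pos _) (SS_pos hN _)), div_le_one (SS_pos hN _)]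
    exact exp_le_SS _ _
  · have hNp : (0 : ℝ) < N := by exact_mod_cast (by omega : 0 < N)
    rw [h.int_P hN ha hm hA, h.int_exp i ha hA, Measure.real, S.rho_apply,
      integral_indicator (S.box_set' i), Measure.restrict_restrict (S.box_set' i), Set.inter_comm]
    simp [Measure.real, hNp.ne']

/-- value function along the posterior -/
noncomputable def Search.U (S : Search N μ P) (a : ℝ≥0) (ω : Ω) : ℝ :=
  Gam fun i => log (S.cE i a ω)

omit [IsProbabilityMeasure P] in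
theorem Search.mU (S : Search N μ P) (a : ℝ≥0) : Measurable[S.G a] (S.U a) :=
  gr_Gam.1.comp (@measurable_pi_lambda _ _ _ (S.G a) _ _ fun i => (S.mcE i a).log)

theorem Filt.U_eq (h : Filt S m n c Q) (hN : 2 ≤ N) {a : ℝ≥0} (ha : a ≤ m) :
    ∀ᵐ ω ∂P, S.U a ω = Gam (zv S m n c a ω) / SS (zv S m n c a ω) := by
  filter_upwards [h.cE_eq hN ha] with ω hω
  have hS := SS_pos hN (zv S m n c a ω)
  simp only [Search.U, hω, Real.log_div (exp_pos _).ne' hS.ne', Real.log_exp, sub_eq_add_neg]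
  rw [Gam_shift hN, Real.exp_neg, Real.exp_log hS, div_eq_inv_mul]

theorem grid_le {l k m : ℕ} (hk : k ≤ m * 2 ^ l) : grid l k ≤ m := by
  rw [← grid_nat l m]; exact grid_mono l hk

omit [IsProbabilityMeasure P] in
theorem Filt.idx (h : Filt S m n c Q) {l r : ℕ} (hl : l ≤ r) (k : ℕ) :
    grid (n r) (k * 2 ^ (n r - l)) = grid l k ∧
      (k ≤ m * 2 ^ l → k * 2 ^ (n r - l) ≤ m * 2 ^ n r) := by
  obtain ⟨d, hd⟩ := Nat.exists_eq_add_of_le (hl.trans (h.apx.mono.id_le r))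
  rw [hd, Nat.add_sub_cancel_left, grid_mul_pow, pow_add, ← mul_assoc]
  exact ⟨rfl, fun hk => Nat.mul_le_mul_right _ hk⟩

variable [IsProbabilityMeasure Q]

omit [IsProbabilityMeasure P] [IsProbabilityMeasure Q] in
theorem Filt.lim_zeta (h : Filt S m n c Q) {l k : ℕ} (hk : k ≤ m * 2 ^ l) :
    ∀ᵐ ω ∂Q, Tendsto (fun r => zeta (XX μ S.Y (n r)) (c r) (k * 2 ^ (n r - l)) ω) atTop
      (𝓝 (zv S m n c (grid l k) ω)) := by
  filter_upwards [ae_all_iff.2 fun j => h.lim j _ (grid_le hk)] with ω hω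
  refine (tendsto_pi_nhds.2 hω).congr' ?_
  filter_upwards [eventually_ge_atTop l] with r hr
  rw [zeta_eq μ S.Y (c r) ((h.idx hr k).2 hk), (h.idx hr k).1]

omit [IsProbabilityMeasure P] in
theorem Filt.bound (h : Filt S m n c Q) {F : (Fin N → ℝ) → ℝ} (hF : Gr F) : ∃ C, ∀ r,
    ∀ k ≤ m * 2 ^ n r, ∫⁻ ω, ENNReal.ofReal |F (zeta (XX μ S.Y (n r)) (c r) k ω)| ∂Q ≤
      ENNReal.ofReal C := by
  obtain ⟨C, hC⟩ := hF.bound (mΩ := mΩ) (μ ^ 2 * m)
  refine ⟨C, fun r k hk => hC Q _ _ _ _ _ (h.disc r) k hk ?_⟩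
  rw [vv_mul]
  exact mul_le_mul_of_nonneg_left (by exact_mod_cast grid_le hk) (sq_nonneg _)

omit [IsProbabilityMeasure P] in
theorem Filt.limF (h : Filt S m n c Q) {F : (Fin N → ℝ) → ℝ} (hF : Gr F) (hc : Continuous F)
    {l k : ℕ} (hk : k ≤ m * 2 ^ l) (A : Set Ω) :
    IntegrableOn (fun ω => F (zv S m n c (grid l k) ω)) A Q ∧
    Tendsto (fun r => ∫ ω in A, F (zeta (XX μ S.Y (n r)) (c r) (k * 2 ^ (n r - l)) ω) ∂Q) atTop
      (𝓝 (∫ ω in A, F (zv S m n c (grid l k) ω) ∂Q)) := by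
  obtain ⟨C, hC⟩ := h.bound (hF.pow 2)
  rw [← tendsto_add_atTop_iff_nat l]
  refine tendsto_integral_L2 (C := C)
    (fun r => (hF.1.comp ((h.disc (r + l)).mz' _)).aestronglyMeasurable) (fun r => ?_)
    (ae_restrict_of_ae ((h.lim_zeta hk).mono fun ω hω =>
      (hc.tendsto _).comp ((tendsto_add_atTop_iff_nat l).2 hω)))
  refine (setLIntegral_le_lintegral _ _).trans ?_
  simpa only [abs_pow, sq_abs] using hC (r + l) _ ((h.idx (Nat.le_add_left l r) k).2 hk)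

theorem Filt.intU (h : Filt S m n c Q) (hN : 2 ≤ N) {l k : ℕ} (hk : k ≤ m * 2 ^ l) :
    Integrable (S.U (grid l k)) P :=
  (h.integrable_P hN (grid_le hk) (gr_Gam.1.comp (h.mzv _))
    (integrableOn_univ.1 (h.limF gr_Gam cont_Gam hk _).1)).congr
    ((h.U_eq hN (grid_le hk)).mono fun _ hω => hω.symm)

omit [IsProbabilityMeasure Q] in
theorem Filt.int_U (h : Filt S m n c Q) (hN : 2 ≤ N) {a : ℝ≥0} (ha : a ≤ m) {A : Set Ω}
    (hA : MeasurableSet[S.G a] A) :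
    ∫ ω in A, S.U a ω ∂P = (∫ ω in A, Gam (zv S m n c a ω) ∂Q) / N := by
  rw [← h.int_P hN ha (f := fun ω => Gam (zv S m n c a ω)) (gr_Gam.1.comp (h.mzv a)) hA]
  exact integral_congr_ae (ae_restrict_of_ae (h.U_eq hN ha))

omit [IsProbabilityMeasure Q] [IsProbabilityMeasure P] in
theorem Filt.real_eq (h : Filt S m n c Q) (hN : 2 ≤ N) {a : ℝ≥0} (ha : a ≤ m) {A : Set Ω}
    (hA : MeasurableSet[S.G a] A) : P.real A = (∫ ω in A, SS (zv S m n c a ω) ∂Q) / N := by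
  rw [← h.int_P hN ha (f := fun ω => SS (zv S m n c a ω)) (gr_SS.1.comp (h.mzv a)) hA]
  simp [(SS_pos hN _).ne']

omit [IsProbabilityMeasure Q] [IsProbabilityMeasure P] in
theorem Filt.vv_idx (h : Filt S m n c Q) {l r : ℕ} (hl : l ≤ r) (k0 k1 : ℕ) :
    (vv μ (n r) : ℝ) * (((k1 * 2 ^ (n r - l) : ℕ) : ℝ) - (k0 * 2 ^ (n r - l) : ℕ)) =
      μ ^ 2 * ((grid l k1 : ℝ) - grid l k0) := by
  rw [mul_sub, vv_mul, vv_mul, (h.idx hl k0).1, (h.idx hl k1).1, mul_sub]

theorem Filt.I1 (h : Filt S m n c Q) (hN : 2 ≤ N) {l k0 k1 : ℕ} (h01 : k0 ≤ k1)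
    (hk : k1 ≤ m * 2 ^ l) {A : Set Ω} (hA : MeasurableSet[S.G (grid l k0)] A) :
    ∫ ω in A, S.U (grid l k1) ω ∂P ≤ ∫ ω in A, S.U (grid l k0) ω ∂P +
      μ ^ 2 * ((grid l k1 : ℝ) - grid l k0) / 2 * P.real A := by
  have hk0 := h01.trans hk
  rw [h.int_U hN (grid_le hk) (S.G.mono (grid_mono l h01) _ hA), h.int_U hN (grid_le hk0) hA,
    h.real_eq hN (grid_le hk0) hA, ← mul_div_assoc, ← add_div]
  refine div_le_div_of_nonneg_right ?_ (Nat.cast_nonneg N)
  refine le_of_tendsto_of_tendsto (h.limF gr_Gam cont_Gam hk A).2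
    ((h.limF gr_Gam cont_Gam hk0 A).2.add ((h.limF gr_SS cont_SS hk0 A).2.const_mul _)) ?_
  filter_upwards [eventually_ge_atTop l] with r hr
  rw [← h.vv_idx hr]
  exact (h.disc r).D1 hN (by rw [← (h.idx hr k0).1] at hA; exact hA)
    (Nat.mul_le_mul_right _ h01) ((h.idx hr k1).2 hk)

end Pool.Agent.MP_96872c_an
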